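import Pool.Agent.H60.RO.Isol

namespace H60RO

open scoped commutatorElement IsMulCommutative
open Polynomial

variable {G : Type*} [Group G]

section Act

variable (V : Subgroup G) [V.Normal] [IsMulCommutative V]

/-- the conjugation action on a normal abelian subgroup, written additively -/
def act : G →* AddMonoid.End (Additive V) where
  toFun g :=
    { toFun := fun v => Additive.ofMul ⟨g * (v.toMul : G) * g⁻¹,
        Subgroup.Normal.conj_mem inferInstance _ v.toMul.2 g⟩
      map_zero' := by
        apply Additive.toMul.injective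
        apply Subtype.ext
        change g * (1 : G) * g⁻¹ = 1
        group
      map_add' := by
        intro v w
        apply Additive.toMul.injective
        apply Subtype.ext
        change g * ((v.toMul : G) * (w.toMul : G)) * g⁻¹ = (g * v.toMul * g⁻¹) * (g * w.toMul * g⁻¹)
        group }
  map_one' := by
    ext v
    change (1 : G) * (v.toMul : G) * 1⁻¹ = v.toMul
    group
  map_mul' := by
    intro g h
    ext v
    change (g * h) * (v.toMul : G) * (g * h)⁻¹ = g * (h * v.toMul * h⁻¹) * g⁻¹
    group

theorem act_apply (g : G) (v : Additive V) :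
    (((act V g v).toMul : V) : G) = g * (v.toMul : G) * g⁻¹ := rfl

theorem act_one_of_mem {g : G} (hg : g ∈ V) : act V g = 1 := by
  apply AddMonoidHom.ext
  intro v
  apply Additive.toMul.injective
  apply Subtype.ext
  change g * (v.toMul : G) * g⁻¹ = (v.toMul : G)
  have h1 : (⟨g, hg⟩ : V) * v.toMul = v.toMul * ⟨g, hg⟩ := mul_comm _ _
  have h2 : g * (v.toMul : G) = v.toMul * g := congrArg Subtype.val h1
  rw [h2]; group

/-- iterated commutators in terms of the action -/
theorem iter_comm (g : G) (v : Additive V) (r : ℕ) :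
    ((((act V g - 1) ^ r) v).toMul : G) = (fun y : G => ⁅g, y⁆)^[r] (v.toMul : G) := by
  induction r with
  | zero => rfl
  | succ r ih =>
    rw [Function.iterate_succ_apply', ← ih, pow_succ']
    change (((act V g - 1) (((act V g - 1) ^ r) v)).toMul : G) = _
    generalize ((act V g - 1) ^ r) v = w
    change ((act V g w - w).toMul : G) = _
    rw [toMul_sub]
    rw [Subgroup.coe_div, act_apply, commutatorElement_def, div_eq_mul_inv]

/-- sums of operators given by conjugation -/
inductive Pos : AddMonoid.End (Additive V) → Prop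
  | of (g : G) : Pos (act V g)
  | add {s t : AddMonoid.End (Additive V)} : Pos s → Pos t → Pos (s + t)

variable {V}

theorem Pos.one : Pos V 1 := by
  rw [← map_one (act V)]; exact Pos.of 1

theorem Pos.mul {s t : AddMonoid.End (Additive V)} (hs : Pos V s) (ht : Pos V t) :
    Pos V (s * t) := by
  induction hs with
  | of g =>
    induction ht with
    | of h => rw [← map_mul]; exact Pos.of _
    | add _ _ h1 h2 => rw [mul_add]; exact Pos.add h1 h2
  | add _ _ h1 h2 => rw [add_mul]; exact Pos.add h1 h2

theorem act_comm (hG : ∀ x y : G, ⁅x, y⁆ ∈ V) (g h : G) : act V g * act V h = act V h * act V g := by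
  rw [← map_mul, ← map_mul]
  have e : g * h = ⁅g, h⁆ * (h * g) := by rw [commutatorElement_def]; group
  rw [e, map_mul, act_one_of_mem V (hG g h), one_mul]

theorem Pos.comm (hG : ∀ x y : G, ⁅x, y⁆ ∈ V) {s t : AddMonoid.End (Additive V)} (hs : Pos V s)
    (ht : Pos V t) : s * t = t * s := by
  induction hs with
  | of g =>
    induction ht with
    | of h => exact act_comm hG g h
    | add _ _ h1 h2 => rw [mul_add, add_mul, h1, h2]
  | add _ _ h1 h2 => rw [mul_add, add_mul, h1, h2]

theorem Pos.pos {P : Set G} (hP : IsBiCone P) {s : AddMonoid.End (Additive V)} (hs : Pos V s)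
    {v : Additive V} (hv : (v.toMul : G) ∈ P) : ((s v).toMul : G) ∈ P := by
  induction hs with
  | of g => rw [act_apply]; exact hP.conj' g hv
  | add _ _ h1 h2 => exact hP.mul h1 h2

theorem Pos.inj {P : Set G} (hP : IsBiCone P) {s : AddMonoid.End (Additive V)} (hs : Pos V s)
    {v : Additive V} (hv : s v = 0) : v = 0 := by
  by_contra hne
  have hne' : (v.toMul : G) ≠ 1 := by
    intro h
    apply hne
    apply Additive.toMul.injective
    exact Subtype.ext h
  rcases hP.tot _ hne' with h | h
  · have := hs.pos hP h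
    rw [hv] at this
    exact hP.one this
  · have h' : ((-v).toMul : G) ∈ P := by simpa using h
    have := hs.pos hP h'
    rw [map_neg, hv, neg_zero] at this
    exact hP.one this

/-- polynomials which are positive on positive reals -/
def PolPos (p : ℤ[X]) : Prop := ∀ ρ : ℝ, 0 < ρ → 0 < aeval ρ p

theorem Pos.good {s : AddMonoid.End (Additive V)} (hs : Pos V s) :
    ∃ E : Finset G, ∀ t : G, (∀ e ∈ E, ∃ n : ℤ, ∃ v ∈ V, e = t ^ n * v) →
      ∃ M : ℕ, ∃ p : ℤ[X], PolPos p ∧ (act V t) ^ M * s = aeval (act V t) p := by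
  classical
  induction hs with
  | of g =>
    refine ⟨{g}, fun t ht => ?_⟩
    obtain ⟨n, v, hv, h⟩ := ht g (Finset.mem_singleton_self g)
    refine ⟨n.natAbs, X ^ (n.natAbs + n).toNat, ?_, ?_⟩
    · intro ρ hρ
      rw [map_pow, aeval_X]; positivity
    · rw [map_pow, aeval_X, ← map_pow, ← map_pow, ← map_mul, h, ← mul_assoc]
      have h1 : 0 ≤ (n.natAbs : ℤ) + n := by omega
      have h2 : t ^ n.natAbs * t ^ n = t ^ ((n.natAbs : ℤ) + n).toNat := by
        rw [← zpow_natCast, ← zpow_add, ← zpow_natCast, Int.toNat_of_nonneg h1]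
      rw [h2, map_mul, act_one_of_mem V hv, mul_one]
  | add _ _ h1 h2 =>
    obtain ⟨E₁, h1⟩ := h1
    obtain ⟨E₂, h2⟩ := h2
    refine ⟨E₁ ∪ E₂, fun t ht => ?_⟩
    obtain ⟨M₁, p₁, hp₁, h1⟩ := h1 t (fun e he => ht e (Finset.mem_union_left _ he))
    obtain ⟨M₂, p₂, hp₂, h2⟩ := h2 t (fun e he => ht e (Finset.mem_union_right _ he))
    refine ⟨M₁ + M₂, X ^ M₂ * p₁ + X ^ M₁ * p₂, ?_, ?_⟩
    · intro ρ hρ
      have := hp₁ ρ hρ
      have := hp₂ ρ hρ
      rw [map_add, map_mul, map_mul, map_pow, map_pow, aeval_X]
      positivity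
    · rw [map_add, map_mul, map_mul, map_pow, map_pow, aeval_X, ← h1, ← h2, mul_add,
        ← mul_assoc, ← mul_assoc, ← pow_add, ← pow_add, add_comm M₂ M₁]

end Act

end H60RO
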