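import Mathlib

namespace H60RO

variable {G : Type*} [Group G]

/-- the set of elements above the identity in a right order -/
structure IsCone (P : Set G) : Prop where
  mul : ∀ {a b : G}, a ∈ P → b ∈ P → a * b ∈ P
  one : (1 : G) ∉ P
  tot : ∀ a : G, a ≠ 1 → a ∈ P ∨ a⁻¹ ∈ P

/-- the set of elements above the identity in a two-sided order -/
structure IsBiCone (P : Set G) : Prop extends IsCone P where
  conj : ∀ {a : G} (x : G), a ∈ P → x⁻¹ * a * x ∈ P

/-- every right order is a Conrad right order, in terms of cones -/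
def AC (G : Type*) [Group G] : Prop :=
  ∀ P : Set G, IsCone P → ∀ f g : G, f ∈ P → g * f⁻¹ ∈ P →
    ∃ m : ℕ, 0 < m ∧ f * g ^ m * f⁻¹ * g⁻¹ ∈ P

/-- a cone relative to a subgroup -/
structure RelCone (S : Subgroup G) (Q : Set G) : Prop where
  tot : ∀ x, x ∉ S → x ∈ Q ∨ x⁻¹ ∈ Q
  disj : ∀ x ∈ Q, x ∉ S
  mul : ∀ x ∈ Q, ∀ y ∈ Q, x * y ∈ Q
  lmul : ∀ s ∈ S, ∀ x ∈ Q, s * x ∈ Q
  rmul : ∀ s ∈ S, ∀ x ∈ Q, x * s ∈ Q

/-- a subgroup which is convex in some right order, relatively to right orders of itself -/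
def RelConvex (S : Subgroup G) : Prop := ∃ Q, RelCone S Q

theorem IsCone.ne_one {P : Set G} (h : IsCone P) {a : G} (ha : a ∈ P) : a ≠ 1 := by
  rintro rfl; exact h.one ha

theorem IsCone.inv_notMem {P : Set G} (h : IsCone P) {a : G} (ha : a ∈ P) : a⁻¹ ∉ P := by
  intro h'
  have := h.mul ha h'
  rw [mul_inv_cancel] at this
  exact h.one this

theorem IsCone.pow {P : Set G} (h : IsCone P) {a : G} (ha : a ∈ P) {n : ℕ} (hn : 0 < n) :
    a ^ n ∈ P := by
  induction n with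
  | zero => omega
  | succ n ih =>
    rcases Nat.eq_zero_or_pos n with rfl | hn'
    · simpa using ha
    · rw [pow_succ]; exact h.mul (ih hn') ha

theorem IsBiCone.conj' {P : Set G} (h : IsBiCone P) {a : G} (x : G) (ha : a ∈ P) :
    x * a * x⁻¹ ∈ P := by
  have := h.conj x⁻¹ ha
  simpa using this

theorem IsCone.subgroup {P : Set G} (h : IsCone P) (S : Subgroup G) :
    IsCone {x : S | (x : G) ∈ P} where
  mul := by
    intro a b ha hb
    exact h.mul ha hb
  one := h.one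
  tot := by
    intro a ha
    exact h.tot (a : G) (fun h' => ha (Subtype.ext h'))

theorem IsBiCone.subgroup {P : Set G} (h : IsBiCone P) (S : Subgroup G) :
    IsBiCone {x : S | (x : G) ∈ P} where
  toIsCone := h.toIsCone.subgroup S
  conj := by
    intro a x ha
    exact h.conj (x : G) ha

theorem relCone_bot {Q : Set G} (h : IsCone Q) : RelCone (⊥ : Subgroup G) Q where
  tot := fun x hx => h.tot x (fun h' => hx (by rw [h']; exact Subgroup.one_mem _))
  disj := fun x hx h' => h.ne_one hx (Subgroup.mem_bot.1 h')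
  mul := fun x hx y hy => h.mul hx hy
  lmul := fun s hs x hx => by rw [Subgroup.mem_bot.1 hs, one_mul]; exact hx
  rmul := fun s hs x hx => by rw [Subgroup.mem_bot.1 hs, mul_one]; exact hx

theorem RelCone.isCone {Q : Set G} (h : RelCone (⊥ : Subgroup G) Q) : IsCone Q where
  mul := fun ha hb => h.mul _ ha _ hb
  one := fun h' => h.disj _ h' (Subgroup.one_mem _)
  tot := fun a ha => h.tot a (fun h' => ha (Subgroup.mem_bot.1 h'))

theorem relConvex_top : RelConvex (⊤ : Subgroup G) :=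
  ⟨∅, ⟨fun x hx => absurd (Subgroup.mem_top x) hx, fun x hx => absurd hx (Set.notMem_empty x),
    fun x hx => absurd hx (Set.notMem_empty x), fun _ _ x hx => absurd hx (Set.notMem_empty x),
    fun _ _ x hx => absurd hx (Set.notMem_empty x)⟩⟩

theorem RelCone.comap {G' : Type*} [Group G'] (f : G →* G') {S : Subgroup G'} {Q : Set G'}
    (h : RelCone S Q) : RelCone (S.comap f) (f ⁻¹' Q) where
  tot := fun x hx => by
    rcases h.tot (f x) hx with h1 | h1
    · exact Or.inl h1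
    · right; rw [Set.mem_preimage, map_inv]; exact h1
  disj := fun x hx h' => h.disj _ hx h'
  mul := fun x hx y hy => by
    rw [Set.mem_preimage, map_mul]; exact h.mul _ hx _ hy
  lmul := fun s hs x hx => by
    rw [Set.mem_preimage, map_mul]; exact h.lmul _ hs _ hx
  rmul := fun s hs x hx => by
    rw [Set.mem_preimage, map_mul]; exact h.rmul _ hs _ hx

theorem RelConvex.comap {G' : Type*} [Group G'] (f : G →* G') {S : Subgroup G'}
    (h : RelConvex S) : RelConvex (S.comap f) := by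
  obtain ⟨Q, hQ⟩ := h
  exact ⟨_, hQ.comap f⟩

/-- a normal subgroup with a right orderable quotient is relatively convex -/
theorem relConvex_of_quotient {N : Subgroup G} [N.Normal] {P : Set (G ⧸ N)} (h : IsCone P) :
    RelConvex N := by
  have := (relCone_bot h).comap (QuotientGroup.mk' N)
  rw [MonoidHom.comap_bot, QuotientGroup.ker_mk'] at this
  exact ⟨_, this⟩

/-- gluing relative cones -/
theorem RelCone.trans {S T : Subgroup G} (hST : S ≤ T) {Q : Set G} (hT : RelCone T Q)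
    {Q' : Set T} (hS : RelCone (S.subgroupOf T) Q') :
    RelCone S (Q ∪ (Subtype.val '' Q')) where
  tot := fun x hx => by
    by_cases hxT : x ∈ T
    · rcases hS.tot ⟨x, hxT⟩ (fun h' => hx (Subgroup.mem_subgroupOf.1 h')) with h1 | h1
      · exact Or.inl (Or.inr ⟨_, h1, rfl⟩)
      · exact Or.inr (Or.inr ⟨_, h1, rfl⟩)
    · rcases hT.tot x hxT with h1 | h1
      · exact Or.inl (Or.inl h1)
      · exact Or.inr (Or.inl h1)
  disj := fun x hx h' => by
    rcases hx with hx | ⟨y, hy, rfl⟩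
    · exact hT.disj x hx (hST h')
    · exact hS.disj y hy (Subgroup.mem_subgroupOf.2 h')
  mul := fun x hx y hy => by
    rcases hx with hx | ⟨x, hx, rfl⟩
    · rcases hy with hy | ⟨y, hy, rfl⟩
      · exact Or.inl (hT.mul _ hx _ hy)
      · exact Or.inl (hT.rmul _ y.2 _ hx)
    · rcases hy with hy | ⟨y, hy, rfl⟩
      · exact Or.inl (hT.lmul _ x.2 _ hy)
      · exact Or.inr ⟨_, hS.mul _ hx _ hy, rfl⟩
  lmul := fun s hs x hx => by
    rcases hx with hx | ⟨x, hx, rfl⟩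
    · exact Or.inl (hT.lmul _ (hST hs) _ hx)
    · exact Or.inr ⟨_, hS.lmul ⟨s, hST hs⟩ (Subgroup.mem_subgroupOf.2 hs) _ hx, rfl⟩
  rmul := fun s hs x hx => by
    rcases hx with hx | ⟨x, hx, rfl⟩
    · exact Or.inl (hT.rmul _ (hST hs) _ hx)
    · exact Or.inr ⟨_, hS.rmul ⟨s, hST hs⟩ (Subgroup.mem_subgroupOf.2 hs) _ hx, rfl⟩

theorem RelConvex.trans {S T : Subgroup G} (hST : S ≤ T) (hT : RelConvex T)
    (hS : RelConvex (S.subgroupOf T)) : RelConvex S := by
  obtain ⟨Q, hQ⟩ := hT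
  obtain ⟨Q', hQ'⟩ := hS
  exact ⟨_, RelCone.trans hST hQ hQ'⟩

/-- a cone on a relatively convex subgroup extends -/
theorem RelCone.extend {S : Subgroup G} {Q : Set G} (hS : RelCone S Q) {P : Set S}
    (hP : IsCone P) : IsCone (Q ∪ (Subtype.val '' P)) := by
  have h1 : RelCone ((⊥ : Subgroup G).subgroupOf S) P := by
    rw [Subgroup.bot_subgroupOf]; exact relCone_bot hP
  exact (RelCone.trans bot_le hS h1).isCone

theorem AC.of_relConvex {S : Subgroup G} (hS : RelConvex S) (h : AC G) : AC S := by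
  obtain ⟨Q, hQ⟩ := hS
  intro P hP f g hf hg
  obtain ⟨m, hm, h1⟩ := h _ (hQ.extend hP) (f : G) (g : G) (Or.inr ⟨f, hf, rfl⟩)
    (Or.inr ⟨_, hg, by simp⟩)
  refine ⟨m, hm, ?_⟩
  have h2 : (f : G) * (g : G) ^ m * (f : G)⁻¹ * (g : G)⁻¹ = ((f * g ^ m * f⁻¹ * g⁻¹ : S) : G) := by
    simp
  rw [h2] at h1
  rcases h1 with h1 | ⟨y, hy, h3⟩
  · exact absurd (Subtype.property _) (hQ.disj _ h1)
  · rwa [← Subtype.ext h3]

theorem AC.quotient {N : Subgroup G} [N.Normal] (hN : ∃ P : Set N, IsCone P) (h : AC G) :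
    AC (G ⧸ N) := by
  obtain ⟨P₀, hP₀⟩ := hN
  intro P hP f g hf hg
  obtain ⟨f, rfl⟩ := QuotientGroup.mk_surjective f
  obtain ⟨g, rfl⟩ := QuotientGroup.mk_surjective g
  have hR : RelCone N ((QuotientGroup.mk' N) ⁻¹' P) := by
    have := (relCone_bot hP).comap (QuotientGroup.mk' N)
    rwa [MonoidHom.comap_bot, QuotientGroup.ker_mk'] at this
  have hg0 : ((g : G ⧸ N)) ∈ P := by
    have := hP.mul hg hf
    simpa using this
  obtain ⟨m, hm, h1⟩ := h _ (hR.extend hP₀) f (g ^ 2) (Or.inl hf) (Or.inl (by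
    have : ((g ^ 2 * f⁻¹ : G) : G ⧸ N) = (g : G ⧸ N) * ((g : G ⧸ N) * (f : G ⧸ N)⁻¹) := by
      rw [QuotientGroup.mk_mul, QuotientGroup.mk_pow, QuotientGroup.mk_inv, pow_two, mul_assoc]
    change ((g ^ 2 * f⁻¹ : G) : G ⧸ N) ∈ P
    rw [this]
    exact hP.mul hg0 hg))
  refine ⟨2 * m, by omega, ?_⟩
  have h2 : (f : G ⧸ N) * (g : G ⧸ N) ^ (2 * m) * (f : G ⧸ N)⁻¹ * (g : G ⧸ N)⁻¹
      = ((f * (g ^ 2) ^ m * f⁻¹ * (g ^ 2)⁻¹ : G) : G ⧸ N) * (g : G ⧸ N) := by
    simp only [QuotientGroup.mk_mul, QuotientGroup.mk_pow, QuotientGroup.mk_inv]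
    group
  rw [h2]
  rcases h1 with h1 | ⟨y, hy, h3⟩
  · exact hP.mul h1 hg0
  · have h4 : ((f * (g ^ 2) ^ m * f⁻¹ * (g ^ 2)⁻¹ : G) : G ⧸ N) = 1 := by
      rw [← h3]
      exact (QuotientGroup.eq_one_iff _).2 y.2
    rw [h4, one_mul]
    exact hg0

/-- lexicographic product of relative cones -/
theorem exists_lex {ι : Type*} (S : ι → Subgroup G) (Q : ι → Set G)
    (h : ∀ i, RelCone (S i) (Q i)) :
    ∃ Q' : Set G, RelCone (⨅ i, S i) Q' ∧
      ((∀ i, (S i).Normal ∧ ∀ x : G, ∀ a ∈ Q i, x⁻¹ * a * x ∈ Q i) →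
        ∀ x : G, ∀ a ∈ Q', x⁻¹ * a * x ∈ Q') := by
  classical
  let _ : LinearOrder ι := WellOrderingRel.isWellOrder.linearOrder
  have _ : WellFoundedLT ι := WellOrderingRel.isWellOrder.toIsWellFounded
  let Q' : Set G := {x | ∃ i, x ∈ Q i ∧ ∀ j < i, x ∈ S j}
  have key : ∀ x, x ∉ (⨅ i, S i) → ∃ i, x ∉ S i ∧ ∀ j < i, x ∈ S j := by
    intro x hx
    rw [Subgroup.mem_iInf] at hx
    push Not at hx
    have hw : WellFounded ((· < ·) : ι → ι → Prop) := IsWellFounded.wf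
    refine ⟨hw.min {i | x ∉ S i} hx, hw.min_mem {i | x ∉ S i} hx, fun j hj => ?_⟩
    by_contra hj'
    exact hw.not_lt_min {i | x ∉ S i} hj' hj
  refine ⟨Q', ⟨?_, ?_, ?_, ?_, ?_⟩, ?_⟩
  · intro x hx
    obtain ⟨i, hi, hj⟩ := key x hx
    rcases (h i).tot x hi with h1 | h1
    · exact Or.inl ⟨i, h1, hj⟩
    · exact Or.inr ⟨i, h1, fun j hj' => inv_mem (hj j hj')⟩
  · rintro x ⟨i, hi, -⟩ hx
    exact (h i).disj x hi (Subgroup.mem_iInf.1 hx i)
  · rintro x ⟨i, hi, hi'⟩ y ⟨j, hj, hj'⟩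
    rcases lt_trichotomy i j with hij | rfl | hij
    · exact ⟨i, (h i).rmul _ (hj' i hij) _ hi, fun k hk =>
        mul_mem (hi' k hk) (hj' k (hk.trans hij))⟩
    · exact ⟨i, (h i).mul _ hi _ hj, fun k hk => mul_mem (hi' k hk) (hj' k hk)⟩
    · exact ⟨j, (h j).lmul _ (hi' j hij) _ hj, fun k hk =>
        mul_mem (hi' k (hk.trans hij)) (hj' k hk)⟩
  · rintro s hs x ⟨i, hi, hi'⟩
    rw [Subgroup.mem_iInf] at hs
    exact ⟨i, (h i).lmul _ (hs i) _ hi, fun k hk => mul_mem (hs k) (hi' k hk)⟩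
  · rintro s hs x ⟨i, hi, hi'⟩
    rw [Subgroup.mem_iInf] at hs
    exact ⟨i, (h i).rmul _ (hs i) _ hi, fun k hk => mul_mem (hi' k hk) (hs k)⟩
  · rintro hc x a ⟨i, hi, hi'⟩
    refine ⟨i, (hc i).2 x a hi, fun k hk => ?_⟩
    have := (hc k).1.conj_mem a (hi' k hk) x⁻¹
    simpa using this

theorem RelConvex.iInf {ι : Type*} {S : ι → Subgroup G} (h : ∀ i, RelConvex (S i)) :
    RelConvex (⨅ i, S i) := by
  choose Q hQ using h
  obtain ⟨Q', hQ', -⟩ := exists_lex S Q hQ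
  exact ⟨Q', hQ'⟩

/-- The relatively convex closure. -/
def rc (H : Subgroup G) : Subgroup G := ⨅ T : {T : Subgroup G // RelConvex T ∧ H ≤ T}, T.1

theorem relConvex_rc (H : Subgroup G) : RelConvex (rc H) :=
  RelConvex.iInf (fun T => T.2.1)

theorem le_rc (H : Subgroup G) : H ≤ rc H := le_iInf (fun T => T.2.2)

theorem rc_le {H T : Subgroup G} (hT : RelConvex T) (hHT : H ≤ T) : rc H ≤ T :=
  iInf_le (fun T : {T : Subgroup G // RelConvex T ∧ H ≤ T} => T.1) ⟨T, hT, hHT⟩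

/-- commuting is detected on powers in a bi-orderable group -/
theorem IsBiCone.pow_div {P : Set G} (h : IsBiCone P) {a b : G} (hab : b * a⁻¹ ∈ P) {n : ℕ}
    (hn : 0 < n) : b ^ n * (a ^ n)⁻¹ ∈ P := by
  induction n with
  | zero => omega
  | succ n ih =>
    rcases Nat.eq_zero_or_pos n with rfl | hn'
    · simpa using hab
    · have h1 := h.conj' b (ih hn')
      have h2 := h.mul h1 hab
      have h3 : b * (b ^ n * (a ^ n)⁻¹) * b⁻¹ * (b * a⁻¹) = b ^ (n + 1) * (a ^ (n + 1))⁻¹ := by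
        rw [pow_succ' b n, pow_succ' a n, mul_inv_rev]; group
      rwa [h3] at h2

theorem IsBiCone.pow_inj {P : Set G} (h : IsBiCone P) {a b : G} {n : ℕ} (hn : 0 < n)
    (hab : a ^ n = b ^ n) : a = b := by
  by_contra hne
  have h0 : b * a⁻¹ ≠ 1 := fun h' => hne (by
    rw [mul_inv_eq_one] at h'; exact h'.symm)
  rcases h.tot _ h0 with h1 | h1
  · have := h.pow_div h1 hn
    rw [hab, mul_inv_cancel] at this
    exact h.one this
  · rw [mul_inv_rev, inv_inv] at h1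
    have := h.pow_div h1 hn
    rw [hab, mul_inv_cancel] at this
    exact h.one this

theorem IsBiCone.commute_of_pow {P : Set G} (h : IsBiCone P) {g x : G} {n : ℕ} (hn : 0 < n)
    (hc : Commute (g ^ n) x) : Commute g x := by
  have h1 : (x⁻¹ * g * x) ^ n = g ^ n := by
    have h2 : (x⁻¹ * g * x) ^ n = x⁻¹ * g ^ n * x := by
      have := conj_pow (a := x⁻¹) (b := g) (i := n)
      simpa using this
    rw [h2, mul_assoc, hc.eq, inv_mul_cancel_left]
  have h3 := h.pow_inj hn h1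
  have h4 : x * (x⁻¹ * g * x) = x * g := by rw [h3]
  have h5 : g * x = x * g := by
    rw [← h4]; group
  exact h5

theorem IsBiCone.torsionFree {P : Set G} (h : IsBiCone P) {g : G} {n : ℕ} (hn : 0 < n)
    (hg : g ^ n = 1) : g = 1 := h.pow_inj hn (by rw [hg, one_pow])

/-- centralizers of elements are relatively convex in a bi-orderable group -/
theorem IsBiCone.relConvex_centralizer_singleton {P : Set G} (h : IsBiCone P) (x : G) :
    RelConvex (Subgroup.centralizer ({x} : Set G)) := by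
  have hmem : ∀ g, g ∈ Subgroup.centralizer ({x} : Set G) ↔ x * g = g * x := by
    intro g
    rw [Subgroup.mem_centralizer_iff]
    simp
  refine ⟨{g | x⁻¹ * (g⁻¹ * x * g) ∈ P}, ?_, ?_, ?_, ?_, ?_⟩
  · intro g hg
    rw [hmem] at hg
    have h0 : x⁻¹ * (g⁻¹ * x * g) ≠ 1 := by
      intro h'
      apply hg
      rw [inv_mul_eq_one] at h'
      calc x * g = g * (g⁻¹ * x * g) := by group
        _ = g * x := by rw [← h']
    rcases h.tot _ h0 with h1 | h1
    · exact Or.inl h1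
    · right
      have h2 := h.conj' g h1
      have h3 : g * (x⁻¹ * (g⁻¹ * x * g))⁻¹ * g⁻¹ = x⁻¹ * (x * (g * (g⁻¹ * x⁻¹ * g) * x * g⁻¹)) := by
        group
      have h4 : x⁻¹ * ((g⁻¹)⁻¹ * x * g⁻¹) = g * (x⁻¹ * (g⁻¹ * x * g))⁻¹ * g⁻¹ := by
        group
      change x⁻¹ * ((g⁻¹)⁻¹ * x * g⁻¹) ∈ P
      rw [h4]; exact h2
  · intro g hg hc
    rw [hmem] at hc
    have : x⁻¹ * (g⁻¹ * x * g) = 1 := by
      rw [mul_assoc g⁻¹, hc]; group
    exact h.ne_one hg this
  · intro a ha b hb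
    have h1 := h.conj b ha
    have h2 := h.mul hb h1
    have h3 : x⁻¹ * (b⁻¹ * x * b) * (b⁻¹ * (x⁻¹ * (a⁻¹ * x * a)) * b)
        = x⁻¹ * ((a * b)⁻¹ * x * (a * b)) := by group
    change x⁻¹ * ((a * b)⁻¹ * x * (a * b)) ∈ P
    rw [← h3]; exact h2
  · intro s hs a ha
    rw [hmem] at hs
    have h3 : x⁻¹ * ((s * a)⁻¹ * x * (s * a)) = x⁻¹ * (a⁻¹ * x * a) := by
      have : s⁻¹ * x * s = x := by rw [mul_assoc, hs]; group
      calc x⁻¹ * ((s * a)⁻¹ * x * (s * a)) = x⁻¹ * (a⁻¹ * (s⁻¹ * x * s) * a) := by group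
        _ = _ := by rw [this]
    change x⁻¹ * ((s * a)⁻¹ * x * (s * a)) ∈ P
    rw [h3]; exact ha
  · intro s hs a ha
    rw [hmem] at hs
    have h1 := h.conj s ha
    have h3 : x⁻¹ * ((a * s)⁻¹ * x * (a * s)) = s⁻¹ * (x⁻¹ * (a⁻¹ * x * a)) * s := by
      have : x⁻¹ * s⁻¹ = s⁻¹ * x⁻¹ := by
        rw [← mul_inv_rev, ← mul_inv_rev, hs]
      calc x⁻¹ * ((a * s)⁻¹ * x * (a * s)) = (x⁻¹ * s⁻¹) * (a⁻¹ * x * a) * s := by group
        _ = (s⁻¹ * x⁻¹) * (a⁻¹ * x * a) * s := by rw [this]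
        _ = _ := by group
    change x⁻¹ * ((a * s)⁻¹ * x * (a * s)) ∈ P
    rw [h3]; exact h1

theorem IsBiCone.relConvex_centralizer {P : Set G} (h : IsBiCone P) (X : Set G) :
    RelConvex (Subgroup.centralizer X) := by
  have : Subgroup.centralizer X = ⨅ x : X, Subgroup.centralizer ({(x : G)} : Set G) := by
    ext g
    simp only [Subgroup.mem_iInf, Subgroup.mem_centralizer_iff, Set.mem_singleton_iff,
      forall_eq, Subtype.forall]
  rw [this]
  exact RelConvex.iInf (fun x => h.relConvex_centralizer_singleton _)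

end H60RO
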