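import Pool.Agent.H60.RO.Basic

namespace H60RO

open scoped commutatorElement

variable {G : Type*} [Group G]

/-- the linear order of a two-sided cone -/
noncomputable abbrev IsBiCone.order {P : Set G} (h : IsBiCone P) : LinearOrder G where
  le a b := a = b ∨ b * a⁻¹ ∈ P
  lt a b := b * a⁻¹ ∈ P
  le_refl a := Or.inl rfl
  le_trans a b c := by
    rintro (rfl | hab)
    · exact id
    · rintro (rfl | hbc)
      · exact Or.inr hab
      · right
        have := h.mul hbc hab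
        rwa [mul_assoc, inv_mul_cancel_left] at this
  lt_iff_le_not_ge a b := by
    constructor
    · intro hab
      refine ⟨Or.inr hab, ?_⟩
      rintro (rfl | hba)
      · rw [mul_inv_cancel] at hab; exact h.one hab
      · have := h.mul hab hba
        rw [mul_assoc, inv_mul_cancel_left, mul_inv_cancel] at this
        exact h.one this
    · rintro ⟨rfl | hab, h2⟩
      · exact absurd (Or.inl rfl) h2
      · exact hab
  le_antisymm a b := by
    rintro (rfl | hab)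
    · exact fun _ => rfl
    · rintro (rfl | hba)
      · rfl
      · have := h.mul hab hba
        rw [mul_assoc, inv_mul_cancel_left, mul_inv_cancel] at this
        exact absurd this h.one
  le_total a b := by
    by_cases hab : a = b
    · exact Or.inl (Or.inl hab)
    · rcases h.tot (b * a⁻¹) (fun h' => hab (by rw [mul_inv_eq_one] at h'; exact h'.symm)) with h1 | h1
      · exact Or.inl (Or.inr h1)
      · right; right; rwa [mul_inv_rev, inv_inv] at h1
  toDecidableLE := Classical.decRel _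

theorem IsBiCone.order_mulLeft {P : Set G} (h : IsBiCone P) :
    @MulLeftMono G _ h.order.toLE :=
  @CovariantClass.mk _ _ _ _ (by
    intro c a b hab
    rcases hab with rfl | hab
    · exact Or.inl rfl
    · right
      have := h.conj' c hab
      have e : c * b * (c * a)⁻¹ = c * (b * a⁻¹) * c⁻¹ := by group
      rw [e]; exact this)

theorem IsBiCone.order_mulRight {P : Set G} (h : IsBiCone P) :
    @MulRightMono G _ h.order.toLE :=
  @CovariantClass.mk _ _ _ _ (by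
    intro c a b hab
    rcases hab with rfl | hab
    · exact Or.inl rfl
    · right
      change b * c * (a * c)⁻¹ ∈ P
      have e : b * c * (a * c)⁻¹ = b * a⁻¹ := by group
      rw [e]; exact hab)

theorem IsBiCone.order_lt {P : Set G} (h : IsBiCone P) (a b : G) :
    h.order.lt a b ↔ b * a⁻¹ ∈ P := Iff.rfl

section Ordered

variable [LinearOrder G] [MulLeftMono G] [MulRightMono G]

theorem isBiCone_lt : IsBiCone {x : G | 1 < x} where
  mul := fun ha hb => one_lt_mul'' ha hb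
  one := lt_irrefl _
  tot := fun a ha => by
    rcases lt_or_gt_of_ne ha with h | h
    · exact Or.inr (one_lt_inv'.2 h)
    · exact Or.inl h
  conj := fun {a} x ha => by
    change 1 < x⁻¹ * a * x
    have h1 : x⁻¹ * 1 < x⁻¹ * a := mul_lt_mul_right ha _
    have h2 : x⁻¹ * 1 * x < x⁻¹ * a * x := mul_lt_mul_left h1 _
    simpa using h2

theorem conj_lt {y z : G} (a : G) (h : y < z) : a⁻¹ * y * a < a⁻¹ * z * a :=
  mul_lt_mul_left (mul_lt_mul_right h _) _

theorem conj_le {y z : G} (a : G) (h : y ≤ z) : a⁻¹ * y * a ≤ a⁻¹ * z * a :=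
  mul_le_mul_left (mul_le_mul_right h _) _

theorem conj_lt' {y z : G} (a : G) (h : y < z) : a * y * a⁻¹ < a * z * a⁻¹ :=
  mul_lt_mul_left (mul_lt_mul_right h _) _

/-- the cone given by the action on conjugates of `x` -/
theorem isCone_conj (x : G) :
    IsCone {a : G | x < a⁻¹ * x * a ∨ (a⁻¹ * x * a = x ∧ 1 < a)} where
  mul := by
    intro a b ha hb
    have e : (a * b)⁻¹ * x * (a * b) = b⁻¹ * (a⁻¹ * x * a) * b := by group
    rcases ha with ha | ⟨ha, ha'⟩
    · left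
      rw [e]
      have h1 := conj_lt b ha
      rcases hb with hb | ⟨hb, -⟩
      · exact hb.trans h1
      · rwa [hb] at h1
    · rcases hb with hb | ⟨hb, hb'⟩
      · left; rw [e, ha]; exact hb
      · right; rw [e, ha]; exact ⟨hb, one_lt_mul'' ha' hb'⟩
  one := by
    rintro (h | ⟨-, h⟩)
    · simp at h
    · exact lt_irrefl _ h
  tot := by
    intro a ha
    have e : (a⁻¹)⁻¹ * x * a⁻¹ = a * x * a⁻¹ := by group
    rcases lt_trichotomy x (a⁻¹ * x * a) with h | h | h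
    · exact Or.inl (Or.inl h)
    · rcases lt_or_gt_of_ne ha with h' | h'
      · right; right
        refine ⟨?_, one_lt_inv'.2 h'⟩
        have h2 : a * x = x * a := by
          calc a * x = a * (a⁻¹ * x * a) := by rw [← h]
            _ = x * a := by group
        rw [e, h2]; group
      · exact Or.inl (Or.inr ⟨h.symm, h'⟩)
    · right; left
      have h1 := conj_lt' a h
      rw [e]
      have e2 : a * (a⁻¹ * x * a) * a⁻¹ = x := by group
      rwa [e2] at h1

theorem claim_one (hAC : AC G) (g x : G) (hg : 1 < g) : g < (x⁻¹ * g * x) ^ 4 := by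
  by_contra hcon
  rw [not_lt] at hcon
  set k := x⁻¹ * g * x with hk
  have hk1 : 1 < k := isBiCone_lt.conj x hg
  have hkg : k < g := lt_of_lt_of_le (by
    have : k ^ 1 < k ^ 4 := pow_lt_pow_right' hk1 (by norm_num)
    simpa using this) hcon
  have hxg : x < g⁻¹ * x * g := by
    have e : g⁻¹ * x * g = x * (k⁻¹ * g) := by rw [hk]; group
    rw [e]
    have h1 : 1 < k⁻¹ * g := by
      have := mul_lt_mul_right hkg k⁻¹
      rwa [inv_mul_cancel] at this
    have := mul_lt_mul_right h1 x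
    rwa [mul_one] at this
  have hfQ : g ∈ {a : G | x < a⁻¹ * x * a ∨ (a⁻¹ * x * a = x ∧ 1 < a)} := Or.inl hxg
  have hhQ : (x * g ^ 2) * g⁻¹ ∈ {a : G | x < a⁻¹ * x * a ∨ (a⁻¹ * x * a = x ∧ 1 < a)} := by
    left
    have e : (x * g ^ 2 * g⁻¹)⁻¹ * x * (x * g ^ 2 * g⁻¹) = g⁻¹ * x * g := by
      rw [pow_two]; group
    rw [e]; exact hxg
  obtain ⟨m, hm, h1⟩ := hAC _ (isCone_conj x) g (x * g ^ 2) hfQ hhQ
  set h := x * g ^ 2 with hh
  -- the key inequality
  have hkey : x⁻¹ * ((g ^ 3)⁻¹ * x * g ^ 3) * x ≤ g⁻¹ * x * g := by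
    have e1 : x⁻¹ * ((g ^ 3)⁻¹ * x * g ^ 3) * x = x * (((x⁻¹ * k * x) ^ 3)⁻¹ * k ^ 3) := by
      have e2 : (x⁻¹ * k * x) ^ 3 = x⁻¹ * k ^ 3 * x := by
        have := conj_pow (a := x⁻¹) (b := k) (i := 3)
        simpa using this
      have e3 : k ^ 3 = x⁻¹ * g ^ 3 * x := by
        have := conj_pow (a := x⁻¹) (b := g) (i := 3)
        simpa using this
      rw [e2, e3]; group
    have e4 : g⁻¹ * x * g = x * (k⁻¹ * g) := by rw [hk]; group
    rw [e1, e4]
    refine mul_le_mul_right ?_ x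
    have h2 : ((x⁻¹ * k * x) ^ 3)⁻¹ ≤ 1 := by
      rw [inv_le_one']
      exact one_le_pow_of_one_le' (isBiCone_lt.conj x hk1 : (1 : G) < _).le 3
    have h3 : k ^ 3 ≤ k⁻¹ * g := by
      have := mul_le_mul_right hcon k⁻¹
      have e5 : k⁻¹ * k ^ 4 = k ^ 3 := by rw [pow_succ' k 3, inv_mul_cancel_left]
      rwa [e5] at this
    calc ((x⁻¹ * k * x) ^ 3)⁻¹ * k ^ 3 ≤ 1 * k ^ 3 := mul_le_mul_left h2 _
      _ = k ^ 3 := one_mul _
      _ ≤ k⁻¹ * g := h3
  have hind : ∀ j : ℕ, (g * h ^ j)⁻¹ * x * (g * h ^ j) < (g ^ 3)⁻¹ * x * g ^ 3 := by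
    intro j
    induction j with
    | zero =>
      rw [pow_zero, mul_one]
      have h2 := conj_lt g hxg
      have h3 := conj_lt g h2
      have e : (g ^ 3)⁻¹ * x * g ^ 3 = g⁻¹ * (g⁻¹ * (g⁻¹ * x * g) * g) * g := by
        rw [show g ^ 3 = g * g * g by rw [pow_succ, pow_two], mul_inv_rev, mul_inv_rev]
        simp only [mul_assoc]
      rw [e]
      exact h2.trans h3
    | succ j ih =>
      have h2 := conj_lt h ih
      have e : h⁻¹ * ((g * h ^ j)⁻¹ * x * (g * h ^ j)) * h = (g * h ^ (j + 1))⁻¹ * x * (g * h ^ (j + 1)) := by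
        rw [pow_succ]; group
      rw [e] at h2
      refine h2.trans_le ?_
      have h3 := conj_le (g ^ 2) hkey
      have e1 : (g ^ 2)⁻¹ * (x⁻¹ * ((g ^ 3)⁻¹ * x * g ^ 3) * x) * g ^ 2
          = h⁻¹ * ((g ^ 3)⁻¹ * x * g ^ 3) * h := by rw [hh]; group
      have e2 : (g ^ 2)⁻¹ * (g⁻¹ * x * g) * g ^ 2 = (g ^ 3)⁻¹ * x * g ^ 3 := by group
      rwa [e1, e2] at h3
  have h2 := hind m
  have h3 := conj_lt' (h * g) h2
  have e1 : h * g * ((g * h ^ m)⁻¹ * x * (g * h ^ m)) * (h * g)⁻¹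
      = (g * h ^ m * g⁻¹ * h⁻¹)⁻¹ * x * (g * h ^ m * g⁻¹ * h⁻¹) := by group
  have e2 : h * g * ((g ^ 3)⁻¹ * x * g ^ 3) * (h * g)⁻¹ = x := by rw [hh]; group
  rw [e1, e2] at h3
  rcases h1 with h1 | ⟨h1, -⟩
  · exact absurd h1 (not_lt.2 h3.le)
  · exact absurd h1 h3.ne

theorem claim_two (hAC : AC G) (g x : G) (hg : 1 < g) (n : ℕ) (hn : 0 < n) :
    (x⁻¹ * g * x) ^ n < g ^ (n + 1) := by
  by_contra hcon
  rw [not_lt] at hcon
  have conjpow : ∀ (y : G) (j : ℕ), (y⁻¹ * g * y) ^ j = y⁻¹ * g ^ j * y := by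
    intro y j
    have := conj_pow (a := y⁻¹) (b := g) (i := j)
    simpa using this
  have hind : ∀ N : ℕ, g ^ ((n + 1) ^ N) ≤ ((x ^ N)⁻¹ * g * x ^ N) ^ (n ^ N) := by
    intro N
    induction N with
    | zero => simp
    | succ N ih =>
      calc g ^ ((n + 1) ^ (N + 1)) = (g ^ ((n + 1) ^ N)) ^ (n + 1) := by rw [← pow_mul, pow_succ]
        _ ≤ (((x ^ N)⁻¹ * g * x ^ N) ^ (n ^ N)) ^ (n + 1) := pow_le_pow_left' ih _
        _ = ((x ^ N)⁻¹ * g ^ (n + 1) * x ^ N) ^ (n ^ N) := by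
            rw [← pow_mul, mul_comm (n ^ N), pow_mul, conjpow]
        _ ≤ ((x ^ N)⁻¹ * (x⁻¹ * g * x) ^ n * x ^ N) ^ (n ^ N) :=
            pow_le_pow_left' (conj_le _ hcon) _
        _ = ((x ^ (N + 1))⁻¹ * g * x ^ (N + 1)) ^ (n ^ (N + 1)) := by
            have e1 : (x ^ N)⁻¹ * (x⁻¹ * g * x) ^ n * x ^ N = ((x ^ (N + 1))⁻¹ * g * x ^ (N + 1)) ^ n := by
              rw [conjpow, conjpow, pow_succ']; group
            rw [e1, ← pow_mul, pow_succ n N, mul_comm]
  have hub : ∀ N : ℕ, (x ^ N)⁻¹ * g * x ^ N < g ^ 4 := by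
    intro N
    have h1 : 1 < (x ^ N)⁻¹ * g * x ^ N := isBiCone_lt.conj (x ^ N) hg
    have h2 := claim_one hAC _ ((x ^ N)⁻¹) h1
    have e : ((x ^ N)⁻¹)⁻¹ * ((x ^ N)⁻¹ * g * x ^ N) * (x ^ N)⁻¹ = g := by group
    rwa [e] at h2
  have h1 : ∀ N : ℕ, (n + 1) ^ N ≤ 4 * n ^ N := by
    intro N
    by_contra hlt
    rw [not_le] at hlt
    have h2 := hind N
    have h3 : ((x ^ N)⁻¹ * g * x ^ N) ^ (n ^ N) ≤ (g ^ 4) ^ (n ^ N) := pow_le_pow_left' (hub N).le _
    rw [← pow_mul] at h3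
    exact absurd (h2.trans h3) (not_le.2 (pow_lt_pow_right' hg hlt))
  have h2 := h1 (4 * n)
  have h3 : ((n : ℝ) + 1) ^ (4 * n) ≤ 4 * (n : ℝ) ^ (4 * n) := by exact_mod_cast h2
  have hn' : (0 : ℝ) < n := by exact_mod_cast hn
  have h4 : (1 : ℝ) + ((4 * n : ℕ) : ℝ) * (1 / n) ≤ (1 + 1 / (n : ℝ)) ^ (4 * n) :=
    one_add_mul_le_pow (by positivity |> fun h => le_trans (by norm_num) (h : (0 : ℝ) ≤ 1 / n)) _
  have h5 : (1 : ℝ) + ((4 * n : ℕ) : ℝ) * (1 / n) = 5 := by
    push_cast; field_simp; norm_num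
  have h6 : (1 + 1 / (n : ℝ)) ^ (4 * n) * (n : ℝ) ^ (4 * n) = ((n : ℝ) + 1) ^ (4 * n) := by
    rw [← mul_pow]; congr 1; field_simp
  have h7 : (0 : ℝ) < (n : ℝ) ^ (4 * n) := by positivity
  rw [h5] at h4
  nlinarith

theorem pow_mul_pow_le {a b : G} (h : a * b ≤ b * a) (n : ℕ) : a ^ n * b ^ n ≤ (a * b) ^ n := by
  have h1 : ∀ n : ℕ, a * b ^ n ≤ b ^ n * a := by
    intro n
    induction n with
    | zero => simp
    | succ n ih =>
      calc a * b ^ (n + 1) = (a * b ^ n) * b := by rw [pow_succ, mul_assoc]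
        _ ≤ (b ^ n * a) * b := mul_le_mul_left ih _
        _ = b ^ n * (a * b) := mul_assoc _ _ _
        _ ≤ b ^ n * (b * a) := mul_le_mul_right h _
        _ = b ^ (n + 1) * a := by rw [pow_succ, mul_assoc]
  induction n with
  | zero => simp
  | succ n ih =>
    calc a ^ (n + 1) * b ^ (n + 1) = a ^ n * (a * b ^ n) * b := by
          rw [pow_succ, pow_succ]; simp only [mul_assoc]
      _ ≤ a ^ n * (b ^ n * a) * b := mul_le_mul_left (mul_le_mul_right (h1 n) _) _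
      _ = (a ^ n * b ^ n) * (a * b) := by simp only [mul_assoc]
      _ ≤ (a * b) ^ n * (a * b) := mul_le_mul_left ih _
      _ = (a * b) ^ (n + 1) := (pow_succ _ _).symm

theorem central_aux (hAC : AC G) (g x : G) (hg : 1 < g) (u : G) (hu : x⁻¹ * g * x = g * u)
    (n : ℕ) : u ^ n < g := by
  by_contra hcon
  rw [not_lt] at hcon
  rcases Nat.eq_zero_or_pos n with rfl | hn
  · rw [pow_zero] at hcon; exact absurd hg (not_lt.2 hcon)
  have h1 := claim_two hAC g x hg n hn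
  rw [hu] at h1
  have h2 : g ^ (n + 1) ≤ (g * u) ^ n := by
    rcases le_total (g * u) (u * g) with h | h
    · calc g ^ (n + 1) = g ^ n * g := pow_succ _ _
        _ ≤ g ^ n * u ^ n := mul_le_mul_right hcon _
        _ ≤ (g * u) ^ n := pow_mul_pow_le h n
    · calc g ^ (n + 1) = g * g ^ n := pow_succ' _ _
        _ ≤ u ^ n * g ^ n := mul_le_mul_left hcon _
        _ ≤ (u * g) ^ n := pow_mul_pow_le h n
        _ ≤ (g * u) ^ n := pow_le_pow_left' h n
  exact absurd h1 (not_lt.2 h2)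

theorem central_aux' (hAC : AC G) (g x : G) (hg : 1 < g) (n : ℕ) :
    (g⁻¹ * (x⁻¹ * g * x)) ^ n < g ∧ ((g⁻¹ * (x⁻¹ * g * x))⁻¹) ^ n < g := by
  rcases lt_trichotomy (1 : G) (g⁻¹ * (x⁻¹ * g * x)) with h | h | h
  · have h1 := central_aux hAC g x hg (g⁻¹ * (x⁻¹ * g * x)) (by group) n
    refine ⟨h1, lt_of_le_of_lt ?_ hg⟩
    exact pow_le_one' (inv_le_one'.2 h.le) n
  · rw [← h]; simpa using hg
  · refine ⟨lt_of_le_of_lt (pow_le_one' h.le n) hg, ?_⟩
    have hg' : 1 < x⁻¹ * g * x := isBiCone_lt.conj x hg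
    have h1 := central_aux hAC (x⁻¹ * g * x) x⁻¹ hg' ((g⁻¹ * (x⁻¹ * g * x))⁻¹) (by group) n
    refine h1.trans ?_
    have h2 := mul_lt_mul_right h g
    rwa [mul_inv_cancel_left, mul_one] at h2

/-- **All two-sided orders are central** if all right orders are Conrad orders. -/
theorem central (hAC : AC G) (g x : G) (hg : 1 < g) (n : ℕ) :
    ⁅g, x⁆ ^ n < g ∧ (⁅g, x⁆⁻¹) ^ n < g := by
  obtain ⟨h1, h2⟩ := central_aux' hAC g x⁻¹ hg n
  have e1 : ⁅g, x⁆⁻¹ = g * (g⁻¹ * ((x⁻¹)⁻¹ * g * x⁻¹)) * g⁻¹ := by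
    rw [commutatorElement_def]; group
  have e2 : ⁅g, x⁆ = g * (g⁻¹ * ((x⁻¹)⁻¹ * g * x⁻¹))⁻¹ * g⁻¹ := by
    rw [commutatorElement_def]; group
  have e3 : g * g * g⁻¹ = g := by group
  constructor
  · rw [e2, conj_pow]
    have := conj_lt' g h2
    rwa [e3] at this
  · rw [e1, conj_pow]
    have := conj_lt' g h1
    rwa [e3] at this

end Ordered

end H60RO
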