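import Pool.Agent.H60.RO.Basic

namespace H60RO

open scoped commutatorElement

variable {G : Type*} [Group G]

/-- the two words of the semigroup law -/
def qq (x y : G) : ℕ → G × G
  | 0 => (x, y)
  | n + 1 => ((qq x y n).1 * (qq x y n).2, (qq x y n).2 * (qq x y n).1)

theorem qq_map {G' : Type*} [Group G'] (φ : G →* G') (x y : G) (n : ℕ) :
    qq (φ x) (φ y) n = (φ (qq x y n).1, φ (qq x y n).2) := by
  induction n with
  | zero => rfl
  | succ n ih => simp only [qq, ih, map_mul]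

/-- nilpotent groups satisfy a semigroup law -/
theorem qq_eq [Group.IsNilpotent G] (x y : G) : ∃ n, (qq x y n).1 = (qq x y n).2 := by
  obtain ⟨n, hn⟩ := Group.IsNilpotent.nilpotent (G := G)
  have key : ∀ i j : ℕ, i + j = n →
      (qq x y i).1 * ((qq x y i).2)⁻¹ ∈ Subgroup.upperCentralSeries G j := by
    intro i
    induction i with
    | zero =>
      intro j hj
      rw [zero_add] at hj
      rw [hj, hn]; exact Subgroup.mem_top _
    | succ i ih =>
      intro j hj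
      have h1 := ih (j + 1) (by omega)
      rw [Subgroup.mem_upperCentralSeries_succ_iff] at h1
      have h2 := h1 (qq x y i).2
      have e : (qq x y (i + 1)).1 * ((qq x y (i + 1)).2)⁻¹ =
          ⁅(qq x y i).1 * ((qq x y i).2)⁻¹, (qq x y i).2⁆ := by
        simp only [qq, commutatorElement_def]; group
      rw [e]; exact h2
  have h := key n 0 (add_zero n)
  rw [Subgroup.upperCentralSeries_zero, Subgroup.mem_bot, mul_inv_eq_one] at h
  exact ⟨n, h⟩

/-- **if all two-generator subgroups are nilpotent then all right orders are Conrad orders** -/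
theorem AC_of_two_gen (h : ∀ f g : G, Group.IsNilpotent (Subgroup.closure ({f, g} : Set G))) :
    AC G := by
  intro P hP f g hf hg
  by_contra hcon
  push Not at hcon
  have hgP : g ∈ P := by
    have := hP.mul hg hf
    rwa [inv_mul_cancel_right] at this
  -- strict bounds
  have hstep : f * g * f⁻¹ ∈ P := by
    have := hP.mul hf hg
    rwa [← mul_assoc] at this
  have hle : ∀ m : ℕ, 0 < m → g * f * (g ^ m)⁻¹ * f⁻¹ = 1 ∨ g * f * (g ^ m)⁻¹ * f⁻¹ ∈ P := by
    intro m hm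
    have h1 := hcon m hm
    have e : (f * g ^ m * f⁻¹ * g⁻¹)⁻¹ = g * f * (g ^ m)⁻¹ * f⁻¹ := by group
    by_cases h2 : f * g ^ m * f⁻¹ * g⁻¹ = 1
    · left; rw [← e, h2, inv_one]
    · rcases hP.tot _ h2 with h3 | h3
      · exact absurd h3 h1
      · right; rwa [e] at h3
  have hlt : ∀ m : ℕ, g * f * (g ^ m)⁻¹ * f⁻¹ ∈ P := by
    intro m
    have e : g * f * (g ^ m)⁻¹ * f⁻¹ = g * f * (g ^ (m + 1))⁻¹ * f⁻¹ * (f * g * f⁻¹) := by
      rw [pow_succ']; group
    rw [e]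
    rcases hle (m + 1) (Nat.succ_pos m) with h1 | h1
    · rw [h1, one_mul]; exact hstep
    · exact hP.mul h1 hstep
  let E : Set G := {z | (z = 1 ∨ z ∈ P) ∧ ∃ m : ℕ, f * g ^ m * z⁻¹ = 1 ∨ f * g ^ m * z⁻¹ ∈ P}
  have hX : ∀ z ∈ E, g * (z * (g * f⁻¹))⁻¹ ∈ P ∧ z * (g * f⁻¹) ∈ E := by
    rintro z ⟨hz, m, hm⟩
    have h1 : g * (z * (g * f⁻¹))⁻¹ ∈ P := by
      have e : g * (z * (g * f⁻¹))⁻¹ = (g * f * (g ^ (m + 1))⁻¹ * f⁻¹) * (f * g ^ m * z⁻¹) := by
        rw [pow_succ']; group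
      rw [e]
      rcases hm with hm | hm
      · rw [hm, mul_one]; exact hlt _
      · exact hP.mul (hlt _) hm
    refine ⟨h1, ?_, 1, ?_⟩
    · right
      rcases hz with rfl | hz
      · rw [one_mul]; exact hg
      · exact hP.mul hz hg
    · right
      rw [pow_one, mul_assoc]
      exact hP.mul hf h1
  have hY : ∀ z ∈ E, (z * g * g⁻¹ = 1 ∨ z * g * g⁻¹ ∈ P) ∧ z * g ∈ E := by
    rintro z ⟨hz, m, hm⟩
    refine ⟨by rwa [mul_inv_cancel_right], ?_, m + 1, ?_⟩
    · right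
      rcases hz with rfl | hz
      · rw [one_mul]; exact hgP
      · exact hP.mul hz hgP
    · have e : f * g ^ (m + 1) * (z * g)⁻¹ = f * g ^ m * z⁻¹ := by rw [pow_succ]; group
      rw [e]; exact hm
  -- the types of the words
  let lo : G → Prop := fun a => ∀ z ∈ E, g * (z * a)⁻¹ ∈ P
  let hi : G → Prop := fun a => ∀ z ∈ E, (z * a * g⁻¹ = 1 ∨ z * a * g⁻¹ ∈ P)
  let st : G → Prop := fun a => ∀ z ∈ E, z * a ∈ E
  have hind : ∀ i : ℕ, (st (qq (g * f⁻¹) g i).1 ∧ st (qq (g * f⁻¹) g i).2) ∧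
      ((lo (qq (g * f⁻¹) g i).1 ∧ hi (qq (g * f⁻¹) g i).2) ∨
        (hi (qq (g * f⁻¹) g i).1 ∧ lo (qq (g * f⁻¹) g i).2)) := by
    intro i
    induction i with
    | zero =>
      exact ⟨⟨fun z hz => (hX z hz).2, fun z hz => (hY z hz).2⟩,
        Or.inl ⟨fun z hz => (hX z hz).1, fun z hz => (hY z hz).1⟩⟩
    | succ i ih =>
      obtain ⟨⟨h1, h2⟩, h3⟩ := ih
      set a := (qq (g * f⁻¹) g i).1
      set b := (qq (g * f⁻¹) g i).2
      have ea : (qq (g * f⁻¹) g (i + 1)).1 = a * b := rfl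
      have eb : (qq (g * f⁻¹) g (i + 1)).2 = b * a := rfl
      rw [ea, eb]
      refine ⟨⟨fun z hz => ?_, fun z hz => ?_⟩, ?_⟩
      · rw [← mul_assoc]; exact h2 _ (h1 z hz)
      · rw [← mul_assoc]; exact h1 _ (h2 z hz)
      · rcases h3 with ⟨h4, h5⟩ | ⟨h4, h5⟩
        · right
          refine ⟨fun z hz => ?_, fun z hz => ?_⟩
          · rw [← mul_assoc]; exact h5 _ (h1 z hz)
          · rw [← mul_assoc]; exact h4 _ (h2 z hz)
        · left
          refine ⟨fun z hz => ?_, fun z hz => ?_⟩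
          · rw [← mul_assoc]; exact h5 _ (h1 z hz)
          · rw [← mul_assoc]; exact h4 _ (h2 z hz)
  -- equality of the words
  have hK := h f g
  set K := Subgroup.closure ({f, g} : Set G) with hKdef
  have hfK : f ∈ K := Subgroup.subset_closure (by simp)
  have hgK : g ∈ K := Subgroup.subset_closure (by simp)
  obtain ⟨n, hn⟩ := qq_eq (⟨g, hgK⟩ * (⟨f, hfK⟩ : K)⁻¹) (⟨g, hgK⟩ : K)
  have h1 := qq_map K.subtype (⟨g, hgK⟩ * (⟨f, hfK⟩ : K)⁻¹) (⟨g, hgK⟩ : K) n
  have h2 : (qq (g * f⁻¹) g n).1 = (qq (g * f⁻¹) g n).2 := by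
    have h3 : qq (g * f⁻¹) g n = _ := h1
    rw [h3, hn]
  have h1E : (1 : G) ∈ E := ⟨Or.inl rfl, 0, Or.inr (by simpa using hf)⟩
  obtain ⟨-, h3⟩ := hind n
  rcases h3 with ⟨h4, h5⟩ | ⟨h4, h5⟩
  · have h6 := h4 1 h1E
    have h7 := h5 1 h1E
    rw [one_mul] at h6 h7
    rw [← h2] at h7
    rcases h7 with h7 | h7
    · have e : g * (qq (g * f⁻¹) g n).1⁻¹ = ((qq (g * f⁻¹) g n).1 * g⁻¹)⁻¹ := by group
      rw [e, h7, inv_one] at h6
      exact hP.one h6
    · have := hP.mul h6 h7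
      have e : g * (qq (g * f⁻¹) g n).1⁻¹ * ((qq (g * f⁻¹) g n).1 * g⁻¹) = 1 := by group
      rw [e] at this
      exact hP.one this
  · have h6 := h4 1 h1E
    have h7 := h5 1 h1E
    rw [one_mul] at h6 h7
    rw [← h2] at h7
    rcases h6 with h6 | h6
    · have e : g * (qq (g * f⁻¹) g n).1⁻¹ = ((qq (g * f⁻¹) g n).1 * g⁻¹)⁻¹ := by group
      rw [e, h6, inv_one] at h7
      exact hP.one h7
    · have := hP.mul h7 h6
      have e : g * (qq (g * f⁻¹) g n).1⁻¹ * ((qq (g * f⁻¹) g n).1 * g⁻¹) = 1 := by group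
      rw [e] at this
      exact hP.one this

end H60RO
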