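import Pool.Agent.H60.RO.Basic

namespace H60RO

/-- extension of a partial order of an abelian group, invariant under commuting operators -/
theorem exists_ext {A : Type*} [AddCommGroup A] (T : Set (AddMonoid.End A))
    (hid : (1 : AddMonoid.End A) ∈ T) (hadd : ∀ s ∈ T, ∀ t ∈ T, s + t ∈ T)
    (hmul : ∀ s ∈ T, ∀ t ∈ T, s * t ∈ T) (hcomm : ∀ s ∈ T, ∀ t ∈ T, s * t = t * s)
    (hinj : ∀ s ∈ T, ∀ x : A, s x = 0 → x = 0)
    (C : Set A) (h0 : (0 : A) ∉ C) (hCadd : ∀ x ∈ C, ∀ y ∈ C, x + y ∈ C)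
    (hCT : ∀ s ∈ T, ∀ x ∈ C, s x ∈ C) :
    ∃ C' : Set A, C ⊆ C' ∧ (0 : A) ∉ C' ∧ (∀ x ∈ C', ∀ y ∈ C', x + y ∈ C') ∧
      (∀ s ∈ T, ∀ x ∈ C', s x ∈ C') ∧ ∀ x, x ≠ 0 → x ∈ C' ∨ -x ∈ C' := by
  let F : Set (Set A) := {C | (0 : A) ∉ C ∧ (∀ x ∈ C, ∀ y ∈ C, x + y ∈ C) ∧
      (∀ s ∈ T, ∀ x ∈ C, s x ∈ C)}
  obtain ⟨M, hCM, hM⟩ := zorn_subset_nonempty F (by
    intro c hc hchain hne
    refine ⟨⋃₀ c, ⟨?_, ?_, ?_⟩, fun s hs => Set.subset_sUnion_of_mem hs⟩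
    · rintro ⟨s, hs, h⟩
      exact (hc hs).1 h
    · rintro x ⟨s, hs, hx⟩ y ⟨t, ht, hy⟩
      rcases hchain.total hs ht with h | h
      · exact ⟨t, ht, (hc ht).2.1 x (h hx) y hy⟩
      · exact ⟨s, hs, (hc hs).2.1 x hx y (h hy)⟩
    · rintro σ hσ x ⟨s, hs, hx⟩
      exact ⟨s, hs, (hc hs).2.2 σ hσ x hx⟩) C ⟨h0, hCadd, hCT⟩
  refine ⟨M, hCM, hM.prop.1, hM.prop.2.1, hM.prop.2.2, ?_⟩
  obtain ⟨hM0, hMadd, hMT⟩ := hM.prop
  have hap : ∀ (s t : AddMonoid.End A) (x : A), (s + t) x = s x + t x := fun _ _ _ => rfl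
  -- key: if `x` cannot be added then `- s x` is in `M`
  have key : ∀ x : A, x ≠ 0 → x ∉ M → ∃ s ∈ T, -(s x) ∈ M := by
    intro x hx hxM
    by_contra hcon
    push Not at hcon
    let M' : Set A := M ∪ {y | ∃ s ∈ T, y = s x ∨ ∃ c ∈ M, y = c + s x}
    have hM' : M' ∈ F := by
      refine ⟨?_, ?_, ?_⟩
      · rintro (h | ⟨s, hs, h | ⟨c, hc, h⟩⟩)
        · exact hM0 h
        · exact hx (hinj s hs x h.symm)
        · apply hcon s hs
          have : -(s x) = c := by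
            rw [neg_eq_iff_add_eq_zero, add_comm]; exact h.symm
          rw [this]; exact hc
      · rintro y (hy | ⟨s, hs, rfl | ⟨c, hc, rfl⟩⟩) z (hz | ⟨t, ht, rfl | ⟨d, hd, rfl⟩⟩)
        · exact Or.inl (hMadd _ hy _ hz)
        · exact Or.inr ⟨t, ht, Or.inr ⟨y, hy, rfl⟩⟩
        · exact Or.inr ⟨t, ht, Or.inr ⟨y + d, hMadd _ hy _ hd, by rw [add_assoc]⟩⟩
        · exact Or.inr ⟨s, hs, Or.inr ⟨z, hz, by rw [add_comm]⟩⟩
        · exact Or.inr ⟨s + t, hadd _ hs _ ht, Or.inl rfl⟩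
        · exact Or.inr ⟨s + t, hadd _ hs _ ht, Or.inr ⟨d, hd, by
            rw [hap]; abel⟩⟩
        · exact Or.inr ⟨s, hs, Or.inr ⟨c + z, hMadd _ hc _ hz, by abel⟩⟩
        · exact Or.inr ⟨s + t, hadd _ hs _ ht, Or.inr ⟨c, hc, by
            rw [hap]; abel⟩⟩
        · exact Or.inr ⟨s + t, hadd _ hs _ ht, Or.inr ⟨c + d, hMadd _ hc _ hd, by
            rw [hap]; abel⟩⟩
      · rintro σ hσ y (hy | ⟨s, hs, rfl | ⟨c, hc, rfl⟩⟩)
        · exact Or.inl (hMT _ hσ _ hy)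
        · exact Or.inr ⟨σ * s, hmul _ hσ _ hs, Or.inl rfl⟩
        · exact Or.inr ⟨σ * s, hmul _ hσ _ hs, Or.inr ⟨σ c, hMT _ hσ _ hc, by
            rw [map_add]; rfl⟩⟩
    have h1 : M' ⊆ M := hM.le_of_ge hM' Set.subset_union_left
    exact hxM (h1 (Or.inr ⟨1, hid, Or.inl rfl⟩))
  intro x hx
  by_contra hcon
  push Not at hcon
  obtain ⟨s, hs, h1⟩ := key x hx hcon.1
  obtain ⟨t, ht, h2⟩ := key (-x) (neg_ne_zero.2 hx) hcon.2
  rw [map_neg, neg_neg] at h2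
  have h3 := hMT t ht _ h1
  have h4 := hMT s hs _ h2
  have h5 := hMadd _ h3 _ h4
  have h6 : t (-(s x)) + s (t x) = 0 := by
    rw [map_neg]
    have : t (s x) = s (t x) := by
      have := congrArg (fun f : AddMonoid.End A => f x) (hcomm t ht s hs)
      exact this
    rw [this, neg_add_cancel]
  rw [h6] at h5
  exact hM0 h5

theorem exists_cone_of_tf (Q : Type*) [Group Q] (hcomm : ∀ a b : Q, a * b = b * a)
    (htf : ∀ a : Q, ∀ n : ℕ, 0 < n → a ^ n = 1 → a = 1) : ∃ P : Set Q, IsCone P := by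
  let _ : CommGroup Q := { (inferInstance : Group Q) with mul_comm := hcomm }
  obtain ⟨C, -, h0, hadd, -, htot⟩ := exists_ext (A := Additive Q)
    {s | ∃ n : ℕ, 0 < n ∧ s = (n : AddMonoid.End (Additive Q))}
    ⟨1, one_pos, by simp⟩
    (by rintro s ⟨m, hm, rfl⟩ t ⟨n, hn, rfl⟩; exact ⟨m + n, by omega, by push_cast; rfl⟩)
    (by rintro s ⟨m, hm, rfl⟩ t ⟨n, hn, rfl⟩; exact ⟨m * n, Nat.mul_pos hm hn, by push_cast; rfl⟩)
    (by rintro s ⟨m, hm, rfl⟩ t ⟨n, hn, rfl⟩; rw [← Nat.cast_mul, ← Nat.cast_mul, mul_comm])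
    (by
      rintro s ⟨m, hm, rfl⟩ x hx
      rw [AddMonoid.End.natCast_apply] at hx
      exact htf x.toMul m hm hx)
    ∅ (Set.notMem_empty _) (fun x hx => absurd hx (Set.notMem_empty _))
    (fun _ _ x hx => absurd hx (Set.notMem_empty _))
  exact ⟨{q | Additive.ofMul q ∈ C}, ⟨fun ha hb => hadd _ ha _ hb, h0, fun a ha => htot _ ha⟩⟩

variable {G : Type*} [Group G]

/-- relative cone of a torsion-free abelian section -/
theorem exists_rel_cone (A B : Subgroup G) (hAB : A ≤ B)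
    (hcomm : ∀ x ∈ B, ∀ y ∈ B, x⁻¹ * y⁻¹ * x * y ∈ A)
    (htf : ∀ x ∈ B, ∀ n : ℕ, 0 < n → x ^ n ∈ A → x ∈ A) :
    RelConvex (A.subgroupOf B) := by
  have hN : (A.subgroupOf B).Normal := by
    constructor
    intro n hn g
    rw [Subgroup.mem_subgroupOf] at hn ⊢
    have h1 := hcomm _ (g⁻¹).2 _ (n⁻¹ : B).2
    have h2 : ((g * n * g⁻¹ : B) : G) = ((g⁻¹ : B) : G)⁻¹ * ((n⁻¹ : B) : G)⁻¹ * ((g⁻¹ : B) : G)
        * ((n⁻¹ : B) : G) * (n : G) := by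
      push_cast; group
    rw [h2]
    exact mul_mem h1 hn
  obtain ⟨P, hP⟩ := exists_cone_of_tf (B ⧸ A.subgroupOf B) (by
    intro a b
    obtain ⟨a, rfl⟩ := QuotientGroup.mk_surjective a
    obtain ⟨b, rfl⟩ := QuotientGroup.mk_surjective b
    rw [← QuotientGroup.mk_mul, ← QuotientGroup.mk_mul, eq_comm, QuotientGroup.eq,
      Subgroup.mem_subgroupOf]
    have := hcomm _ a.2 _ b.2
    have h2 : (((b * a)⁻¹ * (a * b) : B) : G) = (a : G)⁻¹ * (b : G)⁻¹ * (a : G) * (b : G) := by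
      push_cast; group
    rw [h2]; exact this) (by
    intro a n hn ha
    obtain ⟨a, rfl⟩ := QuotientGroup.mk_surjective a
    rw [← QuotientGroup.mk_pow, QuotientGroup.eq_one_iff, Subgroup.mem_subgroupOf] at ha
    rw [QuotientGroup.eq_one_iff, Subgroup.mem_subgroupOf]
    exact htf _ a.2 n hn (by simpa using ha))
  exact relConvex_of_quotient hP

end H60RO
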