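import Pool.Agent.H60.RO.Central
import Pool.Agent.H60.RO.Ext

namespace H60RO

open scoped commutatorElement

variable {G : Type*} [Group G]

section Ordered

variable [LinearOrder G] [MulLeftMono G] [MulRightMono G]

/-- convex subgroups -/
def Cvx (J : Subgroup G) : Prop := ∀ x ∈ J, ∀ y : G, 1 ≤ y → y ≤ x → y ∈ J

variable (G) in
/-- central orders -/
def CentralOrder : Prop :=
  ∀ g x : G, 1 < g → ∀ n : ℕ, ⁅g, x⁆ ^ n < g ∧ (⁅g, x⁆⁻¹) ^ n < g

theorem Cvx.mem_of_between {J : Subgroup G} (hJ : Cvx J) {a b y : G} (ha : a ∈ J) (hb : b ∈ J)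
    (h1 : a ≤ y) (h2 : y ≤ b) : y ∈ J := by
  have h3 : 1 ≤ a⁻¹ * y := by
    have := mul_le_mul_right h1 a⁻¹
    rwa [inv_mul_cancel] at this
  have h4 : a⁻¹ * y ≤ a⁻¹ * b := mul_le_mul_right h2 _
  have h5 := hJ _ (mul_mem (inv_mem ha) hb) _ h3 h4
  have := mul_mem ha h5
  rwa [mul_inv_cancel_left] at this

theorem Cvx.total {J K : Subgroup G} (hJ : Cvx J) (hK : Cvx K) : J ≤ K ∨ K ≤ J := by
  by_contra hcon
  push Not at hcon
  obtain ⟨h1, h2⟩ := hcon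
  obtain ⟨a, haJ, haK⟩ := SetLike.not_le_iff_exists.1 h1
  obtain ⟨b, hbK, hbJ⟩ := SetLike.not_le_iff_exists.1 h2
  -- make both at least one
  have : ∃ a, a ∈ J ∧ a ∉ K ∧ 1 ≤ a := by
    rcases le_total 1 a with h | h
    · exact ⟨a, haJ, haK, h⟩
    · exact ⟨a⁻¹, inv_mem haJ, fun h' => haK (by simpa using inv_mem h'), one_le_inv'.2 h⟩
  obtain ⟨a, haJ, haK, ha⟩ := this
  have : ∃ b, b ∈ K ∧ b ∉ J ∧ 1 ≤ b := by
    rcases le_total 1 b with h | h
    · exact ⟨b, hbK, hbJ, h⟩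
    · exact ⟨b⁻¹, inv_mem hbK, fun h' => hbJ (by simpa using inv_mem h'), one_le_inv'.2 h⟩
  obtain ⟨b, hbK, hbJ, hb⟩ := this
  rcases le_total a b with h | h
  · exact haK (hK b hbK a ha h)
  · exact hbJ (hJ a haJ b hb h)

theorem Cvx.comm_mem (hc : CentralOrder G) {J : Subgroup G} (hJ : Cvx J) {y : G} (hy : y ∈ J)
    (x : G) : ⁅y, x⁆ ∈ J := by
  -- first for `1 < y`
  have key : ∀ z : G, z ∈ J → 1 < z → ⁅z, x⁆ ∈ J := by
    intro z hz hz1
    obtain ⟨h1, h2⟩ := hc z x hz1 1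
    rw [pow_one] at h1 h2
    exact hJ.mem_of_between (inv_mem hz) hz (by
      rw [inv_le']; exact h2.le) h1.le
  rcases lt_trichotomy 1 y with h | h | h
  · exact key y hy h
  · rw [← h, commutatorElement_one_left]; exact one_mem _
  · have h3 := key y⁻¹ (inv_mem hy) (one_lt_inv'.2 h)
    have e : ⁅y, x⁆ = y * ⁅y⁻¹, x⁆⁻¹ * y⁻¹ := by
      rw [commutatorElement_def, commutatorElement_def]; group
    rw [e]
    exact mul_mem (mul_mem hy (inv_mem h3)) (inv_mem hy)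

theorem Cvx.normal (hc : CentralOrder G) {J : Subgroup G} (hJ : Cvx J) : J.Normal := by
  constructor
  intro y hy x
  have h := hJ.comm_mem hc hy x
  have e : x * y * x⁻¹ = ⁅y, x⁆⁻¹ * y := by rw [commutatorElement_def]; group
  rw [e]
  exact mul_mem (inv_mem h) hy

theorem Cvx.bot : Cvx (⊥ : Subgroup G) := by
  intro x hx y h1 h2
  rw [Subgroup.mem_bot] at hx ⊢
  subst hx
  exact le_antisymm h2 h1

theorem Cvx.sInf {ι : Type*} {F : ι → Subgroup G} (h : ∀ i, Cvx (F i)) : Cvx (⨅ i, F i) := by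
  intro x hx y h1 h2
  rw [Subgroup.mem_iInf] at hx ⊢
  exact fun i => h i x (hx i) y h1 h2

/-- convex closure of a subgroup -/
def hull (K : Subgroup G) : Subgroup G where
  carrier := {x | ∃ h ∈ K, h⁻¹ ≤ x ∧ x ≤ h}
  one_mem' := ⟨1, one_mem _, by simp⟩
  inv_mem' := by
    rintro x ⟨h, hK, h1, h2⟩
    refine ⟨h, hK, inv_le_inv_iff.2 h2, ?_⟩
    rw [inv_le']; exact h1
  mul_mem' := by
    rintro x y ⟨h, hK, h1, h2⟩ ⟨k, hK', h3, h4⟩
    have h5 : x * y ≤ h * k := mul_le_mul' h2 h4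
    have h6 : h⁻¹ * k⁻¹ ≤ x * y := mul_le_mul' h1 h3
    rcases le_total (h * k) (k * h) with h7 | h7
    · refine ⟨k * h, mul_mem hK' hK, ?_, h5.trans h7⟩
      rw [mul_inv_rev]; exact h6
    · refine ⟨h * k, mul_mem hK hK', ?_, h5⟩
      refine le_trans ?_ h6
      rw [← mul_inv_rev]
      exact inv_le_inv_iff.2 h7

theorem mem_hull {K : Subgroup G} {x : G} : x ∈ hull K ↔ ∃ h ∈ K, h⁻¹ ≤ x ∧ x ≤ h := Iff.rfl

theorem cvx_hull (K : Subgroup G) : Cvx (hull K) := by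
  rintro x ⟨h, hK, h1, h2⟩ y h3 h4
  refine ⟨h, hK, ?_, h4.trans h2⟩
  have h5 : 1 ≤ h := h3.trans (h4.trans h2)
  exact (inv_le_one'.2 h5).trans h3

theorem le_hull (K : Subgroup G) : K ≤ hull K := by
  intro x hx
  rcases le_total 1 x with h | h
  · exact ⟨x, hx, (inv_le_one'.2 h).trans h, le_rfl⟩
  · exact ⟨x⁻¹, inv_mem hx, by simp, h.trans (one_le_inv'.2 h)⟩

theorem hull_le {K J : Subgroup G} (hJ : Cvx J) (h : K ≤ J) : hull K ≤ J := by
  rintro x ⟨k, hK, h1, h2⟩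
  exact hJ.mem_of_between (inv_mem (h hK)) (h hK) h1 h2

/-- the element `j` does not lie in the convex subgroup generated by `⁅j, x⁆` -/
theorem notMem_hull_comm (hc : CentralOrder G) {j : G} (hj : j ≠ 1) (x : G) :
    j ∉ hull (Subgroup.zpowers ⁅j, x⁆) := by
  -- reduce to `1 < j`
  have key : ∀ z c : G, 1 < z → (∀ n : ℕ, c ^ n < z ∧ (c⁻¹) ^ n < z) →
      z ∉ hull (Subgroup.zpowers c) := by
    rintro z c hz h ⟨k, hk, -, h2⟩
    obtain ⟨n, rfl⟩ := Subgroup.mem_zpowers_iff.1 hk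
    rcases n with n | n
    · have := (h n).1
      rw [Int.ofNat_eq_natCast, zpow_natCast] at h2
      exact absurd h2 (not_le.2 this)
    · have := (h (n + 1)).2
      rw [zpow_negSucc, ← inv_pow] at h2
      exact absurd h2 (not_le.2 this)
  rcases lt_or_gt_of_ne hj with h | h
  · intro hmem
    have hj1 : 1 < j⁻¹ := one_lt_inv'.2 h
    have h1 : ∀ n : ℕ, ⁅j, x⁆ ^ n < j⁻¹ ∧ (⁅j, x⁆⁻¹) ^ n < j⁻¹ := by
      intro n
      obtain ⟨h2, h3⟩ := hc j⁻¹ x hj1 n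
      have e : ⁅j, x⁆⁻¹ = j * ⁅j⁻¹, x⁆ * j⁻¹ := by
        rw [commutatorElement_def, commutatorElement_def]; group
      have e' : ⁅j, x⁆ = j * ⁅j⁻¹, x⁆⁻¹ * j⁻¹ := by
        rw [commutatorElement_def, commutatorElement_def]; group
      have e3 : j * j⁻¹ * j⁻¹ = j⁻¹ := by group
      constructor
      · rw [e', conj_pow]
        have := conj_lt' j h3
        rwa [e3] at this
      · rw [e, conj_pow]
        have := conj_lt' j h2
        rwa [e3] at this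
    exact key j⁻¹ _ hj1 h1 (inv_mem hmem)
  · exact key j _ h (fun n => hc j x h n)

theorem Cvx.quotient_cone {J : Subgroup G} [J.Normal] (hJ : Cvx J) :
    IsBiCone {q : G ⧸ J | ∃ x : G, 1 < x ∧ x ∉ J ∧ (x : G ⧸ J) = q} where
  mul := by
    rintro _ _ ⟨x, hx, hxJ, rfl⟩ ⟨y, hy, hyJ, rfl⟩
    refine ⟨x * y, one_lt_mul'' hx hy, fun h => hxJ (hJ _ h x hx.le ?_), rfl⟩
    exact le_mul_of_one_le_right' hy.le
  one := by
    rintro ⟨x, hx, hxJ, h⟩
    exact hxJ ((QuotientGroup.eq_one_iff x).1 h)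
  tot := by
    intro a ha
    obtain ⟨x, rfl⟩ := QuotientGroup.mk_surjective a
    have hxJ : x ∉ J := fun h => ha ((QuotientGroup.eq_one_iff x).2 h)
    rcases lt_trichotomy 1 x with h | h | h
    · exact Or.inl ⟨x, h, hxJ, rfl⟩
    · exact absurd (h ▸ one_mem J) hxJ
    · exact Or.inr ⟨x⁻¹, one_lt_inv'.2 h, fun h' => hxJ (by simpa using inv_mem h'), rfl⟩
  conj := by
    rintro _ y ⟨x, hx, hxJ, rfl⟩
    obtain ⟨y, rfl⟩ := QuotientGroup.mk_surjective y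
    refine ⟨y⁻¹ * x * y, isBiCone_lt.conj y hx, fun h => hxJ ?_, rfl⟩
    have := Subgroup.Normal.conj_mem inferInstance _ h y
    have e : y * (y⁻¹ * x * y) * y⁻¹ = x := by group
    rwa [e] at this

end Ordered

end H60RO
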