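import Pool.Agent.H60.RO.Act

namespace H60RO

open scoped commutatorElement IsMulCommutative
open Polynomial

theorem claim_one_cone {G : Type*} [Group G] {P : Set G} (hP : IsBiCone P) (hAC : AC G) {g : G}
    (hg : g ∈ P) (x : G) : (x⁻¹ * g * x) ^ 4 * g⁻¹ ∈ P := by
  let _ : LinearOrder G := hP.order
  have _ : MulLeftMono G := hP.order_mulLeft
  have _ : MulRightMono G := hP.order_mulRight
  have h1 : (1 : G) < g := by
    change g * 1⁻¹ ∈ P
    simpa using hg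
  exact claim_one hAC g x h1

theorem loc_cyclic {Q : Type*} [CommGroup Q] (htf : TF Q) (q : Q)
    (hr : ∀ d : Q, ∃ k : ℕ, 0 < k ∧ ∃ j : ℤ, d ^ k = q ^ j) (x y : Q) :
    ∃ z : Q, ∃ a b : ℤ, x = z ^ a ∧ y = z ^ b := by
  by_cases hx1 : x = 1
  · exact ⟨y, 0, 1, by simpa using hx1, by simp⟩
  obtain ⟨k, hk, j, hx⟩ := hr x
  obtain ⟨l, hl, i, hy⟩ := hr y
  have hj : j ≠ 0 := by
    rintro rfl
    exact hx1 (htf x k hk (by simpa using hx))
  have hA : ((l : ℤ) * j) ≠ 0 := mul_ne_zero (by exact_mod_cast hl.ne') hj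
  have hrel : x ^ ((k : ℤ) * i) = y ^ ((l : ℤ) * j) := by
    rw [zpow_mul, zpow_mul, zpow_natCast, zpow_natCast, hx, hy, ← zpow_mul, ← zpow_mul, mul_comm]
  set A := (l : ℤ) * j with hAdef
  set B := (k : ℤ) * i with hBdef
  have hg : 0 < Int.gcd A B := Int.gcd_pos_of_ne_zero_left _ hA
  obtain ⟨a, ha⟩ := Int.gcd_dvd_left (a := A) (b := B)
  obtain ⟨b, hb⟩ := Int.gcd_dvd_right (a := A) (b := B)
  have hbez := Int.gcd_eq_gcd_ab A B
  set g : ℤ := (Int.gcd A B : ℤ) with hgdef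
  have hg0 : g ≠ 0 := by rw [hgdef]; exact_mod_cast hg.ne'
  have h1 : Int.gcdA A B * a + Int.gcdB A B * b = 1 := by
    have h2 : g * (Int.gcdA A B * a + Int.gcdB A B * b) = g * 1 := by
      calc g * (Int.gcdA A B * a + Int.gcdB A B * b)
          = (g * a) * Int.gcdA A B + (g * b) * Int.gcdB A B := by ring
        _ = A * Int.gcdA A B + B * Int.gcdB A B := by rw [← ha, ← hb]
        _ = g * 1 := by rw [mul_one]; exact hbez.symm
    exact mul_left_cancel₀ hg0 h2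
  have h3 : x ^ b = y ^ a := by
    have h4 : (x ^ b * (y ^ a)⁻¹) ^ (Int.gcd A B) = 1 := by
      rw [mul_pow, inv_pow, ← zpow_natCast, ← zpow_natCast, ← zpow_mul, ← zpow_mul,
        mul_comm b, mul_comm a]
      change x ^ (g * b) * (y ^ (g * a))⁻¹ = 1
      rw [← hb, ← ha, hrel, mul_inv_cancel]
    have := htf _ _ hg h4
    rwa [mul_inv_eq_one] at this
  refine ⟨x ^ (Int.gcdA A B) * y ^ (Int.gcdB A B), a, b, ?_, ?_⟩
  · rw [mul_zpow, ← zpow_mul, ← zpow_mul, mul_comm (Int.gcdB A B) a, zpow_mul y a, ← h3,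
      ← zpow_mul, ← zpow_add]
    rw [show Int.gcdA A B * a + b * Int.gcdB A B = 1 by rw [← h1]; ring, zpow_one]
  · rw [mul_zpow, ← zpow_mul, ← zpow_mul, mul_comm (Int.gcdA A B) b, zpow_mul x b, h3,
      ← zpow_mul, ← zpow_add]
    rw [show a * Int.gcdA A B + Int.gcdB A B * b = 1 by rw [← h1]; ring, zpow_one]

theorem loc_cyclic_finset {Q : Type*} [CommGroup Q] (htf : TF Q) (q : Q)
    (hr : ∀ d : Q, ∃ k : ℕ, 0 < k ∧ ∃ j : ℤ, d ^ k = q ^ j) (E : Finset Q) :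
    ∃ z : Q, ∀ e ∈ E, ∃ n : ℤ, e = z ^ n := by
  classical
  induction E using Finset.induction_on with
  | empty => exact ⟨1, by simp⟩
  | insert e E he ih =>
    obtain ⟨z, hz⟩ := ih
    obtain ⟨z', a, b, h1, h2⟩ := loc_cyclic htf q hr z e
    refine ⟨z', fun e' he' => ?_⟩
    rcases Finset.mem_insert.1 he' with rfl | he'
    · exact ⟨b, h2⟩
    · obtain ⟨n, hn⟩ := hz e' he'
      exact ⟨a * n, by rw [hn, h1, zpow_mul]⟩

section

variable {D : Type*} [Group D] (V : Subgroup D) [V.Normal] [IsMulCommutative V]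

theorem exists_common (hD : ∀ x y : D, ⁅x, y⁆ ∈ V)
    (htf : ∀ x : D, ∀ n : ℕ, 0 < n → x ^ n ∈ V → x ∈ V) (q : D)
    (hr : ∀ d : D, ∃ k : ℕ, 0 < k ∧ ∃ j : ℤ, ∃ v ∈ V, d ^ k = q ^ j * v) (E : Finset D) :
    ∃ t : D, ∀ e ∈ E, ∃ n : ℤ, ∃ v ∈ V, e = t ^ n * v := by
  classical
  let _ : CommGroup (D ⧸ V) := { (inferInstance : Group (D ⧸ V)) with
    mul_comm := by
      intro a b
      obtain ⟨a, rfl⟩ := QuotientGroup.mk_surjective a
      obtain ⟨b, rfl⟩ := QuotientGroup.mk_surjective b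
      rw [← QuotientGroup.mk_mul, ← QuotientGroup.mk_mul, eq_comm, QuotientGroup.eq]
      have := hD a⁻¹ b⁻¹
      have e : (b * a)⁻¹ * (a * b) = ⁅a⁻¹, b⁻¹⁆ := by rw [commutatorElement_def]; group
      rw [e]; exact this }
  obtain ⟨z, hz⟩ := loc_cyclic_finset (Q := D ⧸ V) (by
    intro a n hn ha
    obtain ⟨a, rfl⟩ := QuotientGroup.mk_surjective a
    rw [← QuotientGroup.mk_pow, QuotientGroup.eq_one_iff] at ha
    rw [QuotientGroup.eq_one_iff]
    exact htf a n hn ha) (q : D ⧸ V) (by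
    intro d
    obtain ⟨d, rfl⟩ := QuotientGroup.mk_surjective d
    obtain ⟨k, hk, j, v, hv, h⟩ := hr d
    refine ⟨k, hk, j, ?_⟩
    rw [← QuotientGroup.mk_pow, ← QuotientGroup.mk_zpow, h, QuotientGroup.mk_mul,
      (QuotientGroup.eq_one_iff v).2 hv, mul_one]) (E.image (QuotientGroup.mk' V))
  obtain ⟨t, rfl⟩ := QuotientGroup.mk_surjective z
  refine ⟨t, fun e he => ?_⟩
  obtain ⟨n, hn⟩ := hz _ (Finset.mem_image_of_mem _ he)
  refine ⟨n, (t ^ n)⁻¹ * e, ?_, by group⟩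
  rw [← QuotientGroup.mk_zpow] at hn
  exact QuotientGroup.eq.1 hn.symm

/-- operators which are zero or positive -/
def Pos0 (s : AddMonoid.End (Additive V)) : Prop := s = 0 ∨ Pos V s

variable {V}

theorem Pos.add0 {s t : AddMonoid.End (Additive V)} (hs : Pos V s) (ht : Pos0 V t) :
    Pos V (s + t) := by
  rcases ht with rfl | ht
  · rwa [add_zero]
  · exact Pos.add hs ht

theorem Pos0.add {s t : AddMonoid.End (Additive V)} (hs : Pos0 V s) (ht : Pos0 V t) :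
    Pos0 V (s + t) := by
  rcases hs with rfl | hs
  · rwa [zero_add]
  · exact Or.inr (hs.add0 ht)

theorem Pos.mul0 {s t : AddMonoid.End (Additive V)} (hs : Pos V s) (ht : Pos0 V t) :
    Pos0 V (s * t) := by
  rcases ht with rfl | ht
  · left; rw [mul_zero]
  · exact Or.inr (hs.mul ht)

/-- the key relation -/
theorem exists_relation (hBO : BO D) (hAC : AC D) (hD : ∀ x y : D, ⁅x, y⁆ ∈ V)
    (htf : ∀ x : D, ∀ n : ℕ, 0 < n → x ^ n ∈ V → x ∈ V) (q : D) (w : Additive V) :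
    ∃ s t : AddMonoid.End (Additive V), Pos0 V s ∧ Pos0 V t ∧ (Pos V s ∨ Pos V t) ∧
      s w + t (w - 4 • act V q w) = 0 := by
  classical
  by_contra hcon
  push Not at hcon
  obtain ⟨P, hP⟩ := hBO
  let C₀ : Set (Additive V) := {y | ∃ s t : AddMonoid.End (Additive V), Pos0 V s ∧ Pos0 V t ∧
    (Pos V s ∨ Pos V t) ∧ s w + t (w - 4 • act V q w) = y}
  have hap : ∀ (s t : AddMonoid.End (Additive V)) (x : Additive V), (s + t) x = s x + t x :=
    fun _ _ _ => rfl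
  obtain ⟨C, hC, h0, hadd, hT, htot⟩ := exists_ext (A := Additive V) {s | Pos V s} Pos.one
    (fun s hs t ht => Pos.add hs ht) (fun s hs t ht => Pos.mul hs ht)
    (fun s hs t ht => Pos.comm hD hs ht) (fun s hs x hx => Pos.inj hP hs hx) C₀
    (by rintro ⟨s, t, hs, ht, hst, h⟩; exact hcon s t hs ht hst h)
    (by
      rintro _ ⟨s, t, hs, ht, hst, rfl⟩ _ ⟨s', t', hs', ht', hst', rfl⟩
      refine ⟨s + s', t + t', hs.add hs', ht.add ht', ?_, ?_⟩
      · rcases hst with h | h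
        · exact Or.inl (h.add0 hs')
        · exact Or.inr (h.add0 ht')
      · rw [hap, hap]; abel)
    (by
      rintro σ hσ _ ⟨s, t, hs, ht, hst, rfl⟩
      refine ⟨σ * s, σ * t, Pos.mul0 hσ hs, Pos.mul0 hσ ht, ?_, ?_⟩
      · rcases hst with h | h
        · exact Or.inl (Pos.mul hσ h)
        · exact Or.inr (Pos.mul hσ h)
      · rw [map_add]; rfl)
  have hw1 : w ∈ C := hC ⟨1, 0, Or.inr Pos.one, Or.inl rfl, Or.inl Pos.one, by
    change w + 0 = w; rw [add_zero]⟩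
  have hw2 : w - 4 • act V q w ∈ C := hC ⟨0, 1, Or.inl rfl, Or.inr Pos.one, Or.inr Pos.one, by
    change 0 + (w - 4 • act V q w) = _; rw [zero_add]⟩
  -- the new two-sided order
  have hcomm : ∀ a b : D ⧸ V, a * b = b * a := by
    intro a b
    obtain ⟨a, rfl⟩ := QuotientGroup.mk_surjective a
    obtain ⟨b, rfl⟩ := QuotientGroup.mk_surjective b
    rw [← QuotientGroup.mk_mul, ← QuotientGroup.mk_mul, eq_comm, QuotientGroup.eq]
    have := hD a⁻¹ b⁻¹
    have e : (b * a)⁻¹ * (a * b) = ⁅a⁻¹, b⁻¹⁆ := by rw [commutatorElement_def]; group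
    rw [e]; exact this
  obtain ⟨P₁, hP₁⟩ := exists_cone_of_tf (D ⧸ V) hcomm (by
    intro a n hn ha
    obtain ⟨a, rfl⟩ := QuotientGroup.mk_surjective a
    rw [← QuotientGroup.mk_pow, QuotientGroup.eq_one_iff] at ha
    rw [QuotientGroup.eq_one_iff]
    exact htf a n hn ha)
  have hR : RelCone V ((QuotientGroup.mk' V) ⁻¹' P₁) := by
    have := (relCone_bot hP₁).comap (QuotientGroup.mk' V)
    rwa [MonoidHom.comap_bot, QuotientGroup.ker_mk'] at this
  have hCV : IsCone {x : V | Additive.ofMul x ∈ C} :=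
    ⟨fun ha hb => hadd _ ha _ hb, h0, fun a ha => htot _ ha⟩
  have hP2 : IsBiCone ((QuotientGroup.mk' V) ⁻¹' P₁ ∪ (Subtype.val '' {x : V | Additive.ofMul x ∈ C})) := by
    refine ⟨hR.extend hCV, ?_⟩
    intro a x ha
    rcases ha with ha | ⟨y, hy, rfl⟩
    · left
      have h1 : (QuotientGroup.mk' V) (x⁻¹ * a * x) = (QuotientGroup.mk' V) a := by
        rw [map_mul, map_mul, map_inv, hcomm, mul_inv_cancel_left]
      rw [Set.mem_preimage, h1]; exact ha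
    · right
      have h1 := hT _ (Pos.of x⁻¹) _ hy
      refine ⟨(act V x⁻¹ (Additive.ofMul y)).toMul, h1, ?_⟩
      rw [act_apply]
      simp
  have hwP : (w.toMul : D) ∈ ((QuotientGroup.mk' V) ⁻¹' P₁ ∪
      (Subtype.val '' {x : V | Additive.ofMul x ∈ C})) := Or.inr ⟨_, hw1, rfl⟩
  have h1 := claim_one_cone hP2 hAC hwP q⁻¹
  have h2 : ((q⁻¹)⁻¹ * (w.toMul : D) * q⁻¹) ^ 4 * (w.toMul : D)⁻¹
      = ((4 • act V q w - w).toMul : D) := by
    rw [toMul_sub, toMul_nsmul, Subgroup.coe_div, Subgroup.coe_pow, act_apply, inv_inv,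
      div_eq_mul_inv]
  rw [h2] at h1
  rcases h1 with h1 | ⟨y, hy, h3⟩
  · exact hR.disj _ h1 (Subtype.property _)
  · have h4 : y = (4 • act V q w - w).toMul := Subtype.ext h3
    subst h4
    have h5 : w - 4 • act V q w + (4 • act V q w - w) ∈ C := hadd _ hw2 _ hy
    have h6 : w - 4 • act V q w + (4 • act V q w - w) = 0 := by abel
    rw [h6] at h5
    exact h0 h5

/-- the element is annihilated by a nonzero polynomial -/
theorem exists_poly (hBO : BO D) (hAC : AC D) (hD : ∀ x y : D, ⁅x, y⁆ ∈ V)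
    (htf : ∀ x : D, ∀ n : ℕ, 0 < n → x ^ n ∈ V → x ∈ V) (q : D) (hq : q ∉ V)
    (hr : ∀ d : D, ∃ k : ℕ, 0 < k ∧ ∃ j : ℤ, ∃ v ∈ V, d ^ k = q ^ j * v) (w : Additive V) :
    ∃ t : D, ∃ K : ℕ, act V q = (act V t) ^ K ∧ ∃ z : ℤ[X], z ≠ 0 ∧ aeval (act V t) z w = 0 := by
  classical
  obtain ⟨s, t, hs, ht, hst, hrel⟩ := exists_relation hBO hAC hD htf q w
  have hgood : ∀ s : AddMonoid.End (Additive V), Pos0 V s →
      ∃ E : Finset D, ∀ t : D, (∀ e ∈ E, ∃ n : ℤ, ∃ v ∈ V, e = t ^ n * v) →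
      ∃ M : ℕ, ∃ p : ℤ[X], ((s = 0 ∧ p = 0) ∨ PolPos p) ∧ (Pos V s → PolPos p) ∧
        (act V t) ^ M * s = aeval (act V t) p := by
    intro s hs
    by_cases hs' : Pos V s
    · obtain ⟨E, hE⟩ := hs'.good
      refine ⟨E, fun t ht => ?_⟩
      obtain ⟨M, p, hp, h⟩ := hE t ht
      exact ⟨M, p, Or.inr hp, fun _ => hp, h⟩
    · rcases hs with rfl | hs
      · exact ⟨∅, fun t _ => ⟨0, 0, Or.inl ⟨rfl, rfl⟩, fun h => absurd h hs', by simp⟩⟩
      · exact absurd hs hs'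
  obtain ⟨E₁, hE₁⟩ := hgood s hs
  obtain ⟨E₂, hE₂⟩ := hgood t ht
  obtain ⟨t₀, ht₀⟩ := exists_common V hD htf q hr (insert q (E₁ ∪ E₂))
  -- choose the sign
  have hsign : ∃ t₀ : D, (∀ e ∈ insert q (E₁ ∪ E₂), ∃ n : ℤ, ∃ v ∈ V, e = t₀ ^ n * v) ∧
      ∃ K : ℕ, 0 < K ∧ ∃ v ∈ V, q = t₀ ^ K * v := by
    obtain ⟨n, v, hv, hn⟩ := ht₀ q (Finset.mem_insert_self _ _)
    rcases lt_trichotomy n 0 with h | h | h
    · refine ⟨t₀⁻¹, ?_, n.natAbs, by omega, v, hv, ?_⟩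
      · intro e he
        obtain ⟨m, u, hu, hm⟩ := ht₀ e he
        exact ⟨-m, u, hu, by rw [hm, inv_zpow', neg_neg]⟩
      · rw [hn]
        congr 1
        rw [← zpow_natCast, inv_zpow']
        congr 1
        omega
    · exfalso
      apply hq
      rw [hn, h, zpow_zero, one_mul]; exact hv
    · refine ⟨t₀, ht₀, n.toNat, by omega, v, hv, ?_⟩
      rw [hn]
      congr 1
      rw [← zpow_natCast, Int.toNat_of_nonneg h.le]
  obtain ⟨t₀, ht₀, K, hK, v, hv, hqK⟩ := hsign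
  obtain ⟨M₁, p₁, hp₁, hp₁', h1⟩ := hE₁ t₀ (fun e he => ht₀ e
    (Finset.mem_insert_of_mem (Finset.mem_union_left _ he)))
  obtain ⟨M₂, p₂, hp₂, hp₂', h2⟩ := hE₂ t₀ (fun e he => ht₀ e
    (Finset.mem_insert_of_mem (Finset.mem_union_right _ he)))
  have hactq : act V q = (act V t₀) ^ K := by
    rw [hqK, map_mul, map_pow, act_one_of_mem V hv, mul_one]
  refine ⟨t₀, K, hactq, X ^ M₂ * p₁ + X ^ M₁ * p₂ * (1 - 4 * X ^ K), ?_, ?_⟩
  · intro hz
    have hρ : ∃ ρ : ℝ, 0 < ρ ∧ ρ ^ K = 1 / 5 := by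
      refine ⟨((1 : ℝ) / 5) ^ ((K : ℝ)⁻¹), by positivity, ?_⟩
      exact Real.rpow_inv_natCast_pow (by norm_num) hK.ne'
    obtain ⟨ρ, hρ0, hρK⟩ := hρ
    have h3 := congrArg (aeval ρ) hz
    rw [map_zero, map_add, map_mul, map_mul, map_mul, map_sub, map_mul, map_pow, map_pow, map_pow,
      map_one, aeval_X, hρK] at h3
    have h4 : (aeval ρ) (4 : ℤ[X]) = 4 := map_ofNat _ 4
    rw [h4] at h3
    have hn1 : 0 ≤ aeval ρ p₁ := by
      rcases hp₁ with ⟨-, rfl⟩ | h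
      · simp
      · exact (h ρ hρ0).le
    have hn2 : 0 ≤ aeval ρ p₂ := by
      rcases hp₂ with ⟨-, rfl⟩ | h
      · simp
      · exact (h ρ hρ0).le
    have hx1 : 0 < ρ ^ M₂ := by positivity
    have hx2 : 0 < ρ ^ M₁ := by positivity
    have hy1 : 0 ≤ ρ ^ M₂ * aeval ρ p₁ := mul_nonneg hx1.le hn1
    have hy2 : 0 ≤ ρ ^ M₁ * aeval ρ p₂ := mul_nonneg hx2.le hn2
    rcases hst with h | h
    · have := mul_pos hx1 (hp₁' h ρ hρ0)
      linarith
    · have := mul_pos hx2 (hp₂' h ρ hρ0)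
      linarith
  · have h3 : aeval (act V t₀) (X ^ M₂ * p₁ + X ^ M₁ * p₂ * (1 - 4 * X ^ K))
        = (act V t₀) ^ (M₁ + M₂) * (s + t * (1 - 4 * act V q)) := by
      rw [map_add, map_mul, map_mul, map_mul, map_sub, map_mul, map_pow, map_pow, map_pow, map_one,
        aeval_X, ← h1, ← h2, ← hactq]
      have h4 : (aeval (act V t₀)) (4 : ℤ[X]) = 4 := map_ofNat _ 4
      rw [h4, mul_add, pow_add]
      congr 1
      · rw [← mul_assoc, ← pow_add, ← pow_add, add_comm]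
    rw [h3]
    change (act V t₀ ^ (M₁ + M₂)) (s w + t (w - (4 * act V q) w)) = 0
    have h5 : ((4 * act V q : AddMonoid.End (Additive V))) w = 4 • act V q w := by
      have : (4 : AddMonoid.End (Additive V)) = ((4 : ℕ) : AddMonoid.End (Additive V)) := by norm_cast
      rw [this, ← nsmul_eq_mul]; rfl
    rw [h5, hrel, map_zero]

end

end H60RO
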