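import Pool.Agent.H60.RO.Soluble

namespace H60RO

open scoped commutatorElement

universe u

section dS

variable {G : Type*} [Group G]

/-- derived series of a subgroup, inside the ambient group -/
def dS (H : Subgroup G) : ℕ → Subgroup G
  | 0 => H
  | n + 1 => ⁅dS H n, dS H n⁆

theorem map_dS {G' : Type*} [Group G'] (f : G →* G') (H : Subgroup G) (n : ℕ) :
    (dS H n).map f = dS (H.map f) n := by
  induction n with
  | zero => rfl
  | succ n ih => simp only [dS, Subgroup.map_commutator, ih]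

theorem dS_top (n : ℕ) : dS (⊤ : Subgroup G) n = derivedSeries G n := by
  induction n with
  | zero => rfl
  | succ n ih => simp only [dS, derivedSeries_succ, ih]

theorem dS_subtype (H : Subgroup G) (n : ℕ) :
    (derivedSeries H n).map H.subtype = dS H n := by
  rw [← dS_top, map_dS, ← MonoidHom.range_eq_map, Subgroup.range_subtype]

theorem dS_normal (H : Subgroup G) [H.Normal] (n : ℕ) : (dS H n).Normal := by
  induction n with
  | zero => assumption
  | succ n ih => exact Subgroup.commutator_normal _ _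

theorem dS_mono {H K : Subgroup G} (h : H ≤ K) (n : ℕ) : dS H n ≤ dS K n := by
  induction n with
  | zero => exact h
  | succ n ih => exact Subgroup.commutator_mono ih ih

theorem dS_eq_bot_iff (H : Subgroup G) (n : ℕ) : dS H n = ⊥ ↔ derivedSeries H n = ⊥ := by
  rw [← dS_subtype]
  rw [Subgroup.map_eq_bot_iff, Subgroup.ker_subtype, le_bot_iff]

end dS

/-- a normal subgroup with periodic quotient in a torsion-free nilpotent group has the same
derived length -/
theorem dS_step : ∀ (d : ℕ) (T : Type u) [Group T] [Group.IsNilpotent T], TF T →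
    ∀ S : Subgroup T, S.Normal → (∀ t : T, ∃ n : ℕ, 0 < n ∧ t ^ n ∈ S) → dS S d = ⊥ →
      dS (⊤ : Subgroup T) d = ⊥ := by
  intro d
  induction d with
  | zero =>
    intro T _ _ hTF S _ htor h
    change S = ⊥ at h
    change (⊤ : Subgroup T) = ⊥
    rw [eq_bot_iff]
    intro t _
    obtain ⟨n, hn, ht⟩ := htor t
    rw [h, Subgroup.mem_bot] at ht
    exact Subgroup.mem_bot.2 (hTF t n hn ht)
  | succ d ih =>
    intro T _ _ hTF S hS htor h
    have _ : (dS S d).Normal := dS_normal S d
    have hA : ∀ x ∈ dS S d, ∀ y ∈ dS S d, x * y = y * x := by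
      intro x hx y hy
      have h1 : ⁅x, y⁆ ∈ dS S (d + 1) := Subgroup.commutator_mem_commutator hx hy
      rw [h, Subgroup.mem_bot, commutatorElement_eq_one_iff_mul_comm] at h1
      exact h1
    let X : Subgroup T := Subgroup.centralizer ((dS S d : Subgroup T) : Set T)
    have _ : X.Normal := Subgroup.normal_centralizer
    let V : Subgroup T := Subgroup.centralizer ((X : Subgroup T) : Set T)
    have _ : V.Normal := Subgroup.normal_centralizer
    have hYX : dS S d ≤ X := by
      intro y hy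
      rw [Subgroup.mem_centralizer_iff]
      intro x hx
      exact hA x hx y hy
    have hVX : V ≤ X := Subgroup.centralizer_le hYX
    have hVc : ∀ x ∈ V, ∀ y ∈ V, x * y = y * x := by
      intro x hx y hy
      exact (Subgroup.mem_centralizer_iff.1 hx y (hVX hy)).symm
    have hYV : dS S d ≤ V := by
      intro y hy
      rw [Subgroup.mem_centralizer_iff]
      intro x hx
      exact (Subgroup.mem_centralizer_iff.1 hx y hy).symm
    obtain ⟨P, hP⟩ := hTF.bo
    have hTF' : TF (T ⧸ V) := by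
      intro q n hn hq
      obtain ⟨t, rfl⟩ := QuotientGroup.mk_surjective q
      rw [← QuotientGroup.mk_pow, QuotientGroup.eq_one_iff, Subgroup.mem_centralizer_iff] at hq
      rw [QuotientGroup.eq_one_iff, Subgroup.mem_centralizer_iff]
      intro x hx
      have h1 : Commute (t ^ n) x := (hq x hx).symm
      exact (hP.commute_of_pow hn h1).symm.eq
    have h2 := ih (T ⧸ V) hTF' (S.map (QuotientGroup.mk' V))
      (Subgroup.Normal.map hS _ (QuotientGroup.mk'_surjective V)) (by
        intro q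
        obtain ⟨t, rfl⟩ := QuotientGroup.mk_surjective q
        obtain ⟨n, hn, ht⟩ := htor t
        exact ⟨n, hn, ⟨t ^ n, ht, rfl⟩⟩) (by
        rw [← map_dS, Subgroup.map_eq_bot_iff, QuotientGroup.ker_mk']
        exact hYV)
    have h3 : dS (⊤ : Subgroup T) d ≤ V := by
      rw [← Subgroup.map_top_of_surjective _ (QuotientGroup.mk'_surjective V), ← map_dS,
        Subgroup.map_eq_bot_iff, QuotientGroup.ker_mk'] at h2
      exact h2
    change ⁅dS (⊤ : Subgroup T) d, dS (⊤ : Subgroup T) d⁆ = ⊥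
    rw [eq_bot_iff, Subgroup.commutator_le]
    intro x hx y hy
    rw [Subgroup.mem_bot, commutatorElement_eq_one_iff_mul_comm]
    exact hVc x (h3 hx) y (h3 hy)

theorem dS_step' {N : Type u} [Group N] [Group.IsNilpotent N] (hTF : TF N) {S T : Subgroup N}
    (hST : S ≤ T) (hn : ∀ t ∈ T, ∀ s ∈ S, t * s * t⁻¹ ∈ S)
    (htor : ∀ t ∈ T, ∃ n : ℕ, 0 < n ∧ t ^ n ∈ S) (d : ℕ) (h : dS S d = ⊥) : dS T d = ⊥ := by
  have h1 := dS_step d T (fun g n hn hg => Subtype.ext (hTF g n hn (by
    rw [← Subgroup.coe_pow, hg]; rfl))) (S.subgroupOf T) ⟨fun s hs t => by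
      rw [Subgroup.mem_subgroupOf] at hs ⊢
      exact hn t t.2 s hs⟩ (fun t => by
      obtain ⟨n, hn, ht⟩ := htor t t.2
      exact ⟨n, hn, Subgroup.mem_subgroupOf.2 ht⟩) (by
      have h2 : (dS (S.subgroupOf T) d).map T.subtype = ⊥ := by
        rw [map_dS, Subgroup.map_subgroupOf_eq_of_le hST, h]
      rwa [Subgroup.map_eq_bot_iff, Subgroup.ker_subtype, le_bot_iff] at h2)
  have h2 : (dS (⊤ : Subgroup T) d).map T.subtype = ⊥ := by rw [h1, Subgroup.map_bot]
  rwa [map_dS, ← MonoidHom.range_eq_map, Subgroup.range_subtype] at h2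

theorem comm_pow_right_of_central {Q : Type*} [Group Q] {a b : Q}
    (h : ⁅a, b⁆ ∈ Subgroup.center Q) (k : ℕ) : ⁅a, b ^ k⁆ = ⁅a, b⁆ ^ k := by
  have h1 : ⁅b, a⁆ ∈ Subgroup.center Q := by rw [← commutatorElement_inv]; exact inv_mem h
  have h2 := comm_pow_of_central h1 k
  rw [← commutatorElement_inv, h2, ← inv_pow, commutatorElement_inv]

/-- powers of elements of the lower central series fall in the one of the subgroup -/
theorem lcs_torsion {N : Type*} [Group N] (H : Subgroup N)
    (h0 : ∀ x : N, ∃ n : ℕ, 0 < n ∧ x ^ n ∈ H ⊔ (⊤ : Subgroup N).lowerCentralSeries 1) (i : ℕ) :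
    ∀ x ∈ (⊤ : Subgroup N).lowerCentralSeries i, ∃ n : ℕ, 0 < n ∧
      x ^ n ∈ H.lowerCentralSeries i ⊔ (⊤ : Subgroup N).lowerCentralSeries (i + 1) := by
  induction i with
  | zero => intro x _; exact h0 x
  | succ i ih =>
    set Γ : ℕ → Subgroup N := fun j => (⊤ : Subgroup N).lowerCentralSeries j with hΓ
    have hΓn : ∀ j, (Γ j).Normal := fun j => by
      simp only [hΓ]; infer_instance
    have _ := hΓn (i + 2)
    set f := QuotientGroup.mk' (Γ (i + 2)) with hf
    have hker : ∀ x ∈ Γ (i + 2), f x = 1 := fun x hx => (QuotientGroup.eq_one_iff x).2 hx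
    have hsucc : ∀ j, Γ (j + 1) = ⁅Γ j, (⊤ : Subgroup N)⁆ := fun j => rfl
    -- the images of elements of `Γ (i + 1)` are central
    have hcen : ∀ x ∈ Γ (i + 1), f x ∈ Subgroup.center (N ⧸ Γ (i + 2)) := by
      intro x hx
      rw [Subgroup.mem_center_iff]
      intro q
      obtain ⟨q, rfl⟩ := QuotientGroup.mk_surjective q
      have h1 : ⁅x, q⁆ ∈ Γ (i + 2) := by
        rw [hsucc (i + 1)]
        exact Subgroup.commutator_mem_commutator hx (Subgroup.mem_top q)
      have h2 := hker _ h1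
      rw [map_commutatorElement, commutatorElement_eq_one_iff_mul_comm] at h2
      exact h2.symm
    -- three subgroups
    have h3s : ∀ x ∈ Γ i, ∀ y ∈ Γ 1, ⁅f x, f y⁆ = 1 := by
      have hA : ⁅⁅(⊤ : Subgroup (N ⧸ Γ (i + 2))), (Γ i).map f⁆, (⊤ : Subgroup (N ⧸ Γ (i + 2)))⁆ = ⊥ := by
        rw [Subgroup.commutator_comm ⊤ ((Γ i).map f),
          ← Subgroup.map_top_of_surjective f (QuotientGroup.mk'_surjective _),
          ← Subgroup.map_commutator, ← Subgroup.map_commutator, ← hsucc, ← hsucc,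
          Subgroup.map_eq_bot_iff, QuotientGroup.ker_mk']
      have hB : ⁅⁅(Γ i).map f, (⊤ : Subgroup (N ⧸ Γ (i + 2)))⁆, (⊤ : Subgroup (N ⧸ Γ (i + 2)))⁆ = ⊥ := by
        rw [Subgroup.commutator_comm ((Γ i).map f) ⊤]; exact hA
      have hC := Subgroup.commutator_commutator_eq_bot_of_rotate hA hB
      intro x hx y hy
      have hy' : f y ∈ ⁅(⊤ : Subgroup (N ⧸ Γ (i + 2))), (⊤ : Subgroup (N ⧸ Γ (i + 2)))⁆ := by
        rw [← Subgroup.map_top_of_surjective f (QuotientGroup.mk'_surjective _),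
          ← Subgroup.map_commutator]
        exact ⟨y, hy, rfl⟩
      have h4 := Subgroup.commutator_mem_commutator hy' (Subgroup.mem_map_of_mem f hx)
      rw [hC, Subgroup.mem_bot] at h4
      rw [← commutatorElement_inv, h4, inv_one]
    -- reformulation
    have hre : ∀ x : N, f x ∈ (H.lowerCentralSeries (i + 1)).map f →
        x ∈ H.lowerCentralSeries (i + 1) ⊔ Γ (i + 2) := by
      rintro x ⟨h, hh, hx⟩
      have h5 : h⁻¹ * x ∈ Γ (i + 2) := QuotientGroup.eq.1 hx
      have h6 := mul_mem (Subgroup.mem_sup_left hh (T := Γ (i + 2)))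
        (Subgroup.mem_sup_right h5 (S := H.lowerCentralSeries (i + 1)))
      rwa [mul_inv_cancel_left] at h6
    let M : Subgroup N :=
      { carrier := {x | x ∈ Γ (i + 1) ∧ ∃ n : ℕ, 0 < n ∧
          (f x) ^ n ∈ (H.lowerCentralSeries (i + 1)).map f}
        one_mem' := ⟨one_mem _, 1, one_pos, by rw [map_one, one_pow]; exact one_mem _⟩
        mul_mem' := by
          rintro x y ⟨hx, n, hn, hxn⟩ ⟨hy, m, hm, hym⟩
          refine ⟨mul_mem hx hy, n * m, Nat.mul_pos hn hm, ?_⟩
          have hc : Commute (f x) (f y) := (Subgroup.mem_center_iff.1 (hcen x hx) (f y)).symm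
          rw [map_mul, hc.mul_pow, pow_mul, mul_comm n m, pow_mul]
          exact mul_mem (pow_mem hxn _) (pow_mem hym _)
        inv_mem' := by
          rintro x ⟨hx, n, hn, hxn⟩
          exact ⟨inv_mem hx, n, hn, by rw [map_inv, inv_pow]; exact inv_mem hxn⟩ }
    have hM : Γ (i + 1) ≤ M := by
      rw [hsucc, Subgroup.commutator_le]
      intro a ha y _
      have haγ : ⁅a, y⁆ ∈ Γ (i + 1) := by
        rw [hsucc]; exact Subgroup.commutator_mem_commutator ha (Subgroup.mem_top y)
      refine ⟨haγ, ?_⟩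
      obtain ⟨n, hn, han⟩ := ih a ha
      obtain ⟨m, hm, hym⟩ := h0 y
      have _ := hΓn (i + 1)
      have _ := hΓn 1
      obtain ⟨h, hh, a', ha', hnn⟩ := Subgroup.mem_sup_of_normal_right.1 han
      obtain ⟨k, hk, y', hy', hmm⟩ := Subgroup.mem_sup_of_normal_right.1 hym
      refine ⟨n * m, Nat.mul_pos hn hm, ?_⟩
      have hc1 : ⁅f a, f y⁆ ∈ Subgroup.center (N ⧸ Γ (i + 2)) := by
        rw [← map_commutatorElement]; exact hcen _ haγ
      have e1 : (f ⁅a, y⁆) ^ (n * m) = ⁅f (a ^ n), f (y ^ m)⁆ := by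
        have e2 : ⁅f (a ^ n), f y⁆ = ⁅f a, f y⁆ ^ n := by
          rw [map_pow]; exact comm_pow_of_central hc1 n
        have hc2 : ⁅f (a ^ n), f y⁆ ∈ Subgroup.center (N ⧸ Γ (i + 2)) := by
          rw [e2]; exact pow_mem hc1 n
        rw [map_pow f y m, comm_pow_right_of_central hc2, e2, map_commutatorElement, pow_mul]
      have hhΓ : h ∈ Γ i := Subgroup.lowerCentralSeries_mono i le_top hh
      have e3 : ⁅f (a ^ n), f (y ^ m)⁆ = f ⁅h, k⁆ := by
        rw [← hnn, ← hmm, map_mul, map_mul, map_commutatorElement]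
        have hca : f a' ∈ Subgroup.center (N ⧸ Γ (i + 2)) := hcen a' ha'
        have e4 : ⁅f h * f a', f k * f y'⁆ = ⁅f h, f k * f y'⁆ := by
          rw [comm_mul_left]
          have e5 : ⁅f a', f k * f y'⁆ = 1 := by
            rw [commutatorElement_eq_one_iff_mul_comm]
            exact (Subgroup.mem_center_iff.1 hca _).symm
          rw [e5, mul_one, mul_inv_cancel, one_mul]
        rw [e4, comm_mul_right, h3s h hhΓ y' hy', mul_one, mul_inv_cancel, mul_one]
      rw [e1, e3]
      refine ⟨⁅h, k⁆, ?_, rfl⟩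
      rw [Subgroup.lowerCentralSeries_succ]
      exact Subgroup.commutator_mem_commutator hh hk
    intro x hx
    obtain ⟨-, n, hn, h⟩ := hM hx
    refine ⟨n, hn, hre _ ?_⟩
    rw [map_pow]; exact h

/-- **the relatively convex closure has the same derived length** in the nilpotent case -/
theorem dS_rc {N : Type u} [Group N] [hN : Group.IsNilpotent N] (hTF : TF N) (H : Subgroup N)
    (hrc : rc H = ⊤) (d : ℕ) (hd : dS H d = ⊥) : dS (⊤ : Subgroup N) d = ⊥ := by
  set Γ : ℕ → Subgroup N := fun j => (⊤ : Subgroup N).lowerCentralSeries j with hΓ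
  have hΓn : ∀ j, (Γ j).Normal := fun j => by
    simp only [hΓ]; infer_instance
  have _ := hΓn 1
  -- first step
  have h0 : ∀ x : N, ∃ n : ℕ, 0 < n ∧ x ^ n ∈ H ⊔ Γ 1 := by
    have hcomm : ∀ x y : N, ⁅x, y⁆ ∈ Γ 1 := fun x y =>
      Subgroup.commutator_mem_commutator (Subgroup.mem_top x) (Subgroup.mem_top y)
    have hpow : ∀ (x y : N) (n : ℕ), ∃ c ∈ Γ 1, (x * y) ^ n = x ^ n * y ^ n * c := by
      intro x y n
      refine ⟨(x ^ n * y ^ n)⁻¹ * (x * y) ^ n, ?_, by group⟩
      rw [← QuotientGroup.eq]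
      have hc : Commute (x : N ⧸ Γ 1) (y : N ⧸ Γ 1) := by
        have := (QuotientGroup.eq_one_iff _).2 (hcomm x y)
        rw [← commutatorElement_eq_one_iff_commute]
        exact this
      rw [QuotientGroup.mk_mul, QuotientGroup.mk_pow, QuotientGroup.mk_pow, QuotientGroup.mk_pow,
        QuotientGroup.mk_mul, hc.mul_pow]
    let M : Subgroup N :=
      { carrier := {x | ∃ n : ℕ, 0 < n ∧ x ^ n ∈ H ⊔ Γ 1}
        one_mem' := ⟨1, one_pos, by rw [one_pow]; exact one_mem _⟩
        mul_mem' := by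
          rintro x y ⟨n, hn, hx⟩ ⟨m, hm, hy⟩
          refine ⟨n * m, Nat.mul_pos hn hm, ?_⟩
          obtain ⟨c, hc, h⟩ := hpow x y (n * m)
          rw [h]
          refine mul_mem (mul_mem ?_ ?_) (Subgroup.mem_sup_right hc)
          · rw [pow_mul]; exact pow_mem hx m
          · rw [mul_comm n m, pow_mul]; exact pow_mem hy n
        inv_mem' := by
          rintro x ⟨n, hn, hx⟩
          exact ⟨n, hn, by rw [inv_pow]; exact inv_mem hx⟩ }
    have hΓM : Γ 1 ≤ M := fun x hx => ⟨1, one_pos, by rw [pow_one]; exact Subgroup.mem_sup_right hx⟩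
    have hMn : M.Normal := by
      constructor
      intro x hx g
      have e : g * x * g⁻¹ = ⁅g, x⁆ * x := by rw [commutatorElement_def]; group
      rw [e]
      exact mul_mem (hΓM (hcomm g x)) hx
    obtain ⟨P, hP⟩ := exists_cone_of_tf (N ⧸ M) (by
      intro a b
      obtain ⟨a, rfl⟩ := QuotientGroup.mk_surjective a
      obtain ⟨b, rfl⟩ := QuotientGroup.mk_surjective b
      rw [← QuotientGroup.mk_mul, ← QuotientGroup.mk_mul, eq_comm, QuotientGroup.eq]
      have e : (b * a)⁻¹ * (a * b) = ⁅a⁻¹, b⁻¹⁆ := by rw [commutatorElement_def]; group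
      rw [e]; exact hΓM (hcomm _ _)) (by
      intro a n hn ha
      obtain ⟨a, rfl⟩ := QuotientGroup.mk_surjective a
      rw [← QuotientGroup.mk_pow, QuotientGroup.eq_one_iff] at ha
      rw [QuotientGroup.eq_one_iff]
      obtain ⟨m, hm, h⟩ := ha
      exact ⟨n * m, Nat.mul_pos hn hm, by rw [pow_mul]; exact h⟩)
    have hMc : RelConvex M := relConvex_of_quotient hP
    have hHM : H ≤ M := fun x hx => ⟨1, one_pos, by rw [pow_one]; exact Subgroup.mem_sup_left hx⟩
    have h1 := rc_le hMc hHM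
    rw [hrc] at h1
    exact fun x => h1 (Subgroup.mem_top x)
  have htor := lcs_torsion H h0
  obtain ⟨c, hc⟩ := Subgroup.nilpotent_iff_lowerCentralSeries.1 hN
  have hchain : ∀ j i : ℕ, i + j = c → dS (H ⊔ Γ i) d = ⊥ := by
    intro j
    induction j with
    | zero =>
      intro i hi
      rw [add_zero] at hi
      have : Γ i = ⊥ := by rw [hi]; exact hc
      rw [this, sup_bot_eq]; exact hd
    | succ j ih =>
      intro i hi
      have ih' := ih (i + 1) (by omega)
      have _ := hΓn i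
      have _ := hΓn (i + 1)
      have hnorm : ∀ t ∈ H ⊔ Γ i, ∀ s ∈ H ⊔ Γ (i + 1), t * s * t⁻¹ ∈ H ⊔ Γ (i + 1) := by
        intro t ht s hs
        obtain ⟨h, hh, a, ha, rfl⟩ := Subgroup.mem_sup_of_normal_right.1 ht
        have h1 : a * s * a⁻¹ ∈ H ⊔ Γ (i + 1) := by
          have e : a * s * a⁻¹ = ⁅a, s⁆ * s := by rw [commutatorElement_def]; group
          rw [e]
          refine mul_mem (Subgroup.mem_sup_right ?_) hs
          exact Subgroup.commutator_mem_commutator ha (Subgroup.mem_top s)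
        have hh' : h ∈ H ⊔ Γ (i + 1) := Subgroup.mem_sup_left hh
        have e : h * a * s * (h * a)⁻¹ = h * (a * s * a⁻¹) * h⁻¹ := by group
        rw [e]
        exact mul_mem (mul_mem hh' h1) (inv_mem hh')
      refine dS_step' hTF (S := H ⊔ Γ (i + 1)) ?_ hnorm ?_ d ih'
      · exact sup_le_sup_left (Subgroup.lowerCentralSeries_antitone _ (Nat.le_succ i)) H
      · intro t ht
        have ht' := ht
        obtain ⟨h, hh, a, ha, rfl⟩ := Subgroup.mem_sup_of_normal_right.1 ht
        obtain ⟨n, hn, han⟩ := htor i a ha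
        refine ⟨n, hn, ?_⟩
        have ha' : a ∈ H ⊔ Γ i := Subgroup.mem_sup_right ha
        have key : ∀ n : ℕ, ∃ s ∈ H ⊔ Γ (i + 1), (h * a) ^ n = s * a ^ n := by
          intro n
          induction n with
          | zero => exact ⟨1, one_mem _, by simp⟩
          | succ n ihn =>
            obtain ⟨s, hs, hsn⟩ := ihn
            refine ⟨s * (a ^ n * h * (a ^ n)⁻¹), mul_mem hs
              (hnorm _ (pow_mem ha' n) _ (Subgroup.mem_sup_left hh)), ?_⟩
            rw [pow_succ, hsn, pow_succ]; group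
        obtain ⟨s, hs, hsn⟩ := key n
        rw [hsn]
        have hle : H.lowerCentralSeries i ⊔ Γ (i + 1) ≤ H ⊔ Γ (i + 1) :=
          sup_le_sup_right (H.lowerCentralSeries_le_self i) _
        exact mul_mem hs (hle han)
  have := hchain c 0 (zero_add c)
  have e : H ⊔ Γ 0 = ⊤ := by
    simp only [hΓ, Subgroup.lowerCentralSeries_zero, sup_top_eq]
  rwa [e] at this

section Ordered

variable {G : Type u} [Group G] [LinearOrder G] [MulLeftMono G] [MulRightMono G]

/-- the terms of the derived series lie in the convex closures -/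
theorem dS_le_hull (hc : CentralOrder G) (hAC : AC G) (H : Subgroup G) (hrc : rc H = ⊤) (d : ℕ)
    (hd : dS H d = ⊥) (c : ℕ) : dS (⊤ : Subgroup G) d ≤ hull (H.lowerCentralSeries c) := by
  have hBO : BO G := ⟨_, isBiCone_lt⟩
  set J : Subgroup G := hull (H.lowerCentralSeries c) with hJ
  have hJc : Cvx J := cvx_hull _
  have hJn : J.Normal := hJc.normal hc
  have hBOc : BO (G ⧸ J) := ⟨_, hJc.quotient_cone⟩
  have hACc : AC (G ⧸ J) := hAC.quotient (hBO.subgroup _).cone
  have hnil : Group.IsNilpotent (G ⧸ J) := by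
    rw [Subgroup.nilpotent_iff_lowerCentralSeries]
    refine ⟨c, nilp_of_rc c (G ⧸ J) hBOc hACc (H.map (QuotientGroup.mk' J)) ?_
      (rc_map_mk hrc _)⟩
    rw [← Subgroup.map_lowerCentralSeries, Subgroup.map_eq_bot_iff, QuotientGroup.ker_mk']
    exact le_hull _
  have h1 := dS_rc hBOc.tf (H.map (QuotientGroup.mk' J)) (rc_map_mk hrc _) d (by
    rw [← map_dS, hd, Subgroup.map_bot])
  rw [← Subgroup.map_top_of_surjective _ (QuotientGroup.mk'_surjective J), ← map_dS,
    Subgroup.map_eq_bot_iff, QuotientGroup.ker_mk'] at h1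
  exact h1

end Ordered

/-- **Theorem**: in a bi-orderable group all of whose right orders are Conrad orders, every finitely
generated soluble subgroup is nilpotent -/
theorem soluble_subgroup {G : Type u} [Group G] (hBO : BO G) (hAC : AC G) (S : Finset G) (d : ℕ)
    (hd : dS (Subgroup.closure (S : Set G)) d = ⊥) :
    ∃ n, (Subgroup.closure (S : Set G)).lowerCentralSeries n = ⊥ := by
  classical
  set H := Subgroup.closure (S : Set G) with hH
  let G₁ : Subgroup G := rc H
  have hSG : ∀ s ∈ S, s ∈ G₁ := fun s hs => le_rc H (by rw [hH]; exact Subgroup.subset_closure hs)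
  let S₁ : Finset G₁ := S.attach.image (fun s => ⟨s.1, hSG s.1 s.2⟩)
  have hS₁ : Subgroup.closure (S₁ : Set G₁) = H.subgroupOf G₁ := by
    apply Subgroup.map_injective (Subgroup.subtype_injective G₁)
    rw [MonoidHom.map_closure, Subgroup.map_subgroupOf_eq_of_le (le_rc H), hH]
    congr 1
    ext x
    simp only [S₁, Finset.coe_image, Set.mem_image, Finset.mem_coe, Finset.mem_attach, true_and,
      Subtype.exists, Subgroup.coe_subtype]
    constructor
    · rintro ⟨a, ha, ⟨b, hb, h⟩, rfl⟩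
      simp only [Subtype.mk.injEq] at h
      subst h
      exact hb
    · intro hx
      exact ⟨x, hSG x hx, ⟨x, hx, rfl⟩, rfl⟩
  have hBO₁ : BO G₁ := hBO.subgroup G₁
  have hAC₁ : AC G₁ := hAC.of_relConvex (relConvex_rc H)
  have hrc₁ : rc (Subgroup.closure (S₁ : Set G₁)) = ⊤ := by rw [hS₁]; exact rc_subgroupOf H
  have hd₁ : dS (Subgroup.closure (S₁ : Set G₁)) d = ⊥ := by
    have h1 : (dS (H.subgroupOf G₁) d).map G₁.subtype = ⊥ := by
      rw [map_dS, Subgroup.map_subgroupOf_eq_of_le (le_rc H), hd]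
    rw [Subgroup.map_eq_bot_iff, Subgroup.ker_subtype, le_bot_iff] at h1
    rw [hS₁]; exact h1
  obtain ⟨P, hP⟩ := hBO₁
  let _ : LinearOrder G₁ := hP.order
  have _ : MulLeftMono G₁ := hP.order_mulLeft
  have _ : MulRightMono G₁ := hP.order_mulRight
  have hcen : CentralOrder G₁ := fun g x hg n => central hAC₁ g x hg n
  obtain ⟨m, hm⟩ := key (G := G₁) hcen hAC₁ S₁ hrc₁ (by
    intro N _ hR hA hN
    refine thmC d (G₁ ⧸ N) hR hA ?_
    rw [← dS_top, ← Subgroup.map_top_of_surjective _ (QuotientGroup.mk'_surjective N), ← map_dS,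
      Subgroup.map_eq_bot_iff, QuotientGroup.ker_mk']
    intro x hx
    by_contra hxN
    obtain ⟨c, hc⟩ := hN x hxN
    exact hc (dS_le_hull hcen hAC₁ _ hrc₁ d hd₁ c hx))
  refine ⟨m, ?_⟩
  rw [hS₁] at hm
  have h2 : ((H.subgroupOf G₁).lowerCentralSeries m).map G₁.subtype = ⊥ := by
    rw [hm, Subgroup.map_bot]
  rwa [Subgroup.map_lowerCentralSeries, Subgroup.map_subgroupOf_eq_of_le (le_rc H)] at h2

end H60RO
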