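import Mathlib

namespace H60RO

open scoped commutatorElement

variable {G : Type*} [Group G]

theorem comm_mul_left (a b c : G) : ⁅a * b, c⁆ = a * ⁅b, c⁆ * a⁻¹ * ⁅a, c⁆ := by
  simp only [commutatorElement_def]; group

theorem comm_mul_right (a b c : G) : ⁅a, b * c⁆ = ⁅a, b⁆ * (b * ⁅a, c⁆ * b⁻¹) := by
  simp only [commutatorElement_def]; group

theorem comm_inv_left (a c : G) : ⁅a⁻¹, c⁆ = a⁻¹ * ⁅a, c⁆⁻¹ * a := by
  simp only [commutatorElement_def]; group

theorem comm_inv_right (a b : G) : ⁅a, b⁻¹⁆ = b⁻¹ * ⁅a, b⁆⁻¹ * b := by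
  simp only [commutatorElement_def]; group

/-- the terms of the lower central series of a finitely generated group are finitely generated
as normal subgroups -/
theorem exists_normal_gens (S : Finset G) (H : Subgroup G)
    (hS : Subgroup.closure (S : Set G) = H) (i : ℕ) :
    ∃ X : Finset G, (∀ x ∈ X, x ∈ H.lowerCentralSeries i) ∧
      ∀ M : Subgroup G, (∀ h ∈ H, ∀ m ∈ M, h * m * h⁻¹ ∈ M) → (∀ x ∈ X, x ∈ M) →
        H.lowerCentralSeries i ≤ M := by
  classical
  induction i with
  | zero =>
    refine ⟨S, fun x hx => ?_, fun M _ hX => ?_⟩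
    · rw [Subgroup.lowerCentralSeries_zero, ← hS]
      exact Subgroup.subset_closure hx
    · rw [Subgroup.lowerCentralSeries_zero, ← hS, Subgroup.closure_le]
      exact hX
  | succ i ih =>
    obtain ⟨X, hX1, hX2⟩ := ih
    refine ⟨(X ×ˢ S).image (fun p => ⁅p.1, p.2⁆), ?_, ?_⟩
    · intro x hx
      obtain ⟨⟨a, s⟩, hp, rfl⟩ := Finset.mem_image.1 hx
      rw [Finset.mem_product] at hp
      rw [Subgroup.lowerCentralSeries_succ]
      refine Subgroup.commutator_mem_commutator (hX1 _ hp.1) ?_
      rw [← hS]; exact Subgroup.subset_closure hp.2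
    · intro M hM hXM
      have hconj' : ∀ h ∈ H, ∀ m ∈ M, h⁻¹ * m * h ∈ M := by
        intro h hh m hm
        have := hM h⁻¹ (inv_mem hh) m hm
        rwa [inv_inv] at this
      let N : Subgroup G :=
        { carrier := {a | a ∈ H ∧ ∀ h ∈ H, ⁅a, h⁆ ∈ M}
          one_mem' := ⟨one_mem _, fun h _ => by
            rw [commutatorElement_one_left]; exact one_mem _⟩
          mul_mem' := by
            rintro a b ⟨ha, ha'⟩ ⟨hb, hb'⟩
            refine ⟨mul_mem ha hb, fun h hh => ?_⟩
            rw [comm_mul_left]
            exact mul_mem (hM a ha _ (hb' h hh)) (ha' h hh)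
          inv_mem' := by
            rintro a ⟨ha, ha'⟩
            refine ⟨inv_mem ha, fun h hh => ?_⟩
            rw [comm_inv_left]
            exact hconj' a ha _ (inv_mem (ha' h hh)) }
      have h1 : H.lowerCentralSeries i ≤ N := by
        apply hX2 N
        · rintro g hg a ⟨ha, ha'⟩
          refine ⟨mul_mem (mul_mem hg ha) (inv_mem hg), fun h hh => ?_⟩
          have h2 := hM g hg _ (ha' (g⁻¹ * h * g) (mul_mem (mul_mem (inv_mem hg) hh) hg))
          have e : ⁅g * a * g⁻¹, h⁆ = g * ⁅a, g⁻¹ * h * g⁆ * g⁻¹ := by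
            simp only [commutatorElement_def]; group
          rw [e]; exact h2
        · intro x hx
          have hxH : x ∈ H := H.lowerCentralSeries_le_self i (hX1 x hx)
          refine ⟨hxH, ?_⟩
          let K : Subgroup G :=
            { carrier := {h | h ∈ H ∧ ⁅x, h⁆ ∈ M}
              one_mem' := ⟨one_mem _, by rw [commutatorElement_one_right]; exact one_mem _⟩
              mul_mem' := by
                rintro a b ⟨ha, ha'⟩ ⟨hb, hb'⟩
                refine ⟨mul_mem ha hb, ?_⟩
                rw [comm_mul_right]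
                exact mul_mem ha' (hM a ha _ hb')
              inv_mem' := by
                rintro a ⟨ha, ha'⟩
                refine ⟨inv_mem ha, ?_⟩
                rw [comm_inv_right]
                exact hconj' a ha _ (inv_mem ha') }
          have hK : H ≤ K := by
            conv_lhs => rw [← hS]
            rw [Subgroup.closure_le]
            intro s hs
            refine ⟨by rw [← hS]; exact Subgroup.subset_closure hs, ?_⟩
            exact hXM _ (Finset.mem_image.2 ⟨(x, s), Finset.mem_product.2 ⟨hx, hs⟩, rfl⟩)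
          intro h hh
          exact (hK hh).2
      rw [Subgroup.lowerCentralSeries_succ, Subgroup.commutator_le]
      intro a ha h hh
      exact (h1 ha).2 h hh

/-- iterated commutators with elements of `H` vanish after `n` steps -/
def Nil (H : Subgroup G) : ℕ → G → Prop
  | 0, v => v = 1
  | n + 1, v => ∀ h ∈ H, Nil H n ⁅h, v⁆

section

variable (V : Subgroup G) [V.Normal] (H : Subgroup G)

theorem comm_mem_V {h v : G} (hv : v ∈ V) : ⁅h, v⁆ ∈ V := by
  rw [commutatorElement_def]
  exact mul_mem (Subgroup.Normal.conj_mem inferInstance _ hv h) (inv_mem hv)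

theorem Nil.one_mem (n : ℕ) : Nil H n 1 := by
  induction n with
  | zero => rfl
  | succ n ih => intro h _; rw [commutatorElement_one_right]; exact ih

theorem Nil.mul (hV : ∀ x ∈ V, ∀ y ∈ V, x * y = y * x) (n : ℕ) : ∀ v ∈ V, ∀ w ∈ V,
    Nil H n v → Nil H n w → Nil H n (v * w) := by
  induction n with
  | zero => intro v _ w _ h1 h2; change v * w = 1; rw [h1, h2, mul_one]
  | succ n ih =>
    intro v hv w hw h1 h2 h hh
    have e : ⁅h, v * w⁆ = ⁅h, v⁆ * ⁅h, w⁆ := by
      rw [comm_mul_right, hV v hv _ (comm_mem_V V hw), mul_inv_cancel_right]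
    rw [e]
    exact ih _ (comm_mem_V V hv) _ (comm_mem_V V hw) (h1 h hh) (h2 h hh)

theorem Nil.inv (hV : ∀ x ∈ V, ∀ y ∈ V, x * y = y * x) (n : ℕ) : ∀ v ∈ V,
    Nil H n v → Nil H n v⁻¹ := by
  induction n with
  | zero => intro v _ h1; change v⁻¹ = 1; rw [h1, inv_one]
  | succ n ih =>
    intro v hv h1 h hh
    have e : ⁅h, v⁻¹⁆ = ⁅h, v⁆⁻¹ := by
      rw [comm_inv_right, hV _ (inv_mem hv) _ (inv_mem (comm_mem_V V hv)), inv_mul_cancel_right]
    rw [e]
    exact ih _ (comm_mem_V V hv) (h1 h hh)

theorem Nil.conj (n : ℕ) : ∀ v : G, Nil H n v → ∀ g ∈ H, Nil H n (g * v * g⁻¹) := by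
  induction n with
  | zero => intro v h1 g _; change g * v * g⁻¹ = 1; rw [h1]; group
  | succ n ih =>
    intro v h1 g hg h hh
    have e : ⁅h, g * v * g⁻¹⁆ = g * ⁅g⁻¹ * h * g, v⁆ * g⁻¹ := by
      simp only [commutatorElement_def]; group
    rw [e]
    exact ih _ (h1 _ (mul_mem (mul_mem (inv_mem hg) hh) hg)) g hg

theorem Nil.succ (n : ℕ) : ∀ v : G, Nil H n v → Nil H (n + 1) v := by
  induction n with
  | zero => intro v h1 h _; change ⁅h, v⁆ = 1; rw [h1, commutatorElement_one_right]
  | succ n ih => intro v h1 h hh; exact ih _ (h1 h hh)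

theorem Nil.mono {n m : ℕ} (hnm : n ≤ m) {v : G} (h : Nil H n v) : Nil H m v := by
  induction hnm with
  | refl => exact h
  | step _ ih => exact Nil.succ H _ _ ih

/-- **nilpotency from local unipotence** -/
theorem nilp_of_unip (hV : ∀ x ∈ V, ∀ y ∈ V, x * y = y * x)
    (hun : ∀ q : G, ∀ w ∈ V, ∃ r : ℕ, (fun y : G => ⁅q, y⁆)^[r] w = 1)
    (S : Finset G) (hS : Subgroup.closure (S : Set G) = H) (c : ℕ)
    (hc : H.lowerCentralSeries c ≤ V) : ∃ n, H.lowerCentralSeries n = ⊥ := by
  classical
  let U : Subgroup G :=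
    { carrier := {v | v ∈ V ∧ ∃ n, Nil H n v}
      one_mem' := ⟨one_mem _, 0, rfl⟩
      mul_mem' := by
        rintro a b ⟨ha, n, hn⟩ ⟨hb, m, hm⟩
        exact ⟨mul_mem ha hb, max n m, Nil.mul V H hV _ a ha b hb
          (Nil.mono H (le_max_left _ _) hn) (Nil.mono H (le_max_right _ _) hm)⟩
      inv_mem' := by
        rintro a ⟨ha, n, hn⟩
        exact ⟨inv_mem ha, n, Nil.inv V H hV n a ha hn⟩ }
  have hUconj : ∀ g ∈ H, ∀ v ∈ U, g * v * g⁻¹ ∈ U := by
    rintro g hg v ⟨hv, n, hn⟩
    exact ⟨Subgroup.Normal.conj_mem inferInstance _ hv g, n, Nil.conj H n v hn g hg⟩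
  have hUconj' : ∀ g ∈ H, ∀ v ∈ U, g⁻¹ * v * g ∈ U := by
    intro g hg v hv
    have := hUconj g⁻¹ (inv_mem hg) v hv
    rwa [inv_inv] at this
  -- closure property
  have hdag : ∀ v ∈ V, (∀ h ∈ H, ⁅h, v⁆ ∈ U) → v ∈ U := by
    intro v hv h1
    have h2 : ∀ T : Finset G, (∀ s ∈ T, s ∈ S) → ∃ n, ∀ s ∈ T, Nil H n ⁅s, v⁆ := by
      intro T
      induction T using Finset.induction_on with
      | empty => intro _; exact ⟨0, by simp⟩
      | insert s T hs ih =>
        intro hT
        obtain ⟨n, hn⟩ := ih (fun s' hs' => hT s' (Finset.mem_insert_of_mem hs'))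
        obtain ⟨-, m, hm⟩ := h1 s (by
          rw [← hS]; exact Subgroup.subset_closure (hT s (Finset.mem_insert_self _ _)))
        refine ⟨max n m, fun s' hs' => ?_⟩
        rcases Finset.mem_insert.1 hs' with rfl | hs'
        · exact Nil.mono H (le_max_right _ _) hm
        · exact Nil.mono H (le_max_left _ _) (hn s' hs')
    obtain ⟨n, hn⟩ := h2 S (fun s hs => hs)
    refine ⟨hv, n + 1, ?_⟩
    let K : Subgroup G :=
      { carrier := {h | h ∈ H ∧ Nil H n ⁅h, v⁆}
        one_mem' := ⟨one_mem _, by rw [commutatorElement_one_left]; exact Nil.one_mem H n⟩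
        mul_mem' := by
          rintro a b ⟨ha, ha'⟩ ⟨hb, hb'⟩
          refine ⟨mul_mem ha hb, ?_⟩
          rw [comm_mul_left]
          exact Nil.mul V H hV n _ (Subgroup.Normal.conj_mem inferInstance _ (comm_mem_V V hv) _) _
            (comm_mem_V V hv) (Nil.conj H n _ hb' a ha) ha'
        inv_mem' := by
          rintro a ⟨ha, ha'⟩
          refine ⟨inv_mem ha, ?_⟩
          rw [comm_inv_left]
          have := Nil.conj H n _ (Nil.inv V H hV n _ (comm_mem_V V hv) ha') a⁻¹ (inv_mem ha)
          rwa [inv_inv] at this }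
    have hK : H ≤ K := by
      conv_lhs => rw [← hS]
      rw [Subgroup.closure_le]
      intro s hs
      exact ⟨by rw [← hS]; exact Subgroup.subset_closure hs, hn s hs⟩
    intro h hh
    exact (hK hh).2
  -- everything is in `U`
  have hVU : V ≤ U := by
    intro v₀ hv₀
    by_contra hv₀U
    have hdown : ∀ d i : ℕ, i + d = c → ∃ v ∈ V, v ∉ U ∧
        ∀ k ∈ H.lowerCentralSeries i, ⁅k, v⁆ ∈ U := by
      intro d
      induction d with
      | zero =>
        intro i hi
        refine ⟨v₀, hv₀, hv₀U, fun k hk => ?_⟩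
        have hkV : k ∈ V := hc (by rw [add_zero] at hi; rw [← hi]; exact hk)
        rw [commutatorElement_eq_one_iff_mul_comm.2 (hV k hkV v₀ hv₀)]
        exact one_mem _
      | succ d ih =>
        intro i hi
        obtain ⟨v₁, hv₁, hv₁U, hv₁F⟩ := ih (i + 1) (by omega)
        obtain ⟨X, hX1, hX2⟩ := exists_normal_gens S H hS i
        have hγH : H.lowerCentralSeries i ≤ H := H.lowerCentralSeries_le_self i
        have hcomm : ∀ a ∈ H.lowerCentralSeries i, ∀ b ∈ H, ⁅a, b⁆ ∈ H.lowerCentralSeries (i + 1) := by
          intro a ha b hb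
          rw [Subgroup.lowerCentralSeries_succ]
          exact Subgroup.commutator_mem_commutator ha hb
        -- process the generators
        have hproc : ∀ Y : Finset G, (∀ y ∈ Y, y ∈ H.lowerCentralSeries i) →
            ∃ v ∈ V, v ∉ U ∧ ∀ k ∈ Subgroup.closure (Y : Set G) ⊔ H.lowerCentralSeries (i + 1),
              ⁅k, v⁆ ∈ U := by
          intro Y
          induction Y using Finset.induction_on with
          | empty =>
            intro _
            refine ⟨v₁, hv₁, hv₁U, fun k hk => ?_⟩
            rw [Finset.coe_empty, Subgroup.closure_empty, bot_sup_eq] at hk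
            exact hv₁F k hk
          | insert z Y hz ihY =>
            intro hY
            obtain ⟨v, hv, hvU, hvK⟩ := ihY (fun y hy => hY y (Finset.mem_insert_of_mem hy))
            have hzγ : z ∈ H.lowerCentralSeries i := hY z (Finset.mem_insert_self _ _)
            have hzH : z ∈ H := hγH hzγ
            set K := Subgroup.closure (Y : Set G) ⊔ H.lowerCentralSeries (i + 1) with hKdef
            have hKγ : K ≤ H.lowerCentralSeries i := by
              rw [hKdef, sup_le_iff, Subgroup.closure_le]
              exact ⟨fun y hy => hY y (Finset.mem_insert_of_mem hy),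
                H.lowerCentralSeries_antitone (Nat.le_succ i)⟩
            have hKconj : ∀ k ∈ K, z⁻¹ * k * z ∈ K := by
              intro k hk
              have e : z⁻¹ * k * z = k * ⁅k⁻¹, z⁻¹⁆ := by rw [commutatorElement_def]; group
              rw [e]
              exact mul_mem hk (Subgroup.mem_sup_right
                (hcomm _ (inv_mem (hKγ hk)) _ (inv_mem hzH)))
            -- the set of good elements is preserved
            have hpres : ∀ u ∈ V, (∀ k ∈ K, ⁅k, u⁆ ∈ U) → ∀ k ∈ K, ⁅k, ⁅z, u⁆⁆ ∈ U := by
              intro u hu hk k hkK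
              have e1 : ⁅z, u⁆ = (z * u * z⁻¹) * u⁻¹ := by rw [commutatorElement_def]
              have hzu : z * u * z⁻¹ ∈ V := Subgroup.Normal.conj_mem inferInstance _ hu z
              have e2 : ⁅k, (z * u * z⁻¹) * u⁻¹⁆ = ⁅k, z * u * z⁻¹⁆ * ⁅k, u⁆⁻¹ := by
                rw [comm_mul_right, comm_inv_right, hV _ hzu _ (by
                    exact mul_mem (mul_mem (inv_mem hu) (inv_mem (comm_mem_V V hu))) hu),
                  mul_inv_cancel_right, hV _ (inv_mem hu) _ (inv_mem (comm_mem_V V hu)),
                  inv_mul_cancel_right]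
              have e3 : ⁅k, z * u * z⁻¹⁆ = z * ⁅z⁻¹ * k * z, u⁆ * z⁻¹ := by
                simp only [commutatorElement_def]; group
              rw [e1, e2, e3]
              exact mul_mem (hUconj z hzH _ (hk _ (hKconj k hkK))) (inv_mem (hk k hkK))
            obtain ⟨r, hr⟩ := hun z v hv
            have hex : ∃ m, (fun y : G => ⁅z, y⁆)^[m] v ∈ U := ⟨r, by rw [hr]; exact one_mem _⟩
            have hm := Nat.find_spec hex
            have hm' := fun m hm => Nat.find_min hex (m := m) hm
            set m := Nat.find hex with hmdef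
            have hm0 : m ≠ 0 := by
              intro h
              rw [h] at hm
              exact hvU hm
            obtain ⟨m', hm'eq⟩ : ∃ m', m = m' + 1 := ⟨m - 1, by omega⟩
            have hiter : ∀ j : ℕ, (fun y : G => ⁅z, y⁆)^[j] v ∈ V ∧
                ∀ k ∈ K, ⁅k, (fun y : G => ⁅z, y⁆)^[j] v⁆ ∈ U := by
              intro j
              induction j with
              | zero => exact ⟨hv, hvK⟩
              | succ j ihj =>
                rw [Function.iterate_succ_apply']
                exact ⟨comm_mem_V V ihj.1, hpres _ ihj.1 ihj.2⟩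
            refine ⟨(fun y : G => ⁅z, y⁆)^[m'] v, (hiter m').1, hm' m' (by omega), ?_⟩
            -- the elements `k` of `H` with `⁅k, v'⁆ ∈ U` form a subgroup
            set v' := (fun y : G => ⁅z, y⁆)^[m'] v with hv'
            let L : Subgroup G :=
              { carrier := {h | h ∈ H ∧ ⁅h, v'⁆ ∈ U}
                one_mem' := ⟨one_mem _, by rw [commutatorElement_one_left]; exact one_mem _⟩
                mul_mem' := by
                  rintro a b ⟨ha, ha'⟩ ⟨hb, hb'⟩
                  refine ⟨mul_mem ha hb, ?_⟩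
                  rw [comm_mul_left]
                  exact mul_mem (hUconj a ha _ hb') ha'
                inv_mem' := by
                  rintro a ⟨ha, ha'⟩
                  refine ⟨inv_mem ha, ?_⟩
                  rw [comm_inv_left]
                  exact hUconj' a ha _ (inv_mem ha') }
            have hL : Subgroup.closure ((insert z Y : Finset G) : Set G) ⊔
                H.lowerCentralSeries (i + 1) ≤ L := by
              have hKL : K ≤ L := fun k hk => ⟨hγH (hKγ hk), (hiter m').2 k hk⟩
              rw [sup_le_iff, Subgroup.closure_le]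
              refine ⟨?_, fun k hk => hKL (Subgroup.mem_sup_right hk)⟩
              intro y hy
              rw [Finset.coe_insert, Set.mem_insert_iff] at hy
              rcases hy with rfl | hy
              · refine ⟨hzH, ?_⟩
                rw [hm'eq, Function.iterate_succ_apply'] at hm
                exact hm
              · exact hKL (Subgroup.mem_sup_left (Subgroup.subset_closure hy))
            intro k hk
            exact (hL hk).2
        obtain ⟨v, hv, hvU, hvK⟩ := hproc X hX1
        refine ⟨v, hv, hvU, ?_⟩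
        have hle : H.lowerCentralSeries i ≤
            (Subgroup.closure (X : Set G) ⊔ H.lowerCentralSeries (i + 1)) := by
          apply hX2
          · intro h hh m hm
            have hmγ : m ∈ H.lowerCentralSeries i := by
              have : (Subgroup.closure (X : Set G) ⊔ H.lowerCentralSeries (i + 1)) ≤
                  H.lowerCentralSeries i := by
                rw [sup_le_iff, Subgroup.closure_le]
                exact ⟨hX1, H.lowerCentralSeries_antitone (Nat.le_succ i)⟩
              exact this hm
            have e : h * m * h⁻¹ = ⁅m, h⁆⁻¹ * m := by rw [commutatorElement_def]; group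
            rw [e]
            exact mul_mem (inv_mem (Subgroup.mem_sup_right (hcomm m hmγ h hh))) hm
          · intro x hx
            exact Subgroup.mem_sup_left (Subgroup.subset_closure hx)
        intro k hk
        exact hvK k (hle hk)
    obtain ⟨v, hv, hvU, hvH⟩ := hdown c 0 (zero_add c)
    exact hvU (hdag v hv hvH)
  -- conclusion
  obtain ⟨X, hX1, hX2⟩ := exists_normal_gens S H hS c
  have h2 : ∀ T : Finset G, (∀ s ∈ T, s ∈ X) → ∃ n, ∀ s ∈ T, Nil H n s := by
    intro T
    induction T using Finset.induction_on with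
    | empty => intro _; exact ⟨0, by simp⟩
    | insert s T hs ih =>
      intro hT
      obtain ⟨n, hn⟩ := ih (fun s' hs' => hT s' (Finset.mem_insert_of_mem hs'))
      obtain ⟨-, m, hm⟩ := hVU (hc (hX1 s (hT s (Finset.mem_insert_self _ _))))
      refine ⟨max n m, fun s' hs' => ?_⟩
      rcases Finset.mem_insert.1 hs' with rfl | hs'
      · exact Nil.mono H (le_max_right _ _) hm
      · exact Nil.mono H (le_max_left _ _) (hn s' hs')
  obtain ⟨N, hN⟩ := h2 X (fun s hs => hs)
  have h3 : ∀ j n : ℕ, n + j = N → ∀ v ∈ H.lowerCentralSeries (c + j), Nil H n v := by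
    intro j
    induction j with
    | zero =>
      intro n hn v hv
      rw [add_zero] at hn
      subst hn
      let M : Subgroup G :=
        { carrier := {v | v ∈ V ∧ Nil H n v}
          one_mem' := ⟨one_mem _, Nil.one_mem H n⟩
          mul_mem' := by
            rintro a b ⟨ha, ha'⟩ ⟨hb, hb'⟩
            exact ⟨mul_mem ha hb, Nil.mul V H hV _ a ha b hb ha' hb'⟩
          inv_mem' := by
            rintro a ⟨ha, ha'⟩
            exact ⟨inv_mem ha, Nil.inv V H hV n a ha ha'⟩ }
      have := hX2 M (fun h hh m hm => ⟨Subgroup.Normal.conj_mem inferInstance _ hm.1 h,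
        Nil.conj H n m hm.2 h hh⟩) (fun x hx => ⟨hc (hX1 x hx), hN x hx⟩)
      exact (this hv).2
    | succ j ih =>
      intro n hn v hv
      have ih' := ih (n + 1) (by omega)
      let M : Subgroup G :=
        { carrier := {v | v ∈ V ∧ Nil H n v}
          one_mem' := ⟨one_mem _, Nil.one_mem H n⟩
          mul_mem' := by
            rintro a b ⟨ha, ha'⟩ ⟨hb, hb'⟩
            exact ⟨mul_mem ha hb, Nil.mul V H hV _ a ha b hb ha' hb'⟩
          inv_mem' := by
            rintro a ⟨ha, ha'⟩
            exact ⟨inv_mem ha, Nil.inv V H hV n a ha ha'⟩ }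
      have hle : H.lowerCentralSeries (c + (j + 1)) ≤ M := by
        rw [← add_assoc, Subgroup.lowerCentralSeries_succ, Subgroup.commutator_le]
        intro a ha h hh
        have haV : a ∈ V := hc (H.lowerCentralSeries_antitone (Nat.le_add_right c j) ha)
        rw [← commutatorElement_inv]
        exact ⟨inv_mem (comm_mem_V V haV), Nil.inv V H hV n _ (comm_mem_V V haV) (ih' a ha h hh)⟩
      exact (hle hv).2
  refine ⟨c + N, ?_⟩
  rw [eq_bot_iff]
  intro v hv
  exact Subgroup.mem_bot.2 (h3 N 0 (zero_add N) v hv)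

end

end H60RO
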