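import Pool.Agent.H60.RO.TFN

namespace H60RO

open scoped commutatorElement

variable {G : Type*} [Group G]

/-- roots of powers of `q` commute with everything commuting with `q` -/
theorem IsBiCone.commute_of_root {P : Set G} (h : IsBiCone P) {q x c : G} {k : ℕ} (hk : 0 < k)
    {j : ℤ} (hx : x ^ k = q ^ j) (hc : Commute q c) : Commute x c := by
  refine h.commute_of_pow hk ?_
  rw [hx]
  exact hc.zpow_left j

/-- the isolator of a cyclic subgroup in a bi-orderable group -/
def isoP {P : Set G} (h : IsBiCone P) (q : G) : Subgroup G where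
  carrier := {x | ∃ k : ℕ, 0 < k ∧ ∃ j : ℤ, x ^ k = q ^ j}
  one_mem' := ⟨1, one_pos, 0, by simp⟩
  inv_mem' := by
    rintro x ⟨k, hk, j, hx⟩
    exact ⟨k, hk, -j, by rw [inv_pow, hx, zpow_neg]⟩
  mul_mem' := by
    rintro x y ⟨k, hk, j, hx⟩ ⟨l, hl, i, hy⟩
    refine ⟨k * l, Nat.mul_pos hk hl, j * l + i * k, ?_⟩
    have h1 : Commute x q := h.commute_of_root hk hx (Commute.refl q)
    have h2 : Commute y x := h.commute_of_root hl hy h1.symm
    rw [h2.symm.mul_pow, pow_mul, hx, mul_comm k l, pow_mul, hy, zpow_add, zpow_mul, zpow_mul,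
      zpow_natCast, zpow_natCast]

theorem mem_isoP {P : Set G} {h : IsBiCone P} {q x : G} :
    x ∈ isoP h q ↔ ∃ k : ℕ, 0 < k ∧ ∃ j : ℤ, x ^ k = q ^ j := Iff.rfl

theorem isoP_comm {P : Set G} (h : IsBiCone P) {q x y : G} (hx : x ∈ isoP h q)
    (hy : y ∈ isoP h q) : Commute x y := by
  obtain ⟨k, hk, j, hx⟩ := hx
  obtain ⟨l, hl, i, hy⟩ := hy
  have h1 : Commute x q := h.commute_of_root hk hx (Commute.refl q)
  exact (h.commute_of_root hl hy h1.symm).symm

theorem relConvex_isoP {P : Set G} (h : IsBiCone P) (q : G) : RelConvex (isoP h q) := by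
  let A : Subgroup G := Subgroup.centralizer
    ((Subgroup.centralizer ({q} : Set G) : Subgroup G) : Set G)
  have hle : isoP h q ≤ A := by
    rintro x ⟨k, hk, j, hx⟩
    rw [Subgroup.mem_centralizer_iff]
    intro c hc
    have hc' : Commute q c := by
      have := Subgroup.mem_centralizer_iff.1 hc q rfl
      exact this
    exact (h.commute_of_root hk hx hc').symm.eq
  have hAle : A ≤ Subgroup.centralizer ({q} : Set G) := by
    refine Subgroup.centralizer_le ?_
    intro x hx
    rw [Set.mem_singleton_iff] at hx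
    subst hx
    change x ∈ Subgroup.centralizer ({x} : Set G)
    rw [Subgroup.mem_centralizer_iff]
    intro y hy
    rw [Set.mem_singleton_iff] at hy
    rw [hy]
  refine RelConvex.trans hle (h.relConvex_centralizer _) ?_
  refine exists_rel_cone _ _ hle ?_ ?_
  · intro x hx y hy
    have h1 : y * x = x * y := Subgroup.mem_centralizer_iff.1 hx y (hAle hy)
    have h2 : x⁻¹ * y⁻¹ * x * y = 1 := by
      rw [mul_assoc _ x y, ← h1]; group
    rw [h2]; exact one_mem _
  · rintro x _ n hn ⟨k, hk, j, hx⟩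
    exact ⟨n * k, Nat.mul_pos hn hk, j, by rw [pow_mul]; exact hx⟩

end H60RO
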