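import Pool.Agent.H60.RO.Zlemma

namespace H60RO

open scoped commutatorElement

universe u

/-- bi-orderable groups -/
def BO (G : Type*) [Group G] : Prop := ∃ P : Set G, IsBiCone P

theorem BO.subgroup {G : Type*} [Group G] (h : BO G) (S : Subgroup G) : BO S := by
  obtain ⟨P, hP⟩ := h
  exact ⟨_, hP.subgroup S⟩

theorem BO.cone {G : Type*} [Group G] (h : BO G) : ∃ P : Set G, IsCone P := by
  obtain ⟨P, hP⟩ := h
  exact ⟨P, hP.toIsCone⟩

theorem BO.of_relCone {G : Type*} [Group G] {N : Subgroup G} [N.Normal] {Q : Set G}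
    (hQ : RelCone N Q) (hc : ∀ x : G, ∀ a ∈ Q, x⁻¹ * a * x ∈ Q) : BO (G ⧸ N) := by
  refine ⟨{q | ∃ x ∈ Q, (x : G ⧸ N) = q}, ⟨⟨?_, ?_, ?_⟩, ?_⟩⟩
  · rintro _ _ ⟨x, hx, rfl⟩ ⟨y, hy, rfl⟩
    exact ⟨x * y, hQ.mul x hx y hy, rfl⟩
  · rintro ⟨x, hx, h⟩
    exact hQ.disj x hx ((QuotientGroup.eq_one_iff x).1 h)
  · intro a ha
    obtain ⟨x, rfl⟩ := QuotientGroup.mk_surjective a
    rcases hQ.tot x (fun h => ha ((QuotientGroup.eq_one_iff x).2 h)) with h | h
    · exact Or.inl ⟨x, h, rfl⟩
    · exact Or.inr ⟨x⁻¹, h, rfl⟩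
  · rintro _ y ⟨x, hx, rfl⟩
    obtain ⟨y, rfl⟩ := QuotientGroup.mk_surjective y
    exact ⟨_, hc y x hx, rfl⟩

/-- bi-orderable groups with all right orders Conrad: the central quotient is bi-orderable -/
theorem BO.center_quotient {G : Type*} [Group G] (h : BO G) (hAC : AC G) :
    BO (G ⧸ Subgroup.center G) := by
  obtain ⟨P, hP⟩ := h
  let _ : LinearOrder G := hP.order
  have _ : MulLeftMono G := hP.order_mulLeft
  have _ : MulRightMono G := hP.order_mulRight
  obtain ⟨Q, hQ, hc⟩ := exists_cone_center_quotient (G := G) (fun g x hg n => central hAC g x hg n)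
  exact BO.of_relCone hQ hc

theorem rc_map_mk {G : Type*} [Group G] {H : Subgroup G} (hH : rc H = ⊤) (N : Subgroup G)
    [N.Normal] : rc (H.map (QuotientGroup.mk' N)) = ⊤ := by
  rw [eq_top_iff]
  have h1 : H ≤ (rc (H.map (QuotientGroup.mk' N))).comap (QuotientGroup.mk' N) := by
    rw [← Subgroup.map_le_iff_le_comap]
    exact le_rc _
  have h2 := rc_le ((relConvex_rc (H.map (QuotientGroup.mk' N))).comap (QuotientGroup.mk' N)) h1
  rw [hH] at h2
  intro q _
  obtain ⟨q, rfl⟩ := QuotientGroup.mk_surjective q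
  exact h2 (Subgroup.mem_top q)

theorem rc_subgroupOf {G : Type*} [Group G] (H : Subgroup G) :
    rc (H.subgroupOf (rc H)) = ⊤ := by
  rw [eq_top_iff]
  rintro ⟨x, hx⟩ -
  have h1 : RelConvex ((rc (H.subgroupOf (rc H))).map (rc H).subtype) := by
    refine RelConvex.trans (T := rc H) (Subgroup.map_subtype_le _) (relConvex_rc H) ?_
    have : ((rc (H.subgroupOf (rc H))).map (rc H).subtype).subgroupOf (rc H)
        = rc (H.subgroupOf (rc H)) := by
      rw [Subgroup.subgroupOf, Subgroup.comap_map_eq_self_of_injective (Subgroup.subtype_injective _)]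
    rw [this]
    exact relConvex_rc _
  have h2 : H ≤ (rc (H.subgroupOf (rc H))).map (rc H).subtype := by
    intro y hy
    exact ⟨⟨y, le_rc H hy⟩, le_rc _ (Subgroup.mem_subgroupOf.2 hy), rfl⟩
  obtain ⟨y, hy, h3⟩ := rc_le h1 h2 hx
  have : y = ⟨x, hx⟩ := Subtype.ext h3
  rwa [← this]

/-- **the relatively convex closure of a nilpotent subgroup is nilpotent** -/
theorem nilp_of_rc : ∀ (n : ℕ) (G : Type u) [Group G], BO G → AC G → ∀ H : Subgroup G,
    H.lowerCentralSeries n = ⊥ → rc H = ⊤ → (⊤ : Subgroup G).lowerCentralSeries n = ⊥ := by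
  intro n
  induction n with
  | zero =>
    intro G _ hBO hAC H hH hrc
    rw [Subgroup.lowerCentralSeries_zero] at hH
    subst hH
    obtain ⟨P, hP⟩ := hBO.cone
    have h1 : RelConvex (⊥ : Subgroup G) := ⟨P, relCone_bot hP⟩
    have h2 := rc_le h1 le_rfl
    rw [hrc] at h2
    rw [Subgroup.lowerCentralSeries_zero]
    exact le_bot_iff.1 h2
  | succ n ih =>
    intro G _ hBO hAC H hH hrc
    have hcen : H.lowerCentralSeries n ≤ Subgroup.center G := by
      intro x hx
      obtain ⟨P, hP⟩ := hBO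
      have h1 : H ≤ Subgroup.centralizer ({x} : Set G) := by
        intro h hh
        rw [Subgroup.mem_centralizer_iff]
        intro y hy
        rw [Set.mem_singleton_iff] at hy
        subst hy
        have h2 : ⁅y, h⁆ ∈ H.lowerCentralSeries (n + 1) := by
          rw [Subgroup.lowerCentralSeries_succ]
          exact Subgroup.commutator_mem_commutator hx hh
        rw [hH, Subgroup.mem_bot, commutatorElement_eq_one_iff_mul_comm] at h2
        exact h2
      have h2 := rc_le (hP.relConvex_centralizer_singleton x) h1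
      rw [hrc] at h2
      rw [Subgroup.mem_center_iff]
      intro g
      have h3 := h2 (Subgroup.mem_top g)
      rw [Subgroup.mem_centralizer_iff] at h3
      exact (h3 x rfl).symm
    have hAC' : AC (G ⧸ Subgroup.center G) :=
      hAC.quotient (hBO.subgroup _).cone
    have h1 := ih (G ⧸ Subgroup.center G) (hBO.center_quotient hAC) hAC'
      (H.map (QuotientGroup.mk' (Subgroup.center G))) (by
        rw [← Subgroup.map_lowerCentralSeries, Subgroup.map_eq_bot_iff, QuotientGroup.ker_mk']
        exact hcen) (rc_map_mk hrc _)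
    apply Subgroup.lowerCentralSeries_succ_eq_bot
    have h2 : ((⊤ : Subgroup G).lowerCentralSeries n).map (QuotientGroup.mk' (Subgroup.center G)) = ⊥ := by
      rw [Subgroup.map_lowerCentralSeries,
        Subgroup.map_top_of_surjective _ (QuotientGroup.mk'_surjective _)]
      exact h1
    rwa [Subgroup.map_eq_bot_iff, QuotientGroup.ker_mk'] at h2

end H60RO
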