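import Pool.Agent.H60.RO.Unip
import Pool.Agent.H60.RO.Fg

namespace H60RO

open scoped commutatorElement

universe u

/-- locally nilpotent groups -/
def LN (G : Type*) [Group G] : Prop :=
  ∀ S : Finset G, ∃ n, (Subgroup.closure (S : Set G)).lowerCentralSeries n = ⊥

/-- quotients of locally nilpotent form: pull back to the kernel -/
theorem LN.le_of_quotient {G : Type*} [Group G] {V : Subgroup G} [V.Normal] (h : LN (G ⧸ V))
    (S : Finset G) : ∃ n, (Subgroup.closure (S : Set G)).lowerCentralSeries n ≤ V := by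
  classical
  obtain ⟨n, hn⟩ := h (S.image (QuotientGroup.mk' V))
  refine ⟨n, ?_⟩
  have h1 : Subgroup.closure ((S.image (QuotientGroup.mk' V) : Finset (G ⧸ V)) : Set (G ⧸ V))
      = (Subgroup.closure (S : Set G)).map (QuotientGroup.mk' V) := by
    rw [MonoidHom.map_closure, Finset.coe_image]
  rw [h1, ← Subgroup.map_lowerCentralSeries, Subgroup.map_eq_bot_iff, QuotientGroup.ker_mk'] at hn
  exact hn

theorem thmA {G : Type*} [Group G] (V : Subgroup G) [V.Normal]
    (hV : ∀ x ∈ V, ∀ y ∈ V, x * y = y * x) (hBO : BO G) (hBO' : BO (G ⧸ V)) (hAC : AC G)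
    (hLN : LN (G ⧸ V)) : LN G := by
  intro S
  obtain ⟨c, hc⟩ := hLN.le_of_quotient S
  exact nilp_of_unip V _ hV (fun q w hw => unip V hV hBO hBO' hAC q w hw) S rfl c hc

/-- soluble residually torsion-free nilpotent groups with all right orders Conrad -/
theorem thmC : ∀ (n : ℕ) (G : Type u) [Group G], RTN G → AC G → derivedSeries G n = ⊥ → LN G := by
  intro n
  induction n with
  | zero =>
    intro G _ _ _ h S
    rw [derivedSeries_zero] at h
    refine ⟨0, ?_⟩
    rw [Subgroup.lowerCentralSeries_zero, eq_bot_iff, ← h]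
    exact le_top
  | succ n ih =>
    intro G _ hR hAC h
    have _ : (derivedSeries G n).Normal := derivedSeries_normal G n
    have hY : ∀ x ∈ derivedSeries G n, ∀ y ∈ derivedSeries G n, x * y = y * x := by
      intro x hx y hy
      have h1 : ⁅x, y⁆ ∈ derivedSeries G (n + 1) := by
        rw [derivedSeries_succ]
        exact Subgroup.commutator_mem_commutator hx hy
      rw [h, Subgroup.mem_bot, commutatorElement_eq_one_iff_mul_comm] at h1
      exact h1
    let X : Subgroup G := Subgroup.centralizer ((derivedSeries G n : Subgroup G) : Set G)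
    have _ : X.Normal := Subgroup.normal_centralizer
    let V : Subgroup G := Subgroup.centralizer ((X : Subgroup G) : Set G)
    have _ : V.Normal := Subgroup.normal_centralizer
    have hYX : derivedSeries G n ≤ X := by
      intro y hy
      rw [Subgroup.mem_centralizer_iff]
      intro x hx
      exact hY x hx y hy
    have hVX : V ≤ X := Subgroup.centralizer_le hYX
    have hVc : ∀ x ∈ V, ∀ y ∈ V, x * y = y * x := by
      intro x hx y hy
      exact (Subgroup.mem_centralizer_iff.1 hx y (hVX hy)).symm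
    have hYV : derivedSeries G n ≤ V := by
      intro y hy
      rw [Subgroup.mem_centralizer_iff]
      intro x hx
      exact (Subgroup.mem_centralizer_iff.1 hx y hy).symm
    have hBO := hR.bo
    have hR' : RTN (G ⧸ V) := hR.quotient_centralizer X
    have hAC' : AC (G ⧸ V) := hAC.quotient (hBO.subgroup V).cone
    have h2 : derivedSeries (G ⧸ V) n = ⊥ := by
      rw [← map_derivedSeries_eq (QuotientGroup.mk'_surjective V) n, Subgroup.map_eq_bot_iff,
        QuotientGroup.ker_mk']
      exact hYV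
    exact thmA V hVc hBO hR'.bo hAC (ih (G ⧸ V) hR' hAC' h2)

section Ordered

variable {G : Type u} [Group G] [LinearOrder G] [MulLeftMono G] [MulRightMono G]

theorem exists_max_hull (X : Finset G) (hX : X.Nonempty) :
    ∃ x₀ ∈ X, ∀ x ∈ X, hull (Subgroup.zpowers x) ≤ hull (Subgroup.zpowers x₀) := by
  classical
  induction hX using Finset.Nonempty.cons_induction with
  | singleton a => exact ⟨a, by simp, by simp⟩
  | cons a s ha hs ih =>
    obtain ⟨x₀, hx₀, h⟩ := ih
    rcases (cvx_hull (Subgroup.zpowers a)).total (cvx_hull (Subgroup.zpowers x₀)) with h1 | h1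
    · refine ⟨x₀, Finset.mem_cons_of_mem hx₀, fun x hx => ?_⟩
      rcases Finset.mem_cons.1 hx with rfl | hx
      · exact h1
      · exact h x hx
    · refine ⟨a, Finset.mem_cons_self _ _, fun x hx => ?_⟩
      rcases Finset.mem_cons.1 hx with rfl | hx
      · exact le_rfl
      · exact (h x hx).trans h1

/-- elements much smaller than `x₀` -/
def small (x₀ : G) (hx₀ : x₀ ≠ 1) : Subgroup G where
  carrier := {x | x₀ ∉ hull (Subgroup.zpowers x)}
  one_mem' := by
    rintro ⟨k, hk, h1, h2⟩
    rw [Subgroup.zpowers_one_eq_bot, Subgroup.mem_bot] at hk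
    subst hk
    rw [inv_one] at h1
    exact hx₀ (le_antisymm h2 h1)
  mul_mem' := by
    intro x y hx hy
    rcases (cvx_hull (Subgroup.zpowers x)).total (cvx_hull (Subgroup.zpowers y)) with h | h
    · intro hmem
      apply hy
      refine hull_le (cvx_hull _) ?_ hmem
      rw [Subgroup.zpowers_le]
      exact mul_mem (h (le_hull _ (Subgroup.mem_zpowers _))) (le_hull _ (Subgroup.mem_zpowers _))
    · intro hmem
      apply hx
      refine hull_le (cvx_hull _) ?_ hmem
      rw [Subgroup.zpowers_le]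
      exact mul_mem (le_hull _ (Subgroup.mem_zpowers _)) (h (le_hull _ (Subgroup.mem_zpowers _)))
  inv_mem' := by
    intro x hx
    change x₀ ∉ hull (Subgroup.zpowers x⁻¹)
    rw [Subgroup.zpowers_inv]
    exact hx

theorem cvx_small (x₀ : G) (hx₀ : x₀ ≠ 1) : Cvx (small x₀ hx₀) := by
  intro x hx y h1 h2 hmem
  apply hx
  refine hull_le (cvx_hull _) ?_ hmem
  rw [Subgroup.zpowers_le]
  exact cvx_hull _ x (le_hull _ (Subgroup.mem_zpowers _)) y h1 h2

/-- the descending chain of convex closures cannot become stationary -/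
theorem stationary (hc : CentralOrder G) (S : Finset G) (c : ℕ)
    (h : (Subgroup.closure (S : Set G)).lowerCentralSeries c ≤
      hull ((Subgroup.closure (S : Set G)).lowerCentralSeries (c + 1))) :
    (Subgroup.closure (S : Set G)).lowerCentralSeries c = ⊥ := by
  classical
  set H := Subgroup.closure (S : Set G) with hH
  obtain ⟨X, hX1, hX2⟩ := exists_normal_gens S H hH.symm c
  rcases X.eq_empty_or_nonempty with rfl | hne
  · rw [eq_bot_iff]
    exact hX2 ⊥ (fun g _ m hm => by
      rw [Subgroup.mem_bot] at hm ⊢; rw [hm]; group) (by simp)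
  obtain ⟨x₀, hx₀, hmax⟩ := exists_max_hull X hne
  have hUn : (hull (Subgroup.zpowers x₀)).Normal := (cvx_hull _).normal hc
  have hle : H.lowerCentralSeries c ≤ hull (Subgroup.zpowers x₀) := by
    apply hX2
    · intro g _ m hm
      exact hUn.conj_mem m hm g
    · intro x hx
      exact hmax x hx (le_hull _ (Subgroup.mem_zpowers _))
  by_cases hx1 : x₀ = 1
  · rw [eq_bot_iff]
    refine hle.trans (hull_le Cvx.bot ?_)
    rw [hx1, Subgroup.zpowers_one_eq_bot]
  exfalso
  have h1 : H.lowerCentralSeries (c + 1) ≤ small x₀ hx1 := by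
    rw [Subgroup.lowerCentralSeries_succ, Subgroup.commutator_le]
    intro a ha g _ hmem
    by_cases ha1 : a = 1
    · rw [ha1, commutatorElement_one_left] at hmem
      exact (one_mem (small x₀ hx1) : (1 : G) ∈ small x₀ hx1) hmem
    · have h2 : hull (Subgroup.zpowers x₀) ≤ hull (Subgroup.zpowers ⁅a, g⁆) :=
        hull_le (cvx_hull _) (by rw [Subgroup.zpowers_le]; exact hmem)
      exact notMem_hull_comm hc ha1 g (h2 (hle ha))
  have h3 := hull_le (cvx_small x₀ hx1) h1 (h (hX1 x₀ hx₀))
  exact h3 (le_hull _ (Subgroup.mem_zpowers _))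

theorem key (hc : CentralOrder G) (hAC : AC G) (S : Finset G)
    (hrc : rc (Subgroup.closure (S : Set G)) = ⊤)
    (hLN : ∀ (N : Subgroup G) [N.Normal], RTN (G ⧸ N) → AC (G ⧸ N) →
      (∀ g, g ∉ N → ∃ c, g ∉ hull ((Subgroup.closure (S : Set G)).lowerCentralSeries c)) →
      LN (G ⧸ N)) :
    ∃ n, (Subgroup.closure (S : Set G)).lowerCentralSeries n = ⊥ := by
  set H := Subgroup.closure (S : Set G) with hH
  have hBO : BO G := ⟨_, isBiCone_lt⟩
  let J : ℕ → Subgroup G := fun c => hull (H.lowerCentralSeries c)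
  have hJc : ∀ c, Cvx (J c) := fun c => cvx_hull _
  have hJn : ∀ c, (J c).Normal := fun c => (hJc c).normal hc
  have hJinf : Cvx (⨅ c, J c) := Cvx.sInf hJc
  have hJinfn : (⨅ c, J c).Normal := hJinf.normal hc
  have hnil : ∀ c, Group.IsNilpotent (G ⧸ J c) ∧ TF (G ⧸ J c) := by
    intro c
    have hBOc : BO (G ⧸ J c) := ⟨_, (hJc c).quotient_cone⟩
    have hACc : AC (G ⧸ J c) := hAC.quotient (hBO.subgroup _).cone
    refine ⟨?_, hBOc.tf⟩
    rw [Subgroup.nilpotent_iff_lowerCentralSeries]
    refine ⟨c, nilp_of_rc c (G ⧸ J c) hBOc hACc (H.map (QuotientGroup.mk' (J c))) ?_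
      (rc_map_mk hrc _)⟩
    rw [← Subgroup.map_lowerCentralSeries, Subgroup.map_eq_bot_iff, QuotientGroup.ker_mk']
    exact le_hull _
  have hRTN : RTN (G ⧸ (⨅ c, J c)) := by
    intro q hq
    obtain ⟨g, rfl⟩ := QuotientGroup.mk_surjective q
    have hg : g ∉ (⨅ c, J c) := fun h => hq ((QuotientGroup.eq_one_iff g).2 h)
    rw [Subgroup.mem_iInf] at hg
    push Not at hg
    obtain ⟨c, hgc⟩ := hg
    obtain ⟨h1, h2⟩ := hnil c
    refine ⟨G ⧸ J c, inferInstance, QuotientGroup.map _ _ (MonoidHom.id G) (iInf_le J c), ?_,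
      h1, h2, ?_⟩
    · intro y
      obtain ⟨y, rfl⟩ := QuotientGroup.mk_surjective y
      exact ⟨(y : G ⧸ (⨅ c, J c)), rfl⟩
    · change ((g : G) : G ⧸ J c) ≠ 1
      rw [Ne, QuotientGroup.eq_one_iff]
      exact hgc
  have hACinf : AC (G ⧸ (⨅ c, J c)) := hAC.quotient (hBO.subgroup _).cone
  obtain ⟨c, hcle⟩ := (hLN _ hRTN hACinf (by
    intro g hg
    rw [Subgroup.mem_iInf] at hg
    push Not at hg
    exact hg)).le_of_quotient S
  exact ⟨c, stationary hc S c (hcle.trans (iInf_le J (c + 1)))⟩

end Ordered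

/-- **Theorem**: a bi-orderable soluble group all of whose right orders are Conrad orders is locally
nilpotent -/
theorem soluble_LN {G : Type u} [Group G] (hBO : BO G) (hAC : AC G) (n : ℕ)
    (hn : derivedSeries G n = ⊥) : LN G := by
  classical
  intro S
  set H := Subgroup.closure (S : Set G) with hH
  -- pass to the relatively convex closure
  let G₁ : Subgroup G := rc H
  have hSG : ∀ s ∈ S, s ∈ G₁ := fun s hs => le_rc H (by rw [hH]; exact Subgroup.subset_closure hs)
  let S₁ : Finset G₁ := S.attach.image (fun s => ⟨s.1, hSG s.1 s.2⟩)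
  have hS₁ : Subgroup.closure (S₁ : Set G₁) = H.subgroupOf G₁ := by
    apply Subgroup.map_injective (Subgroup.subtype_injective G₁)
    rw [MonoidHom.map_closure, Subgroup.map_subgroupOf_eq_of_le (le_rc H), hH]
    congr 1
    ext x
    simp only [S₁, Finset.coe_image, Set.mem_image, Finset.mem_coe, Finset.mem_attach, true_and,
      Subtype.exists, Subgroup.coe_subtype]
    constructor
    · rintro ⟨a, ha, ⟨b, hb, h⟩, rfl⟩
      simp only [Subtype.mk.injEq] at h
      subst h
      exact hb
    · intro hx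
      exact ⟨x, hSG x hx, ⟨x, hx, rfl⟩, rfl⟩
  have hBO₁ : BO G₁ := hBO.subgroup G₁
  have hAC₁ : AC G₁ := hAC.of_relConvex (relConvex_rc H)
  have hn₁ : derivedSeries G₁ n = ⊥ := by
    have h1 := map_derivedSeries_le_derivedSeries G₁.subtype n
    rw [hn, le_bot_iff, Subgroup.map_eq_bot_iff, Subgroup.ker_subtype, le_bot_iff] at h1
    exact h1
  obtain ⟨P, hP⟩ := hBO₁
  let _ : LinearOrder G₁ := hP.order
  have _ : MulLeftMono G₁ := hP.order_mulLeft
  have _ : MulRightMono G₁ := hP.order_mulRight
  obtain ⟨m, hm⟩ := key (G := G₁) (fun g x hg n => central hAC₁ g x hg n) hAC₁ S₁ (by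
    rw [hS₁]; exact rc_subgroupOf H) (by
    intro N _ hR hA _
    refine thmC n (G₁ ⧸ N) hR hA ?_
    rw [← map_derivedSeries_eq (QuotientGroup.mk'_surjective N) n, hn₁, Subgroup.map_bot])
  refine ⟨m, ?_⟩
  rw [hS₁] at hm
  have h2 : ((H.subgroupOf G₁).lowerCentralSeries m).map G₁.subtype = ⊥ := by
    rw [hm, Subgroup.map_bot]
  rwa [Subgroup.map_lowerCentralSeries, Subgroup.map_subgroupOf_eq_of_le (le_rc H)] at h2

end H60RO
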