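import Pool.Agent.H60.RO.Nilp

namespace H60RO

open scoped commutatorElement

universe u

/-- torsion-free groups -/
def TF (G : Type*) [Group G] : Prop := ∀ g : G, ∀ n : ℕ, 0 < n → g ^ n = 1 → g = 1

theorem BO.tf {G : Type*} [Group G] (h : BO G) : TF G := by
  obtain ⟨P, hP⟩ := h
  exact fun g n hn hg => hP.torsionFree hn hg

theorem BO.of_central {G : Type*} [Group G] (hZ : ∃ P : Set (Subgroup.center G), IsCone P)
    (h : BO (G ⧸ Subgroup.center G)) : BO G := by
  obtain ⟨P₀, hP₀⟩ := hZ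
  obtain ⟨P, hP⟩ := h
  have hR : RelCone (Subgroup.center G) ((QuotientGroup.mk' (Subgroup.center G)) ⁻¹' P) := by
    have := (relCone_bot hP.toIsCone).comap (QuotientGroup.mk' (Subgroup.center G))
    rwa [MonoidHom.comap_bot, QuotientGroup.ker_mk'] at this
  refine ⟨_, ⟨hR.extend hP₀, ?_⟩⟩
  intro a x ha
  rcases ha with ha | ⟨y, hy, rfl⟩
  · left
    have := hP.conj (x : G ⧸ Subgroup.center G) ha
    exact this
  · right
    have h1 : x⁻¹ * (y : G) * x = (y : G) := by
      have := Subgroup.mem_center_iff.1 y.2 x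
      rw [mul_assoc, ← this]; group
    exact ⟨y, hy, h1.symm⟩

theorem comm_pow_of_central {Q : Type*} [Group Q] {a b : Q} (h : ⁅a, b⁆ ∈ Subgroup.center Q) (k : ℕ) :
    ⁅a ^ k, b⁆ = ⁅a, b⁆ ^ k := by
  have hc : Commute ⁅a, b⁆⁻¹ a := (Subgroup.mem_center_iff.1 (inv_mem h) a).symm
  have h1 : b * a * b⁻¹ = ⁅a, b⁆⁻¹ * a := by rw [commutatorElement_def]; group
  have h2 : b * a ^ k * b⁻¹ = (⁅a, b⁆⁻¹) ^ k * a ^ k := by
    rw [← conj_pow, h1, hc.mul_pow]
  calc ⁅a ^ k, b⁆ = a ^ k * (b * a ^ k * b⁻¹)⁻¹ := by rw [commutatorElement_def]; group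
    _ = a ^ k * ((⁅a, b⁆⁻¹) ^ k * a ^ k)⁻¹ := by rw [h2]
    _ = ⁅a, b⁆ ^ k := by rw [inv_pow, mul_inv_rev, inv_inv, mul_inv_cancel_left]

/-- upper central factors of a torsion-free group are torsion-free -/
theorem tf_upper {G : Type*} [Group G] (h : TF G) : ∀ (j : ℕ) (w : G) (k : ℕ), 0 < k →
    w ∈ Subgroup.upperCentralSeries G (j + 1) → w ^ k ∈ Subgroup.upperCentralSeries G j →
    w ∈ Subgroup.upperCentralSeries G j := by
  intro j
  induction j with
  | zero =>
    intro w k hk _ h2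
    rw [Subgroup.upperCentralSeries_zero, Subgroup.mem_bot] at h2 ⊢
    exact h w k hk h2
  | succ j ih =>
    intro w k hk h1 h2
    rw [Subgroup.mem_upperCentralSeries_succ_iff] at h1 h2 ⊢
    intro y
    apply ih ⁅w, y⁆ k hk (h1 y)
    have h3 := h2 y
    have h4 : ((⁅w, y⁆ : G) : G ⧸ Subgroup.upperCentralSeries G j) ∈ Subgroup.center (G ⧸ Subgroup.upperCentralSeries G j) := by
      rw [Subgroup.mem_center_iff]
      intro q
      obtain ⟨q, rfl⟩ := QuotientGroup.mk_surjective q
      have h5 := (Subgroup.mem_upperCentralSeries_succ_iff.1 (h1 y)) q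
      rw [← QuotientGroup.eq_one_iff] at h5
      change ⁅((⁅w, y⁆ : G) : G ⧸ Subgroup.upperCentralSeries G j), (q : G ⧸ Subgroup.upperCentralSeries G j)⁆ = 1 at h5
      rw [commutatorElement_eq_one_iff_mul_comm] at h5
      exact h5.symm
    have h6 := comm_pow_of_central (a := (w : G ⧸ Subgroup.upperCentralSeries G j))
      (b := (y : G ⧸ Subgroup.upperCentralSeries G j)) h4 k
    rw [← QuotientGroup.eq_one_iff] at h3 ⊢
    change ⁅(w : G ⧸ Subgroup.upperCentralSeries G j) ^ k, (y : G ⧸ Subgroup.upperCentralSeries G j)⁆ = 1 at h3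
    rw [h6] at h3
    exact h3

theorem TF.center_quotient {G : Type*} [Group G] [Group.IsNilpotent G] (h : TF G) :
    TF (G ⧸ Subgroup.center G) := by
  intro q k hk hq
  obtain ⟨g, rfl⟩ := QuotientGroup.mk_surjective q
  rw [← QuotientGroup.mk_pow, QuotientGroup.eq_one_iff] at hq
  rw [QuotientGroup.eq_one_iff]
  obtain ⟨n, hn⟩ := Group.IsNilpotent.nilpotent (G := G)
  have hmono : ∀ i, Subgroup.upperCentralSeries G 1 ≤ Subgroup.upperCentralSeries G (i + 1) := fun i =>
    Subgroup.upperCentralSeries_mono G (Nat.le_add_left 1 i)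
  have key : ∀ d i : ℕ, i + d = n → 1 ≤ i → g ∈ Subgroup.upperCentralSeries G i := by
    intro d
    induction d with
    | zero =>
      intro i hi _
      rw [add_zero] at hi
      rw [hi, hn]; exact Subgroup.mem_top g
    | succ d ih =>
      intro i hi hi1
      obtain ⟨i, rfl⟩ : ∃ i', i = i' + 1 := ⟨i - 1, by omega⟩
      refine tf_upper h (i + 1) g k hk (ih (i + 1 + 1) (by omega) (by omega)) ?_
      exact hmono i (by rw [Subgroup.upperCentralSeries_one]; exact hq)
  rcases Nat.eq_zero_or_pos n with rfl | hn0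
  · rw [Subgroup.upperCentralSeries_zero] at hn
    have : g ∈ (⊤ : Subgroup G) := Subgroup.mem_top g
    rw [← hn, Subgroup.mem_bot] at this
    rw [this]; exact one_mem _
  · have := key (n - 1) 1 (by omega) le_rfl
    rwa [Subgroup.upperCentralSeries_one] at this

/-- torsion-free nilpotent groups are bi-orderable -/
theorem TF.bo {G : Type u} [Group G] [Group.IsNilpotent G] (h : TF G) : BO G := by
  have key := @Group.nilpotent_center_quotient_ind
    (P := fun (G : Type u) [Group G] [Group.IsNilpotent G] => TF G → BO G) G _ _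
  refine key ?_ ?_ h
  · intro G _ _ _
    exact ⟨∅, ⟨⟨fun h => absurd h (Set.notMem_empty _), Set.notMem_empty _,
      fun a ha => absurd (Subsingleton.elim a 1) ha⟩, fun _ h => absurd h (Set.notMem_empty _)⟩⟩
  · intro G _ _ ih h
    refine BO.of_central ?_ (ih h.center_quotient)
    refine exists_cone_of_tf (Subgroup.center G) (fun a b =>
      Subtype.ext (Subgroup.mem_center_iff.1 b.2 a)) ?_
    intro a n hn ha
    have := h (a : G) n hn (by rw [← Subgroup.coe_pow, ha]; rfl)
    exact Subtype.ext this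

/-- residually torsion-free nilpotent groups -/
def RTN (G : Type u) [Group G] : Prop :=
  ∀ g : G, g ≠ 1 → ∃ (K : Type u) (_ : Group K) (f : G →* K), Function.Surjective f ∧
    Group.IsNilpotent K ∧ TF K ∧ f g ≠ 1

theorem RTN.bo {G : Type u} [Group G] (h : RTN G) : BO G := by
  choose K iK f hf hK hTF hne using h
  have hex : ∀ g : {g : G // g ≠ 1}, ∃ Q : Set G, RelCone (f g.1 g.2).ker Q ∧
      ∀ x : G, ∀ a ∈ Q, x⁻¹ * a * x ∈ Q := by
    rintro ⟨g, hg⟩
    have := hK g hg
    obtain ⟨P, hP⟩ := (hTF g hg).bo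
    have h1 := (relCone_bot hP.toIsCone).comap (f g hg)
    rw [MonoidHom.comap_bot] at h1
    refine ⟨_, h1, ?_⟩
    intro x a ha
    rw [Set.mem_preimage, map_mul, map_mul, map_inv]
    exact hP.conj _ ha
  choose Q hQ hQc using hex
  obtain ⟨Q', hQ', hc⟩ := exists_lex _ Q hQ
  have h2 := hc (fun i => ⟨inferInstance, hQc i⟩)
  have h3 : (⨅ i : {g : G // g ≠ 1}, (f i.1 i.2).ker) = ⊥ := by
    rw [eq_bot_iff]
    intro g hg
    rw [Subgroup.mem_bot]
    by_contra hne'
    rw [Subgroup.mem_iInf] at hg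
    exact hne g hne' (hg ⟨g, hne'⟩)
  rw [h3] at hQ'
  exact ⟨Q', ⟨hQ'.isCone, fun x ha => h2 x _ ha⟩⟩

theorem RTN.quotient_centralizer {G : Type u} [Group G] (h : RTN G) (X : Subgroup G) [X.Normal] :
    RTN (G ⧸ Subgroup.centralizer (X : Set G)) := by
  intro q hq
  obtain ⟨g, rfl⟩ := QuotientGroup.mk_surjective q
  have hg : g ∉ Subgroup.centralizer (X : Set G) := fun h' => hq ((QuotientGroup.eq_one_iff g).2 h')
  rw [Subgroup.mem_centralizer_iff] at hg
  push Not at hg
  obtain ⟨x, hx, hgx⟩ := hg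
  obtain ⟨K, iK, f, hf, hK, hTF, hne⟩ := h ⁅x, g⁆ (fun h' => hgx (by
    rwa [commutatorElement_eq_one_iff_mul_comm] at h'))
  have hXn : (X.map f).Normal := Subgroup.Normal.map inferInstance f hf
  let f' : G →* K ⧸ Subgroup.centralizer ((X.map f : Subgroup K) : Set K) :=
    (QuotientGroup.mk' _).comp f
  have hf' : Function.Surjective f' := (QuotientGroup.mk'_surjective _).comp hf
  have hker : ∀ v ∈ Subgroup.centralizer (X : Set G), f' v = 1 := by
    intro v hv
    change ((f v : K) : K ⧸ Subgroup.centralizer ((X.map f : Subgroup K) : Set K)) = 1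
    rw [QuotientGroup.eq_one_iff, Subgroup.mem_centralizer_iff]
    rintro _ ⟨y, hy, rfl⟩
    rw [← map_mul, ← map_mul, Subgroup.mem_centralizer_iff.1 hv y hy]
  refine ⟨_, inferInstance, QuotientGroup.lift _ f' hker, ?_, inferInstance, ?_, ?_⟩
  · intro k
    obtain ⟨g, rfl⟩ := hf' k
    exact ⟨(g : G ⧸ Subgroup.centralizer (X : Set G)), rfl⟩
  · intro k n hn hk
    obtain ⟨k, rfl⟩ := QuotientGroup.mk_surjective k
    rw [← QuotientGroup.mk_pow, QuotientGroup.eq_one_iff, Subgroup.mem_centralizer_iff] at hk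
    rw [QuotientGroup.eq_one_iff, Subgroup.mem_centralizer_iff]
    intro y hy
    obtain ⟨P, hP⟩ := hTF.bo
    have h1 : Commute (k ^ n) y := (hk y hy).symm
    exact (hP.commute_of_pow hn h1).symm.eq
  · change ((f g : K) : K ⧸ Subgroup.centralizer ((X.map f : Subgroup K) : Set K)) ≠ 1
    rw [Ne, QuotientGroup.eq_one_iff, Subgroup.mem_centralizer_iff]
    intro h'
    apply hne
    rw [map_commutatorElement, commutatorElement_eq_one_iff_mul_comm]
    exact h' (f x) ⟨x, hx, rfl⟩

end H60RO
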