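import Pool.Agent.H60.RO.Core

namespace H60RO

open scoped commutatorElement IsMulCommutative
open Polynomial

section Ordered

variable {G : Type*} [Group G] [LinearOrder G] [MulLeftMono G] [MulRightMono G]

theorem Cvx.isolated {J : Subgroup G} (hJ : Cvx J) {x : G} {n : ℕ} (hn : 0 < n)
    (hx : x ^ n ∈ J) : x ∈ J := by
  have key : ∀ y : G, 1 ≤ y → y ^ n ∈ J → y ∈ J := by
    intro y hy h
    refine hJ _ h y hy ?_
    have := pow_le_pow_right' hy (show 1 ≤ n by omega)
    simpa using this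
  rcases le_total 1 x with h | h
  · exact key x h hx
  · have := key x⁻¹ (one_le_inv'.2 h) (by rw [inv_pow]; exact inv_mem hx)
    simpa using this

theorem Cvx.isolated_zpow {J : Subgroup G} (hJ : Cvx J) {x : G} {n : ℤ} (hn : n ≠ 0)
    (hx : x ^ n ∈ J) : x ∈ J := by
  refine hJ.isolated (n := n.natAbs) (by omega) ?_
  rcases Int.natAbs_eq n with h | h
  · rw [h, zpow_natCast] at hx; exact hx
  · rw [h, zpow_neg, zpow_natCast] at hx
    exact inv_mem_iff.1 hx

variable {V : Subgroup G} [V.Normal] [IsMulCommutative V]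

/-- an element annihilated by a nonzero polynomial is annihilated by a power of `T - 1` -/
theorem unip_of_poly (hc : CentralOrder G) (t : G) (w : Additive V) {z : ℤ[X]} (hz : z ≠ 0)
    (hzw : aeval (act V t) z w = 0) : ∃ i : ℕ, ((act V t - 1) ^ i) w = 0 := by
  classical
  obtain ⟨z₁, hz₁, hdvd⟩ := exists_eq_pow_rootMultiplicity_mul_and_not_dvd z hz 1
  set i := z.rootMultiplicity 1 with hi
  refine ⟨i, ?_⟩
  by_contra hw1
  set w₁ := ((act V t - 1) ^ i) w with hw₁
  have h1 : aeval (act V t) z₁ w₁ = 0 := by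
    have h2 : aeval (act V t) z = aeval (act V t) z₁ * (act V t - 1) ^ i := by
      rw [hz₁, mul_comm, map_mul, map_pow, map_sub, aeval_X, aeval_C]
      simp
    rw [h2] at hzw
    exact hzw
  set c := z₁.eval 1 with hcdef
  have hc0 : c ≠ 0 := fun h => hdvd (dvd_iff_isRoot.2 h)
  obtain ⟨z₂, hz₂⟩ : X - C (1 : ℤ) ∣ z₁ - C c := X_sub_C_dvd_sub_C_eval
  have h3 : z₁ = C c + (X - C 1) * z₂ := by rw [← hz₂]; ring
  set u := aeval (act V t) z₂ w₁ with hu
  have h4 : c • w₁ + (act V t u - u) = 0 := by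
    have h5 : aeval (act V t) z₁ = algebraMap ℤ _ c + (act V t - 1) * aeval (act V t) z₂ := by
      conv_lhs => rw [h3]
      rw [map_add, map_mul, map_sub, aeval_X, aeval_C, aeval_C]
      simp
    rw [h5] at h1
    have h6 : (algebraMap ℤ (AddMonoid.End (Additive V)) c) w₁ = c • w₁ := by
      rw [eq_intCast]
      exact AddMonoid.End.intCast_apply c w₁
    change (algebraMap ℤ (AddMonoid.End (Additive V)) c) w₁ + (act V t u - u) = 0 at h1
    rwa [h6] at h1
  -- translate to the group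
  have h7 : (w₁.toMul : G) ^ c * ⁅t, (u.toMul : G)⁆ = 1 := by
    have h8 := congrArg (fun v : Additive V => (v.toMul : G)) h4
    simp only [toMul_add, toMul_sub, toMul_zsmul, Subgroup.coe_mul, Subgroup.coe_div,
      Subgroup.coe_zpow, toMul_zero, Subgroup.coe_one] at h8
    rw [act_apply, div_eq_mul_inv] at h8
    rw [commutatorElement_def]
    exact h8
  have hw1' : (w₁.toMul : G) ≠ 1 := by
    intro h
    apply hw1
    apply Additive.toMul.injective
    exact Subtype.ext h
  have hBOt : ∀ x : G, ∀ n : ℕ, 0 < n → x ^ n = 1 → x = 1 := fun x n hn hx =>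
    isBiCone_lt.torsionFree hn hx
  have hu1 : (u.toMul : G) ≠ 1 := by
    intro h
    rw [h, commutatorElement_one_right, mul_one] at h7
    apply hw1'
    rcases Int.natAbs_eq c with h' | h'
    · rw [h', zpow_natCast] at h7
      exact hBOt _ _ (by omega) h7
    · rw [h', zpow_neg, zpow_natCast, inv_eq_one] at h7
      exact hBOt _ _ (by omega) h7
  set J := hull (Subgroup.zpowers ⁅(u.toMul : G), t⁆) with hJ
  have hJc : Cvx J := cvx_hull _
  have h9 : (w₁.toMul : G) ∈ J := by
    apply hJc.isolated_zpow hc0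
    have h10 : (w₁.toMul : G) ^ c = ⁅(u.toMul : G), t⁆ := by
      rw [mul_eq_one_iff_eq_inv, commutatorElement_inv] at h7
      exact h7
    rw [h10]
    exact le_hull _ (Subgroup.mem_zpowers _)
  -- the convex closure of `w₁`
  set U := hull (Subgroup.zpowers (w₁.toMul : G)) with hU
  have hUc : Cvx U := cvx_hull _
  have hUn : U.Normal := hUc.normal hc
  have hUJ : U ≤ J := hull_le hJc (by rw [Subgroup.zpowers_le]; exact h9)
  let S : AddSubgroup (Additive V) :=
    { carrier := {v | (v.toMul : G) ∈ U}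
      zero_mem' := one_mem U
      add_mem' := fun {a b} ha hb => by
        change ((a.toMul * b.toMul : V) : G) ∈ U
        rw [Subgroup.coe_mul]
        exact mul_mem ha hb
      neg_mem' := fun {a} ha => by
        change ((a.toMul⁻¹ : V) : G) ∈ U
        rw [Subgroup.coe_inv]
        exact inv_mem ha }
  have hS : ∀ p : ℤ[X], ∀ v ∈ S, aeval (act V t) p v ∈ S := by
    intro p
    induction p using Polynomial.induction_on with
    | C a =>
      intro v hv
      rw [aeval_C, eq_intCast]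
      rw [AddMonoid.End.intCast_apply]
      exact zsmul_mem hv a
    | add p q hp hq =>
      intro v hv
      rw [map_add]
      exact add_mem (hp v hv) (hq v hv)
    | monomial n a ih =>
      intro v hv
      rw [pow_succ, ← mul_assoc, map_mul, aeval_X]
      exact ih _ (hUn.conj_mem _ hv t)
  have h11 : (u.toMul : G) ∈ U := hS z₂ w₁ (le_hull _ (Subgroup.mem_zpowers _))
  exact notMem_hull_comm hc hu1 t (hUJ h11)

end Ordered

/-- **Local unipotence**, rank one case -/
theorem core {D : Type*} [Group D] (V : Subgroup D) [V.Normal] [IsMulCommutative V]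
    (hBO : BO D) (hAC : AC D) (hD : ∀ x y : D, ⁅x, y⁆ ∈ V)
    (htf : ∀ x : D, ∀ n : ℕ, 0 < n → x ^ n ∈ V → x ∈ V) (q : D)
    (hr : ∀ d : D, ∃ k : ℕ, 0 < k ∧ ∃ j : ℤ, ∃ v ∈ V, d ^ k = q ^ j * v) (w : V) :
    ∃ r : ℕ, (fun y : D => ⁅q, y⁆)^[r] (w : D) = 1 := by
  by_cases hq : q ∈ V
  · refine ⟨1, ?_⟩
    rw [Function.iterate_one, commutatorElement_eq_one_iff_mul_comm]
    have h1 : (⟨q, hq⟩ : V) * w = w * ⟨q, hq⟩ := mul_comm _ _
    exact congrArg Subtype.val h1
  obtain ⟨t, K, hK, z, hz, hzw⟩ := exists_poly hBO hAC hD htf q hq hr (Additive.ofMul w)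
  have hi : ∃ i : ℕ, ((act V t - 1) ^ i) (Additive.ofMul w) = 0 := by
    obtain ⟨P, hP⟩ := hBO
    let _ : LinearOrder D := hP.order
    have _ : MulLeftMono D := hP.order_mulLeft
    have _ : MulRightMono D := hP.order_mulRight
    exact unip_of_poly (fun g x hg n => central hAC g x hg n) t _ hz hzw
  obtain ⟨i, hi⟩ := hi
  refine ⟨i, ?_⟩
  have h1 := iter_comm V q (Additive.ofMul w) i
  rw [toMul_ofMul] at h1
  rw [← h1, hK]
  obtain ⟨g, hg⟩ : (X - 1 : ℤ[X]) ∣ X ^ K - 1 := by
    have := sub_dvd_pow_sub_pow (X : ℤ[X]) 1 K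
    rwa [one_pow] at this
  have h2 : ((act V t) ^ K - 1) ^ i = aeval (act V t) (g ^ i) * (act V t - 1) ^ i := by
    have h3 : aeval (act V t) ((X ^ K - 1 : ℤ[X]) ^ i) = ((act V t) ^ K - 1) ^ i := by
      rw [map_pow, map_sub, map_pow, aeval_X, map_one]
    have h4 : aeval (act V t) ((X - 1 : ℤ[X]) ^ i) = (act V t - 1) ^ i := by
      rw [map_pow, map_sub, aeval_X, map_one]
    rw [← h3, ← h4, hg, mul_pow, mul_comm, map_mul]
  rw [h2]
  change ((aeval (act V t) (g ^ i) (((act V t - 1) ^ i) (Additive.ofMul w))).toMul : D) = 1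
  rw [hi, map_zero]
  rfl

/-- **Local unipotence** -/
theorem unip {G : Type*} [Group G] (V : Subgroup G) [V.Normal] (hV : ∀ x ∈ V, ∀ y ∈ V, x * y = y * x)
    (hBO : BO G) (hBO' : BO (G ⧸ V)) (hAC : AC G) (q : G) (w : G) (hw : w ∈ V) :
    ∃ r : ℕ, (fun y : G => ⁅q, y⁆)^[r] w = 1 := by
  obtain ⟨P', hP'⟩ := hBO'
  let D : Subgroup G := (isoP hP' (q : G ⧸ V)).comap (QuotientGroup.mk' V)
  have hD : RelConvex D := (relConvex_isoP hP' _).comap _
  have hVD : V ≤ D := by
    intro v hv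
    refine ⟨1, one_pos, 0, ?_⟩
    rw [pow_one, zpow_zero]
    exact (QuotientGroup.eq_one_iff v).2 hv
  have hqD : q ∈ D := ⟨1, one_pos, 1, by rw [pow_one, zpow_one]; rfl⟩
  have _ : (V.subgroupOf D).Normal := inferInstance
  have _ : IsMulCommutative (V.subgroupOf D) := by
    rw [isMulCommutative_iff]
    intro a b
    apply Subtype.ext
    apply Subtype.ext
    exact hV _ (Subgroup.mem_subgroupOf.1 a.2) _ (Subgroup.mem_subgroupOf.1 b.2)
  obtain ⟨r, hr⟩ := core (V.subgroupOf D) (hBO.subgroup D) (hAC.of_relConvex hD) (by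
      intro x y
      rw [Subgroup.mem_subgroupOf, ← QuotientGroup.eq_one_iff]
      have h1 := isoP_comm hP' x.2 y.2
      change ⁅((x : G) : G ⧸ V), ((y : G) : G ⧸ V)⁆ = 1
      rw [commutatorElement_eq_one_iff_commute]
      exact h1) (by
      intro x n hn hx
      rw [Subgroup.mem_subgroupOf] at hx ⊢
      rw [Subgroup.coe_pow, ← QuotientGroup.eq_one_iff, QuotientGroup.mk_pow] at hx
      rw [← QuotientGroup.eq_one_iff]
      exact hP'.torsionFree hn hx) ⟨q, hqD⟩ (by
      intro d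
      obtain ⟨k, hk, j, h⟩ := d.2
      refine ⟨k, hk, j, ⟨q, hqD⟩ ^ (-j) * d ^ k, ?_, by group⟩
      rw [Subgroup.mem_subgroupOf, ← QuotientGroup.eq_one_iff]
      have h' : ((d : G) : G ⧸ V) ^ k = (q : G ⧸ V) ^ j := h
      push_cast
      rw [QuotientGroup.mk_mul, QuotientGroup.mk_zpow, QuotientGroup.mk_pow, h', ← zpow_add,
        neg_add_cancel, zpow_zero]) ⟨⟨w, hVD hw⟩, Subgroup.mem_subgroupOf.2 hw⟩
  refine ⟨r, ?_⟩
  have key : ∀ (r : ℕ) (v : D), ((fun y : D => ⁅(⟨q, hqD⟩ : D), y⁆)^[r] v : D) =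
      (fun y : G => ⁅q, y⁆)^[r] (v : G) := by
    intro r
    induction r with
    | zero => intro v; rfl
    | succ r ih => intro v; rw [Function.iterate_succ_apply, Function.iterate_succ_apply, ih]; rfl
  have h1 := key r ⟨w, hVD hw⟩
  rw [← h1]
  have h2 := congrArg (fun v : D => (v : G)) hr
  exact h2

end H60RO
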