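import Pool.Agent.H60.RO.Convex

namespace H60RO

open scoped commutatorElement

variable {G : Type*} [Group G]

/-- ordering along a chain of subgroups with central torsion-free jumps -/
theorem chain_lemma {ι : Type*} (F : ι → Subgroup G) (hchain : ∀ i j, F i ≤ F j ∨ F j ≤ F i)
    (i₀ : ι) (hbot : ∀ i, F i₀ ≤ F i)
    (htf : ∀ i, ∀ x : G, ∀ n : ℕ, 0 < n → x ^ n ∈ F i → x ∈ F i)
    (hcentral : ∀ g, g ∉ F i₀ → ∀ b, (∀ i, g ∈ F i → b ∈ F i) → ∀ x : G,
      ∃ i, g ∉ F i ∧ ⁅b, x⁆ ∈ F i) :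
    ∃ Q : Set G, RelCone (F i₀) Q ∧ ∀ x : G, ∀ a ∈ Q, x⁻¹ * a * x ∈ Q := by
  classical
  let c : G → Set ι := fun g => {i | g ∈ F i}
  let A : Set ι → Subgroup G := fun s => ⨆ i : {i // i ∉ s}, F i
  let B : Set ι → Subgroup G := fun s => ⨅ i : {i // i ∈ s}, F i
  have memA : ∀ g, g ∉ F i₀ → ∀ y, y ∈ A (c g) ↔ ∃ i, g ∉ F i ∧ y ∈ F i := by
    intro g hg y
    have : Nonempty {i // i ∉ c g} := ⟨⟨i₀, hg⟩⟩
    rw [Subgroup.mem_iSup_of_directed]
    · constructor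
      · rintro ⟨⟨i, hi⟩, h⟩; exact ⟨i, hi, h⟩
      · rintro ⟨i, hi, h⟩; exact ⟨⟨i, hi⟩, h⟩
    · intro i j
      rcases hchain i j with h | h
      · exact ⟨j, h, le_rfl⟩
      · exact ⟨i, le_rfl, h⟩
  have memB : ∀ g y, y ∈ B (c g) ↔ ∀ i, g ∈ F i → y ∈ F i := by
    intro g y
    simp only [B, c, Subgroup.mem_iInf, Subtype.forall, Set.mem_ofPred_eq]
  have hK : ∀ g, g ∉ F i₀ → ∃ Q' : Set (B (c g)), RelCone ((A (c g)).subgroupOf (B (c g))) Q' := by
    intro g hg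
    refine exists_rel_cone (A (c g)) (B (c g)) ?_ ?_ ?_
    · intro y hy
      rw [memA g hg] at hy
      rw [memB]
      obtain ⟨i, hi, hy⟩ := hy
      intro j hj
      rcases hchain i j with h | h
      · exact h hy
      · exact absurd (h hj) hi
    · intro x hx y _
      rw [memA g hg]
      rw [memB] at hx
      obtain ⟨i, hi, h⟩ := hcentral g hg x⁻¹ (fun i hi => inv_mem (hx i hi)) y⁻¹
      refine ⟨i, hi, ?_⟩
      have e : x⁻¹ * y⁻¹ * x * y = ⁅x⁻¹, y⁻¹⁆ := by rw [commutatorElement_def]; group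
      rw [e]; exact h
    · intro x _ n hn hx
      rw [memA g hg] at hx ⊢
      obtain ⟨i, hi, h⟩ := hx
      exact ⟨i, hi, htf i x n hn h⟩
  let R : Set ι → Set G := fun s =>
    if h : ∃ Q' : Set (B s), RelCone ((A s).subgroupOf (B s)) Q' then
      Subtype.val '' h.choose else ∅
  have hR : ∀ g, g ∉ F i₀ → (∀ x ∈ B (c g), x ∉ A (c g) → x ∈ R (c g) ∨ x⁻¹ ∈ R (c g)) ∧
      (∀ x ∈ R (c g), x ∈ B (c g) ∧ x ∉ A (c g)) ∧
      (∀ x ∈ R (c g), ∀ y ∈ R (c g), x * y ∈ R (c g)) ∧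
      (∀ s ∈ A (c g), s ∈ B (c g) → ∀ x ∈ R (c g), s * x ∈ R (c g) ∧ x * s ∈ R (c g)) := by
    intro g hg
    have h := hK g hg
    have hRe : R (c g) = Subtype.val '' h.choose := by simp only [R]; rw [dif_pos h]
    have hs := h.choose_spec
    rw [hRe]
    refine ⟨?_, ?_, ?_, ?_⟩
    · intro x hx hxA
      rcases hs.tot ⟨x, hx⟩ (fun h' => hxA (Subgroup.mem_subgroupOf.1 h')) with h1 | h1
      · exact Or.inl ⟨_, h1, rfl⟩
      · exact Or.inr ⟨_, h1, rfl⟩
    · rintro _ ⟨x, hx, rfl⟩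
      exact ⟨x.2, fun h' => hs.disj _ hx (Subgroup.mem_subgroupOf.2 h')⟩
    · rintro _ ⟨x, hx, rfl⟩ _ ⟨y, hy, rfl⟩
      exact ⟨_, hs.mul _ hx _ hy, rfl⟩
    · rintro s hsA hsB _ ⟨x, hx, rfl⟩
      exact ⟨⟨_, hs.lmul ⟨s, hsB⟩ (Subgroup.mem_subgroupOf.2 hsA) _ hx, rfl⟩,
        ⟨_, hs.rmul ⟨s, hsB⟩ (Subgroup.mem_subgroupOf.2 hsA) _ hx, rfl⟩⟩
  -- elements of the jump have the same cut
  have hcut : ∀ g, g ∉ F i₀ → ∀ x, x ∈ B (c g) → x ∉ A (c g) → x ∉ F i₀ ∧ c x = c g := by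
    intro g hg x hxB hxA
    rw [memB] at hxB
    rw [memA g hg] at hxA
    have h1 : c x = c g := by
      ext i
      constructor
      · intro hi
        by_contra hi'
        exact hxA ⟨i, hi', hi⟩
      · exact fun hi => hxB i hi
    refine ⟨fun h => hxA ⟨i₀, hg, h⟩, h1⟩
  have hAB : ∀ g, g ∉ F i₀ → ∀ y, y ∈ A (c g) → y ∈ B (c g) := by
    intro g hg y hy
    rw [memA g hg] at hy
    rw [memB]
    obtain ⟨i, hi, hy⟩ := hy
    intro j hj
    rcases hchain i j with h | h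
    · exact h hy
    · exact absurd (h hj) hi
  let Q : Set G := {g | g ∉ F i₀ ∧ g ∈ R (c g)}
  have absorb : ∀ g ∈ Q, ∀ s, s ∈ A (c g) → s * g ∈ Q ∧ g * s ∈ Q := by
    rintro g ⟨hg, hgR⟩ s hs
    obtain ⟨-, h2, -, h4⟩ := hR g hg
    obtain ⟨h5, h6⟩ := h4 s hs (hAB g hg s hs) g hgR
    constructor
    · obtain ⟨h7, h8⟩ := hcut g hg _ (h2 _ h5).1 (h2 _ h5).2
      exact ⟨h7, by rw [h8]; exact h5⟩
    · obtain ⟨h7, h8⟩ := hcut g hg _ (h2 _ h6).1 (h2 _ h6).2
      exact ⟨h7, by rw [h8]; exact h6⟩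
  refine ⟨Q, ⟨?_, ?_, ?_, ?_, ?_⟩, ?_⟩
  · intro g hg
    have h1 : g ∈ B (c g) := (memB g g).2 (fun i hi => hi)
    have h2 : g ∉ A (c g) := by
      rw [memA g hg]; rintro ⟨i, hi, h⟩; exact hi h
    have h3 : c g⁻¹ = c g := by
      ext i; simp only [c, Set.mem_ofPred_eq, inv_mem_iff]
    rcases (hR g hg).1 g h1 h2 with h | h
    · exact Or.inl ⟨hg, h⟩
    · exact Or.inr ⟨fun h' => hg (by simpa using h'), by rw [h3]; exact h⟩
  · rintro g ⟨hg, -⟩; exact hg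
  · intro g hg h hh
    by_cases hc : ∃ i, h ∈ F i ∧ g ∉ F i
    · obtain ⟨i, h1, h2⟩ := hc
      exact (absorb g hg h ((memA g hg.1 h).2 ⟨i, h2, h1⟩)).2
    by_cases hc' : ∃ i, g ∈ F i ∧ h ∉ F i
    · obtain ⟨i, h1, h2⟩ := hc'
      exact (absorb h hh g ((memA h hh.1 g).2 ⟨i, h2, h1⟩)).1
    push Not at hc hc'
    have h3 : c h = c g := by
      ext i; exact ⟨hc i, hc' i⟩
    have h4 : h ∈ R (c g) := by rw [← h3]; exact hh.2
    obtain ⟨-, h5, h6, -⟩ := hR g hg.1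
    have h7 := h6 _ hg.2 _ h4
    obtain ⟨h8, h9⟩ := hcut g hg.1 _ (h5 _ h7).1 (h5 _ h7).2
    exact ⟨h8, by rw [h9]; exact h7⟩
  · intro s hs g hg
    exact (absorb g hg s ((memA g hg.1 s).2 ⟨i₀, hg.1, hs⟩)).1
  · intro s hs g hg
    exact (absorb g hg s ((memA g hg.1 s).2 ⟨i₀, hg.1, hs⟩)).2
  · intro x g hg
    obtain ⟨i, hi, h⟩ := hcentral g⁻¹ (fun h' => hg.1 (by simpa using h')) g⁻¹ (fun i hi => hi) x⁻¹
    have e : x⁻¹ * g * x = g * ⁅g⁻¹, x⁻¹⁆ := by rw [commutatorElement_def]; group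
    rw [e]
    exact (absorb g hg _ ((memA g hg.1 _).2 ⟨i, fun h' => hi (by simpa using h'), h⟩)).2

/-- isolator of a central subgroup -/
def isoC {P : Set G} (h : IsBiCone P) (C : Subgroup G) (hC : C ≤ Subgroup.center G) :
    Subgroup G where
  carrier := {q | ∃ k : ℕ, 0 < k ∧ q ^ k ∈ C}
  one_mem' := ⟨1, one_pos, by rw [one_pow]; exact one_mem _⟩
  inv_mem' := by
    rintro q ⟨k, hk, hq⟩
    exact ⟨k, hk, by rw [inv_pow]; exact inv_mem hq⟩
  mul_mem' := by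
    rintro q r ⟨k, hk, hq⟩ ⟨l, hl, hr⟩
    refine ⟨k * l, Nat.mul_pos hk hl, ?_⟩
    have h1 : Commute q r := h.commute_of_pow hk
      ((Subgroup.mem_center_iff.1 (hC hq) r).symm)
    rw [h1.mul_pow, pow_mul, mul_comm k l, pow_mul]
    exact mul_mem (pow_mem hq _) (pow_mem hr _)

theorem mem_isoC {P : Set G} {h : IsBiCone P} {C : Subgroup G} {hC : C ≤ Subgroup.center G}
    {q : G} : q ∈ isoC h C hC ↔ ∃ k : ℕ, 0 < k ∧ q ^ k ∈ C := Iff.rfl

theorem isoC_le {P : Set G} (h : IsBiCone P) {C : Subgroup G} (hC : C ≤ Subgroup.center G) :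
    isoC h C hC ≤ Subgroup.center G := by
  rintro q ⟨k, hk, hq⟩
  rw [Subgroup.mem_center_iff]
  intro g
  exact (h.commute_of_pow hk ((Subgroup.mem_center_iff.1 (hC hq) g).symm)).symm.eq

section Ordered

variable [LinearOrder G] [MulLeftMono G] [MulRightMono G]

/-- **the quotient by the centre is bi-orderable** if there is a central order -/
theorem exists_cone_center_quotient (hc : CentralOrder G) :
    ∃ Q : Set G, RelCone (Subgroup.center G) Q ∧ ∀ x : G, ∀ a ∈ Q, x⁻¹ * a * x ∈ Q := by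
  classical
  let ι := {J : Subgroup G // Cvx J}
  have hnorm : ∀ J : ι, J.1.Normal := fun J => J.2.normal hc
  have hZ : ∀ J : ι, (Subgroup.center G).map (QuotientGroup.mk' J.1) ≤
      Subgroup.center (G ⧸ J.1) := by
    intro J
    rintro _ ⟨z, hz, rfl⟩
    rw [Subgroup.mem_center_iff]
    intro q
    obtain ⟨q, rfl⟩ := QuotientGroup.mk_surjective q
    have := Subgroup.mem_center_iff.1 hz q
    exact congrArg (QuotientGroup.mk' J.1) this
  let F : ι → Subgroup G := fun J =>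
    (isoC (J.2.quotient_cone) ((Subgroup.center G).map (QuotientGroup.mk' J.1)) (hZ J)).comap
      (QuotientGroup.mk' J.1)
  have memF : ∀ J : ι, ∀ g, g ∈ F J ↔ ∃ k : ℕ, 0 < k ∧ ∃ z ∈ Subgroup.center G, ∃ j ∈ J.1,
      g ^ k = z * j := by
    intro J g
    constructor
    · rintro ⟨k, hk, z, hz, h⟩
      refine ⟨k, hk, z, hz, z⁻¹ * g ^ k, ?_, by group⟩
      rw [← map_pow] at h
      exact QuotientGroup.eq.1 h
    · rintro ⟨k, hk, z, hz, j, hj, h⟩
      refine ⟨k, hk, z, hz, ?_⟩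
      rw [← map_pow]
      refine QuotientGroup.eq.2 ?_
      rw [h, inv_mul_cancel_left]; exact hj
  have hcommF : ∀ J : ι, ∀ g ∈ F J, ∀ x, ⁅g, x⁆ ∈ J.1 := by
    intro J g hg x
    have h1 := isoC_le (J.2.quotient_cone) (hZ J) hg
    rw [Subgroup.mem_center_iff] at h1
    have h2 := h1 (QuotientGroup.mk' J.1 x)
    rw [← QuotientGroup.eq_one_iff]
    have h3 : ((⁅g, x⁆ : G) : G ⧸ J.1) = ⁅(g : G ⧸ J.1), (x : G ⧸ J.1)⁆ := rfl
    rw [h3, commutatorElement_eq_one_iff_mul_comm]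
    exact h2.symm
  have hmono : ∀ J K : ι, J.1 ≤ K.1 → F J ≤ F K := by
    intro J K hJK g hg
    rw [memF] at hg ⊢
    obtain ⟨k, hk, z, hz, j, hj, h⟩ := hg
    exact ⟨k, hk, z, hz, j, hJK hj, h⟩
  obtain ⟨P, hP⟩ : ∃ P : Set G, IsBiCone P := ⟨_, isBiCone_lt⟩
  have hF0 : F ⟨⊥, Cvx.bot⟩ = Subgroup.center G := by
    ext g
    rw [memF]
    constructor
    · rintro ⟨k, hk, z, hz, j, hj, h⟩
      rw [Subgroup.mem_bot.1 hj, mul_one] at h
      rw [Subgroup.mem_center_iff]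
      intro x
      refine (hP.commute_of_pow hk ?_).symm.eq
      rw [h]
      exact (Subgroup.mem_center_iff.1 hz x).symm
    · intro hg
      exact ⟨1, one_pos, g, hg, 1, one_mem _, by group⟩
  have := chain_lemma F (fun J K => by
      rcases J.2.total K.2 with h | h
      · exact Or.inl (hmono _ _ h)
      · exact Or.inr (hmono _ _ h)) ⟨⊥, Cvx.bot⟩ (fun J => hmono _ _ bot_le) (by
      intro J x n hn hx
      rw [memF] at hx ⊢
      obtain ⟨k, hk, z, hz, j, hj, h⟩ := hx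
      exact ⟨n * k, Nat.mul_pos hn hk, z, hz, j, hj, by rw [pow_mul]; exact h⟩) (by
      intro g hg b hb x
      let J₀ : ι := ⟨⨅ J : {J : ι // g ∈ F J}, J.1.1, Cvx.sInf (fun J => J.1.2)⟩
      by_cases hg0 : g ∈ F J₀
      · have hb0 := hb J₀ hg0
        have hb0' := hb0
        rw [memF] at hb0'
        obtain ⟨k, hk, z, hz, j, hj, h⟩ := hb0'
        by_cases hj1 : j = 1
        · refine ⟨⟨⊥, Cvx.bot⟩, hg, ?_⟩
          have h1 : Commute b x := by
            refine hP.commute_of_pow hk ?_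
            rw [h, hj1, mul_one]
            exact (Subgroup.mem_center_iff.1 hz x).symm
          rw [commutatorElement_eq_one_iff_commute.2 h1]
          exact one_mem _
        · let U : ι := ⟨hull (Subgroup.zpowers ⁅j, x⁆), cvx_hull _⟩
          have hjU : j ∉ U.1 := notMem_hull_comm hc hj1 x
          have hgU : g ∉ F U := by
            intro hgU
            apply hjU
            have : J₀.1 ≤ U.1 := iInf_le (fun J : {J : ι // g ∈ F J} => J.1.1) ⟨U, hgU⟩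
            exact this hj
          refine ⟨U, hgU, ?_⟩
          -- `b` commutes with `x` modulo `U`
          have h1 : ⁅j, x⁆ ∈ U.1 := le_hull _ (Subgroup.mem_zpowers _)
          have h2 : ⁅b, x⁆ ∈ U.1 := by
            have hN := hnorm U
            rw [← QuotientGroup.eq_one_iff] at h1 ⊢
            change ⁅(j : G ⧸ U.1), (x : G ⧸ U.1)⁆ = 1 at h1
            change ⁅(b : G ⧸ U.1), (x : G ⧸ U.1)⁆ = 1
            rw [commutatorElement_eq_one_iff_commute] at h1 ⊢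
            refine (U.2.quotient_cone).commute_of_pow hk ?_
            rw [← QuotientGroup.mk_pow, h, QuotientGroup.mk_mul]
            refine Commute.mul_left ?_ h1
            have := Subgroup.mem_center_iff.1 hz x
            exact (congrArg (QuotientGroup.mk' U.1) this).symm
          rw [memF]
          exact ⟨1, one_pos, 1, one_mem _, _, h2, by group⟩
      · refine ⟨J₀, hg0, ?_⟩
        rw [memF]
        refine ⟨1, one_pos, 1, one_mem _, ⁅b, x⁆, ?_, by group⟩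
        rw [Subgroup.mem_iInf]
        rintro ⟨J, hJ⟩
        exact hcommF J b (hb J hJ) x)
  rwa [hF0] at this

end Ordered

end H60RO
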